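import Mathlib

/-!
# Algorithmic randomness: basic definitions

Subsets of `ℕ` are identified with infinite binary sequences, i.e. functions `ℕ → Bool`.
-/

namespace Pool.Agent.AlgRandom

open MeasureTheory
open scoped ENNReal

/-- The uniform product measure on the space of infinite sequences over a finite alphabet. -/
noncomputable def unif (α : Type) [Fintype α] [Nonempty α] [MeasurableSpace α] :
    Measure (ℕ → α) :=
  Measure.infinitePi (fun _ : ℕ => (PMF.uniformOfFintype α).toMeasure)

/-- The uniform (Lebesgue, fair coin) measure `μ` on Cantor space `2^ω = ℕ → Bool`. -/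
noncomputable def lebesgue : Measure (ℕ → Bool) := unif Bool

/-- `res X n` is the finite sequence `X ↾ n` of the first `n` entries of `X`. -/
def res {α : Type} (X : ℕ → α) (n : ℕ) : List α := (List.range n).map X

/-- The basic clopen set `[σ]` of all sequences that extend `σ`. -/
def cyl {α : Type} (σ : List α) : Set (ℕ → α) := {X | res X σ.length = σ}

/-- The open set generated by a set of strings. -/
def openOf {α : Type} (W : Set (List α)) : Set (ℕ → α) := ⋃ σ ∈ W, cyl σ

/-- The characteristic function of `A`, as an oracle. -/
def oracle (A : ℕ → Bool) : ℕ →. ℕ := fun n => Part.some (cond (A n) 1 0)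

/-- The predicate `p` is computably enumerable relative to `A`: it is the domain of a partial
function that is recursive in the characteristic function of `A` (this is Mathlib's `REPred`
with `Partrec` replaced by `RecursiveIn {oracle A}`). -/
def REIn {α : Type} [Primcodable α] (A : ℕ → Bool) (p : α → Prop) : Prop :=
  RecursiveIn {oracle A} fun a => Part.assert (p a) fun _ => Part.some ()

/-- A Martin-Löf test relative to `A`: the `k`-th component is the open set generated by `W k`,
these open sets are uniformly `Σ⁰₁(A)`, and the `k`-th one has measure at most `2^{-k}`. -/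
structure IsMLTest (A : ℕ → Bool) (W : ℕ → Set (List Bool)) : Prop where
  re : REIn A fun x : ℕ × List Bool => x.2 ∈ W x.1
  measure_le : ∀ k, lebesgue (openOf (W k)) ≤ (2 : ℝ≥0∞)⁻¹ ^ k

/-- `X` is Martin-Löf random relative to `A`: it passes every Martin-Löf test relative to `A`. -/
def MLRandom (A X : ℕ → Bool) : Prop :=
  ∀ W, IsMLTest A W → X ∉ ⋂ k, openOf (W k)

/-- `C ≤_LR D`: every `D`-random sequence is `C`-random. -/
def LRReducible (C D : ℕ → Bool) : Prop := ∀ X, MLRandom D X → MLRandom C X

/-- The join `A ⊕ B = {2n : n ∈ A} ∪ {2n+1 : n ∈ B}`. -/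
def join (A B : ℕ → Bool) : ℕ → Bool := fun n => if n % 2 = 0 then A (n / 2) else B (n / 2)

/-- A prefix-free machine: a partial computable function from binary strings to natural numbers
whose domain is an antichain for the initial segment relation. -/
structure IsPrefixFreeMachine (M : List Bool →. ℕ) : Prop where
  partrec : Partrec M
  prefixFree : ∀ σ τ, (M σ).Dom → (M τ).Dom → σ <+: τ → σ = τ

/-- A universal (optimal) prefix-free machine. -/
structure IsUniversal (U : List Bool →. ℕ) : Prop extends IsPrefixFreeMachine U where
  universal : ∀ M, IsPrefixFreeMachine M → ∃ c : ℕ, ∀ σ x, x ∈ M σ →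
    ∃ τ, x ∈ U τ ∧ τ.length ≤ σ.length + c

/-- Prefix-free Kolmogorov complexity `K(x)` of a natural number `x` with respect to the
machine `U`: the length of a shortest `U`-description of `x`. -/
noncomputable def K (U : List Bool →. ℕ) (x : ℕ) : ℕ :=
  sInf {n | ∃ σ : List Bool, σ.length = n ∧ x ∈ U σ}

/-- `A` is K-trivial: `K(A ↾ n) ≤ K(n) + c` for some `c` and all `n`.  Binary strings are coded as
natural numbers by the standard effective coding `Encodable.encode`. -/
def KTrivial (U : List Bool →. ℕ) (A : ℕ → Bool) : Prop :=
  ∃ c : ℕ, ∀ n, K U (Encodable.encode (res A n)) ≤ K U n + c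

end Pool.Agent.AlgRandom
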