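import Mathlib
import Pool.Agent.AlgRandom.Defs

/-!
# Normal form for relative computable enumerability
-/

namespace Pool.Agent.AlgRandom

open Computable Encodable

section Res

variable {α : Type}

@[simp] theorem res_length (X : ℕ → α) (n : ℕ) : (res X n).length = n := by simp [res]

theorem res_succ (X : ℕ → α) (n : ℕ) : res X (n + 1) = res X n ++ [X n] := by
  simp [res, List.range_succ]

theorem res_getElem? (X : ℕ → α) {n i : ℕ} (h : i < n) : (res X n)[i]? = some (X i) := by
  simp [res, h]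

theorem res_getElem?_of_mem {X : ℕ → α} {n i : ℕ} {b : α} (h : (res X n)[i]? = some b) :
    b = X i := by
  have hi : i < n := by
    by_contra hc
    rw [List.getElem?_eq_none (by simpa using hc)] at h
    exact absurd h (by simp)
  rw [res_getElem? X hi] at h
  exact (Option.some.inj h).symm

theorem res_take (X : ℕ → α) {m n : ℕ} (h : m ≤ n) : (res X n).take m = res X m := by
  simp [res, ← List.map_take, List.take_range, min_eq_left h]

theorem res_mono (X : ℕ → α) {m n : ℕ} (h : m ≤ n) : res X m <+: res X n := by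
  rw [← res_take X h]
  exact List.take_prefix _ _

theorem mem_cyl {X : ℕ → α} {σ : List α} : X ∈ cyl σ ↔ res X σ.length = σ := Iff.rfl

theorem mem_cyl_iff_prefix {X : ℕ → α} {σ : List α} {n : ℕ} (h : σ.length ≤ n) :
    X ∈ cyl σ ↔ σ <+: res X n := by
  constructor
  · intro hX
    rw [← (mem_cyl.1 hX)]
    simpa using res_mono X h
  · intro hX
    rw [mem_cyl, ← res_take X h]
    exact (List.prefix_iff_eq_take.1 hX).symm

theorem mem_cyl_of_prefix {X : ℕ → α} {σ : List α} {n : ℕ} (h : σ <+: res X n) : X ∈ cyl σ :=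
  (mem_cyl_iff_prefix (by simpa using h.length_le)).2 h

theorem res_mem_cyl (X : ℕ → α) (n : ℕ) : X ∈ cyl (res X n) := by
  simp [cyl]

theorem cyl_mono {σ τ : List α} (h : σ <+: τ) : cyl τ ⊆ cyl σ := by
  intro X hX
  have : σ <+: res X τ.length := by rw [mem_cyl.1 hX]; exact h
  exact mem_cyl_of_prefix this

end Res

section NormalForm

variable (A : ℕ → Bool)

/-- The use principle as a property. -/
def HasUse (f : ℕ → Part ℕ) : Prop :=
  ∃ F : ℕ × List Bool → Part ℕ, Partrec F ∧
    (∀ x σ τ y, σ <+: τ → y ∈ F (x, σ) → y ∈ F (x, τ)) ∧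
    ∀ x y, y ∈ f x ↔ ∃ n, y ∈ F (x, res A n)

theorem hasUse_of_partrec {f : ℕ → Part ℕ} (hf : Nat.Partrec f) : HasUse A f := by
  refine ⟨fun x => f x.1, ?_, fun _ _ _ _ _ h => h, fun x y => ⟨fun h => ⟨0, h⟩, fun ⟨_, h⟩ => h⟩⟩
  exact (Partrec.nat_iff.2 hf).comp Computable.fst

theorem hasUse_oracle : HasUse A (oracle A) := by
  refine ⟨fun x => ((x.2[x.1]?).map (fun b => cond b 1 0) : Option ℕ), ?_, ?_, ?_⟩
  · have h1 : Computable fun p : ℕ × List Bool => p.2[p.1]? :=
      Computable.list_getElem?.comp Computable.snd Computable.fst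
    have h2 : Computable₂ fun (_ : ℕ × List Bool) (b : Bool) => (cond b 1 0 : ℕ) :=
      (Computable.cond Computable.snd (Computable.const 1) (Computable.const 0))
    exact (Computable.option_map h1 h2).ofOption
  · intro x σ τ y h hy
    simp only [Part.mem_coe, Option.mem_def, Option.map_eq_some_iff] at hy ⊢
    obtain ⟨b, hb, rfl⟩ := hy
    obtain ⟨ρ, rfl⟩ := h
    refine ⟨b, ?_, rfl⟩
    have hx : x < σ.length := by
      by_contra hc
      rw [List.getElem?_eq_none (by omega)] at hb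
      exact absurd hb (by simp)
    rw [List.getElem?_append_left hx]
    exact hb
  · intro x y
    simp only [oracle, Part.mem_some_iff, Part.mem_coe, Option.mem_def, Option.map_eq_some_iff]
    constructor
    · rintro rfl
      exact ⟨x + 1, A x, res_getElem? A (Nat.lt_succ_self x), rfl⟩
    · rintro ⟨n, b, hb, rfl⟩
      rw [res_getElem?_of_mem hb]

variable {A}

theorem HasUse.pair {f g : ℕ → Part ℕ} (hf : HasUse A f) (hg : HasUse A g) :
    HasUse A fun n => (Nat.pair <$> f n <*> g n) := by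
  obtain ⟨F, hF, mF, eF⟩ := hf
  obtain ⟨G, hG, mG, eG⟩ := hg
  refine ⟨fun x => (F x).bind fun a => (G x).map fun b => Nat.pair a b, ?_, ?_, ?_⟩
  · have h1 : Partrec fun q : (ℕ × List Bool) × ℕ => (G q.1).map fun b => Nat.pair q.2 b := by
      refine Partrec.map (hG.comp Computable.fst) ?_
      exact (Primrec₂.natPair.to_comp).comp (Computable.snd.comp Computable.fst) Computable.snd
    exact Partrec.bind hF h1
  · intro x σ τ y h hy
    simp only [Part.mem_bind_iff, Part.mem_map_iff] at hy ⊢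
    obtain ⟨a, ha, b, hb, rfl⟩ := hy
    exact ⟨a, mF _ _ _ _ h ha, b, mG _ _ _ _ h hb, rfl⟩
  · intro x y
    simp only [Seq.seq, Part.map_eq_map, Part.mem_bind_iff, Part.mem_map_iff, eF, eG]
    constructor
    · rintro ⟨_, ⟨a, ⟨n, ha⟩, rfl⟩, b, ⟨m, hb⟩, rfl⟩
      exact ⟨max n m, a, mF _ _ _ _ (res_mono A (le_max_left _ _)) ha, b,
        mG _ _ _ _ (res_mono A (le_max_right _ _)) hb, rfl⟩
    · rintro ⟨n, a, ha, b, hb, rfl⟩
      exact ⟨_, ⟨a, ⟨n, ha⟩, rfl⟩, b, ⟨n, hb⟩, rfl⟩

theorem HasUse.comp {f g : ℕ → Part ℕ} (hf : HasUse A f) (hg : HasUse A g) :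
    HasUse A fun n => (g n).bind f := by
  obtain ⟨F, hF, mF, eF⟩ := hf
  obtain ⟨G, hG, mG, eG⟩ := hg
  refine ⟨fun x => (G x).bind fun a => F (a, x.2), ?_, ?_, ?_⟩
  · have h1 : Partrec fun q : (ℕ × List Bool) × ℕ => F (q.2, q.1.2) :=
      hF.comp (Computable.pair Computable.snd (Computable.snd.comp Computable.fst))
    exact Partrec.bind hG h1
  · intro x σ τ y h hy
    simp only [Part.mem_bind_iff] at hy ⊢
    obtain ⟨a, ha, hy⟩ := hy
    exact ⟨a, mG _ _ _ _ h ha, mF _ _ _ _ h hy⟩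
  · intro x y
    simp only [Part.mem_bind_iff, eF, eG]
    constructor
    · rintro ⟨a, ⟨n, ha⟩, m, hb⟩
      exact ⟨max n m, a, mG _ _ _ _ (res_mono A (le_max_left _ _)) ha,
        mF _ _ _ _ (res_mono A (le_max_right _ _)) hb⟩
    · rintro ⟨n, a, ha, hb⟩
      exact ⟨a, ⟨n, ha⟩, n, hb⟩

theorem HasUse.prec {f g : ℕ → Part ℕ} (hf : HasUse A f) (hg : HasUse A g) :
    HasUse A fun p => (Nat.rec (f p.unpair.1) (fun y IH => IH.bind fun i =>
      g (Nat.pair p.unpair.1 (Nat.pair y i))) p.unpair.2 : Part ℕ) := by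
  obtain ⟨F, hF, mF, eF⟩ := hf
  obtain ⟨G, hG, mG, eG⟩ := hg
  let H : ℕ → ℕ → List Bool → Part ℕ := fun a n σ =>
    Nat.rec (F (a, σ)) (fun y IH => IH.bind fun i => G (Nat.pair a (Nat.pair y i), σ)) n
  have mH : ∀ a n σ τ y, σ <+: τ → y ∈ H a n σ → y ∈ H a n τ := by
    intro a n
    induction n with
    | zero => intro σ τ y h hy; exact mF _ _ _ _ h hy
    | succ n ih =>
      intro σ τ y h hy
      simp only [H, Part.mem_bind_iff] at hy ih ⊢
      obtain ⟨i, hi, hy⟩ := hy
      exact ⟨i, ih _ _ _ h hi, mG _ _ _ _ h hy⟩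
  refine ⟨fun x => H x.1.unpair.1 x.1.unpair.2 x.2, ?_, fun x σ τ y h hy => mH _ _ _ _ _ h hy, ?_⟩
  · have h1 : Computable fun p : ℕ × List Bool => p.1.unpair.2 :=
      Computable.snd.comp (Computable.unpair.comp Computable.fst)
    have h2 : Partrec fun p : ℕ × List Bool => F (p.1.unpair.1, p.2) :=
      hF.comp (Computable.pair (Computable.fst.comp (Computable.unpair.comp Computable.fst))
        Computable.snd)
    have h3 : Partrec fun q : (ℕ × List Bool) × (ℕ × ℕ) =>
        G (Nat.pair q.1.1.unpair.1 (Nat.pair q.2.1 q.2.2), q.1.2) := by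
      refine hG.comp (Computable.pair ?_ (Computable.snd.comp Computable.fst))
      refine (Primrec₂.natPair.to_comp).comp
        (Computable.fst.comp (Computable.unpair.comp (Computable.fst.comp Computable.fst))) ?_
      exact (Primrec₂.natPair.to_comp).comp (Computable.fst.comp Computable.snd)
        (Computable.snd.comp Computable.snd)
    exact Partrec.nat_rec h1 h2 h3.to₂
  · intro x y
    dsimp only
    generalize x.unpair.1 = a
    generalize x.unpair.2 = n
    induction n generalizing y with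
    | zero => exact eF a y
    | succ n ih =>
      simp only [H, Part.mem_bind_iff] at ih ⊢
      constructor
      · rintro ⟨i, hi, hy⟩
        rw [ih] at hi
        rw [eG] at hy
        obtain ⟨k, hk⟩ := hi
        obtain ⟨l, hl⟩ := hy
        exact ⟨max k l, i, mH _ _ _ _ _ (res_mono A (le_max_left _ _)) hk,
          mG _ _ _ _ (res_mono A (le_max_right _ _)) hl⟩
      · rintro ⟨k, i, hi, hy⟩
        exact ⟨i, (ih i).2 ⟨k, hi⟩, (eG _ _).2 ⟨k, hy⟩⟩

theorem mem_rfind' {p : ℕ → Part Bool} {n : ℕ} :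
    n ∈ Nat.rfind p ↔ true ∈ p n ∧ ∀ m, m < n → false ∈ p m :=
  (Nat.mem_rfind (p := p)).trans ⟨fun h => ⟨h.1, fun _ hm => h.2 hm⟩, fun h => ⟨h.1, fun hm => h.2 _ hm⟩⟩

theorem HasUse.rfind {f : ℕ → Part ℕ} (hf : HasUse A f) :
    HasUse A fun a => Nat.rfind fun n => (f (Nat.pair a n)).map fun m => decide (m = 0) := by
  obtain ⟨F, hF, mF, eF⟩ := hf
  refine ⟨fun x => Nat.rfind fun n => (F (Nat.pair x.1 n, x.2)).map fun m => decide (m = 0),
    ?_, ?_, ?_⟩
  · have h1 : Partrec fun q : (ℕ × List Bool) × ℕ =>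
        (F (Nat.pair q.1.1 q.2, q.1.2)).map fun m => decide (m = 0) := by
      refine Partrec.map (hF.comp (Computable.pair ?_ (Computable.snd.comp Computable.fst))) ?_
      · exact (Primrec₂.natPair.to_comp).comp (Computable.fst.comp Computable.fst) Computable.snd
      · exact (Primrec.eq.decide.to_comp).comp Computable.snd (Computable.const 0)
    exact Partrec.rfind h1
  · intro a σ τ y h hy
    obtain ⟨h1, h2⟩ := mem_rfind'.1 hy
    refine mem_rfind'.2 ⟨?_, ?_⟩
    · obtain ⟨m, hm, hm'⟩ := (Part.mem_map_iff _).1 h1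
      exact (Part.mem_map_iff _).2 ⟨m, mF _ _ _ _ h hm, hm'⟩
    · intro k hk
      obtain ⟨m, hm, hm'⟩ := (Part.mem_map_iff _).1 (h2 k hk)
      exact (Part.mem_map_iff _).2 ⟨m, mF _ _ _ _ h hm, hm'⟩
  · intro a y
    refine mem_rfind'.trans (Iff.trans ?_ (exists_congr fun n => mem_rfind'.symm))
    simp only [Part.mem_map_iff, eF]
    constructor
    · rintro ⟨⟨m, ⟨n, hn⟩, hm⟩, h2⟩
      -- a common bound for the uses below `y`
      have key : ∀ b ≤ y, ∃ N, ∀ k, k < b → ∃ m, m ∈ F (Nat.pair a k, res A N) ∧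
          decide (m = 0) = false := by
        intro b
        induction b with
        | zero => intro _; exact ⟨0, fun k hk => absurd hk (Nat.not_lt_zero _)⟩
        | succ b ih =>
          intro hb
          obtain ⟨N, hN⟩ := ih (by omega)
          obtain ⟨m', ⟨n', hn'⟩, hm'⟩ := h2 b (by omega)
          refine ⟨max N n', fun k hk => ?_⟩
          rcases Nat.lt_succ_iff_lt_or_eq.1 hk with hk | rfl
          · obtain ⟨m, h1, h2⟩ := hN k hk
            exact ⟨m, mF _ _ _ _ (res_mono A (le_max_left _ _)) h1, h2⟩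
          · exact ⟨m', mF _ _ _ _ (res_mono A (le_max_right _ _)) hn', hm'⟩
      obtain ⟨N, hN⟩ := key y le_rfl
      refine ⟨max N n, ⟨m, mF _ _ _ _ (res_mono A (le_max_right _ _)) hn, hm⟩, ?_⟩
      intro k hk
      obtain ⟨m, h1, h2⟩ := hN k hk
      exact ⟨m, mF _ _ _ _ (res_mono A (le_max_left _ _)) h1, h2⟩
    · rintro ⟨n, ⟨m, hm, hm'⟩, h2⟩
      refine ⟨⟨m, ⟨n, hm⟩, hm'⟩, ?_⟩
      intro k hk
      obtain ⟨m, h1, h2⟩ := h2 k hk
      exact ⟨m, ⟨n, h1⟩, h2⟩

/-- **Use principle.** -/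
theorem hasUse_of_recursiveIn {f : ℕ →. ℕ} (hf : Nat.RecursiveIn {oracle A} f) : HasUse A f := by
  induction hf with
  | zero => exact hasUse_of_partrec A Nat.Partrec.zero
  | succ => exact hasUse_of_partrec A Nat.Partrec.succ
  | left => exact hasUse_of_partrec A Nat.Partrec.left
  | right => exact hasUse_of_partrec A Nat.Partrec.right
  | oracle g hg =>
    rw [Set.mem_singleton_iff] at hg
    subst hg
    exact hasUse_oracle A
  | pair _ _ hf hg => exact HasUse.pair hf hg
  | comp _ _ hf hg => exact HasUse.comp hf hg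
  | prec _ _ hf hg => exact HasUse.prec hf hg
  | rfind _ hf => exact HasUse.rfind hf

end NormalForm

end Pool.Agent.AlgRandom
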