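import Mathlib
import Pool.Agent.AlgRandom.Oracle

/-!
# The uniform measure of cylinders
-/

namespace Pool.Agent.AlgRandom

open MeasureTheory
open scoped ENNReal

section

variable {α : Type}

theorem mem_cyl_iff {X : ℕ → α} {σ : List α} :
    X ∈ cyl σ ↔ ∀ i < σ.length, σ[i]? = some (X i) := by
  rw [mem_cyl]
  constructor
  · intro h i hi
    rw [← h]
    exact res_getElem? X hi
  · intro h
    apply List.ext_getElem?
    intro i
    rcases Nat.lt_or_ge i σ.length with hi | hi
    · rw [h i hi, res_getElem? X hi]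
    · rw [List.getElem?_eq_none (by simpa using hi), List.getElem?_eq_none hi]

theorem cyl_disjoint {σ τ : List α} (h1 : ¬ σ <+: τ) (h2 : ¬ τ <+: σ) :
    Disjoint (cyl σ) (cyl τ) := by
  rw [Set.disjoint_left]
  intro X hσ hτ
  rcases le_total σ.length τ.length with h | h
  · apply h1
    rw [← mem_cyl.1 hτ]
    exact (mem_cyl_iff_prefix h).1 hσ
  · apply h2
    rw [← mem_cyl.1 hσ]
    exact (mem_cyl_iff_prefix h).1 hτ

theorem cyl_eq_pi (σ : List α) :
    cyl σ = Set.pi (↑(Finset.range σ.length)) (fun i => {a | σ[i]? = some a}) := by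
  ext X
  rw [mem_cyl_iff]
  simp [Set.mem_pi]

variable [MeasurableSpace α] [MeasurableSingletonClass α]

theorem measurableSet_getElem? (σ : List α) (i : ℕ) : MeasurableSet {a : α | σ[i]? = some a} := by
  rcases h : σ[i]? with _ | b
  · simp
  · have : {a : α | some b = some a} = {b} := by
      ext a
      simp [eq_comm]
    rw [this]
    exact MeasurableSet.singleton b

theorem measurableSet_cyl (σ : List α) : MeasurableSet (cyl σ) := by
  rw [cyl_eq_pi]
  exact MeasurableSet.pi (Set.to_countable _) fun i _ => measurableSet_getElem? σ i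

theorem measurableSet_openOf [Countable α] (W : Set (List α)) : MeasurableSet (openOf W) :=
  MeasurableSet.biUnion (Set.to_countable _) fun σ _ => measurableSet_cyl σ

variable [Fintype α] [Nonempty α]

instance unif_isProbabilityMeasure : IsProbabilityMeasure (unif α) := by
  unfold unif
  infer_instance

theorem unif_cyl (σ : List α) : unif α (cyl σ) = (Fintype.card α : ℝ≥0∞)⁻¹ ^ σ.length := by
  rw [cyl_eq_pi, unif, Measure.infinitePi_pi _ fun i _ => measurableSet_getElem? σ i]
  have : ∀ i ∈ Finset.range σ.length,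
      (PMF.uniformOfFintype α).toMeasure {a : α | σ[i]? = some a} =
        (Fintype.card α : ℝ≥0∞)⁻¹ := by
    intro i hi
    rw [Finset.mem_range] at hi
    have e : {a : α | σ[i]? = some a} = {σ[i]} := by
      ext a
      simp [List.getElem?_eq_getElem hi, eq_comm]
    rw [e, PMF.toMeasure_apply_singleton _ _ (MeasurableSet.singleton _)]
    simp
  rw [Finset.prod_congr rfl this]
  simp

/-- Kraft's inequality for a countable family of pairwise incomparable strings. -/
theorem tsum_cyl_le_one {ι : Type*} [Countable ι] (f : ι → List α)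
    (hf : ∀ i j, i ≠ j → ¬ f i <+: f j) :
    ∑' i, (Fintype.card α : ℝ≥0∞)⁻¹ ^ (f i).length ≤ 1 := by
  have h1 : ∀ i, (Fintype.card α : ℝ≥0∞)⁻¹ ^ (f i).length = unif α (cyl (f i)) :=
    fun i => (unif_cyl _).symm
  simp_rw [h1]
  rw [← measure_iUnion]
  · exact prob_le_one
  · intro i j hij
    exact cyl_disjoint (hf i j hij) (hf j i hij.symm)
  · exact fun i => measurableSet_cyl _

end

/-! ### Cantor space -/

instance : IsProbabilityMeasure lebesgue := by
  unfold lebesgue
  infer_instance

theorem lebesgue_cyl (σ : List Bool) : lebesgue (cyl σ) = (2 : ℝ≥0∞)⁻¹ ^ σ.length := by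
  rw [lebesgue, unif_cyl]
  simp

end Pool.Agent.AlgRandom
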