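import Mathlib
import Pool.Agent.AlgRandom.Defs

/-!
# A weak form of the Kraft-Chaitin theorem

From a primitive recursive list of requests `(r, x)` of total weight at most one we build a
prefix-free machine which describes each requested `x` by a string of length `r + 1`.
-/

namespace Pool.Agent.AlgRandom

/-! ### Values of binary strings -/

/-- The value of a binary string. -/
def bval (σ : List Bool) : ℕ := σ.foldl (fun v b => 2 * v + cond b 1 0) 0

@[simp] theorem bval_nil : bval [] = 0 := rfl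

theorem bval_concat (σ : List Bool) (b : Bool) : bval (σ ++ [b]) = 2 * bval σ + cond b 1 0 := by
  simp [bval]

theorem bval_append (σ ρ : List Bool) : bval (σ ++ ρ) = 2 ^ ρ.length * bval σ + bval ρ := by
  induction ρ using List.reverseRecOn with
  | nil => simp
  | append_singleton ρ b ih =>
    rw [← List.append_assoc, bval_concat, ih, bval_concat]
    simp [pow_succ]
    ring

theorem bval_lt (σ : List Bool) : bval σ < 2 ^ σ.length := by
  induction σ using List.reverseRecOn with
  | nil => simp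
  | append_singleton σ b ih =>
    rw [bval_concat]
    simp only [List.length_append, List.length_singleton, pow_succ]
    cases b <;> simp <;> omega

theorem exists_bval : ∀ r k, k < 2 ^ r → ∃ σ : List Bool, σ.length = r ∧ bval σ = k := by
  intro r
  induction r with
  | zero => intro k hk; exact ⟨[], rfl, by simp at hk; simp [hk]⟩
  | succ r ih =>
    intro k hk
    obtain ⟨σ, h1, h2⟩ := ih (k / 2) (by rw [pow_succ] at hk; omega)
    refine ⟨σ ++ [decide (k % 2 = 1)], by simp [h1], ?_⟩
    rw [bval_concat, h2]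
    rcases Nat.mod_two_eq_zero_or_one k with h | h
    · simp [h]; omega
    · simp [h]; omega

theorem primrec_bval : Primrec bval := by
  have h : Primrec₂ fun (_ : List Bool) (q : ℕ × Bool) => 2 * q.1 + cond q.2 1 0 := by
    refine Primrec₂.comp Primrec.nat_add (Primrec.nat_double.comp (Primrec.fst.comp Primrec.snd)) ?_
    exact Primrec.cond (Primrec.snd.comp Primrec.snd) (Primrec.const 1) (Primrec.const 0)
  exact Primrec.list_foldl Primrec.id (Primrec.const 0) h

theorem primrec_pow : Primrec₂ ((· ^ ·) : ℕ → ℕ → ℕ) := Primrec₂.unpaired'.1 Nat.Primrec.pow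

section KC

variable (req : ℕ → Option (ℕ × ℕ))

/-- Partial sums of the weights of the requests: the pair `(a, e)` stands for `a / 2 ^ e`. -/
def psum : ℕ → ℕ × ℕ
  | 0 => (0, 0)
  | n + 1 => match req n with
    | none => psum n
    | some (r, _) => ((psum n).1 * 2 ^ r + 2 ^ (psum n).2, (psum n).2 + r)

/-- The partial sums as real numbers. -/
noncomputable def av (n : ℕ) : ℝ := (psum req n).1 / 2 ^ (psum req n).2

theorem av_zero : av req 0 = 0 := by simp [av, psum]

theorem av_succ_none {n : ℕ} (h : req n = none) : av req (n + 1) = av req n := by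
  simp [av, psum, h]

theorem av_succ_some {n r x : ℕ} (h : req n = some (r, x)) :
    av req (n + 1) = av req n + (2 : ℝ)⁻¹ ^ r := by
  have h1 : psum req (n + 1) = ((psum req n).1 * 2 ^ r + 2 ^ (psum req n).2,
      (psum req n).2 + r) := by
    rw [psum, h]
  rw [av, av, h1]
  push_cast
  rw [pow_add, inv_pow]
  field_simp

theorem av_le_succ (n : ℕ) : av req n ≤ av req (n + 1) := by
  rcases h : req n with _ | ⟨r, x⟩
  · rw [av_succ_none req h]
  · rw [av_succ_some req h]
    have : (0 : ℝ) < (2 : ℝ)⁻¹ ^ r := by positivity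
    linarith

theorem av_mono : Monotone (av req) := monotone_nat_of_le_succ (av_le_succ req)

/-- The test that `σ` is a description for the `n`-th request. -/
def isDescr (n : ℕ) (σ : List Bool) : Bool :=
  match req n with
  | none => false
  | some (r, _) => decide (σ.length = r + 1) &&
      (decide ((psum req n).1 * 2 ^ (r + 1) ≤ bval σ * 2 ^ (psum req n).2) &&
      decide ((bval σ + 1) * 2 ^ (psum req (n + 1)).2 ≤ (psum req (n + 1)).1 * 2 ^ (r + 1)))

theorem isDescr_iff {n : ℕ} {σ : List Bool} : isDescr req n σ = true ↔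
    ∃ r x, req n = some (r, x) ∧ σ.length = r + 1 ∧
      av req n ≤ bval σ / 2 ^ (r + 1) ∧ (bval σ + 1) / 2 ^ (r + 1) ≤ av req (n + 1) := by
  rcases h : req n with _ | ⟨r, x⟩
  · simp [isDescr, h]
  · have e1 : ((psum req n).1 * 2 ^ (r + 1) ≤ bval σ * 2 ^ (psum req n).2) ↔
        av req n ≤ bval σ / 2 ^ (r + 1) := by
      rw [av, div_le_div_iff₀ (by positivity) (by positivity)]
      exact_mod_cast Iff.rfl
    have e2 : ((bval σ + 1) * 2 ^ (psum req (n + 1)).2 ≤ (psum req (n + 1)).1 * 2 ^ (r + 1)) ↔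
        ((bval σ : ℝ) + 1) / 2 ^ (r + 1) ≤ av req (n + 1) := by
      rw [av, div_le_div_iff₀ (by positivity) (by positivity)]
      exact_mod_cast Iff.rfl
    simp only [isDescr, h, Bool.and_eq_true, decide_eq_true_eq, e1, e2]
    constructor
    · rintro ⟨h1, h2, h3⟩
      exact ⟨r, x, rfl, h1, h2, h3⟩
    · rintro ⟨r', x', h0, h1, h2, h3⟩
      obtain ⟨rfl, rfl⟩ : r = r' ∧ x = x' := by simpa using h0
      exact ⟨h1, h2, h3⟩

/-- Descriptions of different requests are incomparable. -/
theorem isDescr_unique {n m : ℕ} {σ τ : List Bool} (h1 : isDescr req n σ = true)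
    (h2 : isDescr req m τ = true) (h : σ <+: τ) : n = m ∧ σ = τ := by
  obtain ⟨r, x, hr, hl, ha, hb⟩ := (isDescr_iff req).1 h1
  obtain ⟨s, y, hs, kl, ka, kb⟩ := (isDescr_iff req).1 h2
  obtain ⟨ρ, rfl⟩ := h
  have hlen : s + 1 = (r + 1) + ρ.length := by
    rw [← kl, List.length_append, hl]
  have hv : (bval (σ ++ ρ) : ℝ) = 2 ^ ρ.length * bval σ + bval ρ := by
    exact_mod_cast bval_append σ ρ
  have hρ : ((bval ρ : ℝ) + 1) ≤ 2 ^ ρ.length := by
    exact_mod_cast bval_lt ρ
  have hρ0 : (0 : ℝ) ≤ bval ρ := by positivity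
  have hpos : (0 : ℝ) < 2 ^ (r + 1) := by positivity
  have hpos' : (0 : ℝ) < 2 ^ ρ.length := by positivity
  -- the interval of `σ ++ ρ` lies in that of `σ`
  have hlow : (bval σ : ℝ) / 2 ^ (r + 1) ≤ bval (σ ++ ρ) / 2 ^ (s + 1) := by
    rw [hlen, hv, pow_add (2 : ℝ) (r + 1) ρ.length, div_le_div_iff₀ hpos (by positivity)]
    nlinarith [mul_nonneg hρ0 hpos.le]
  have hup : ((bval (σ ++ ρ) : ℝ) + 1) / 2 ^ (s + 1) ≤ (bval σ + 1) / 2 ^ (r + 1) := by
    rw [hlen, hv, pow_add (2 : ℝ) (r + 1) ρ.length, div_le_div_iff₀ (by positivity) hpos]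
    nlinarith [mul_le_mul_of_nonneg_right hρ hpos.le]
  have hlt : (bval (σ ++ ρ) : ℝ) / 2 ^ (s + 1) < (bval (σ ++ ρ) + 1) / 2 ^ (s + 1) := by
    apply div_lt_div_of_pos_right _ (by positivity)
    linarith
  have hnm : n = m := by
    rcases lt_trichotomy n m with hlt' | heq | hgt
    · exfalso
      have := av_mono req (show n + 1 ≤ m by omega)
      linarith
    · exact heq
    · exfalso
      have := av_mono req (show m + 1 ≤ n by omega)
      linarith
  subst hnm
  rw [hr] at hs
  obtain ⟨rfl, rfl⟩ : r = s ∧ x = y := by simpa using hs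
  have : ρ.length = 0 := by omega
  rw [List.length_eq_zero_iff] at this
  subst this
  exact ⟨rfl, by simp⟩

theorem exists_isDescr (hsum : ∀ n, av req n ≤ 1) {n r x : ℕ} (h : req n = some (r, x)) :
    ∃ σ : List Bool, σ.length = r + 1 ∧ isDescr req n σ = true := by
  have h0 : 0 ≤ av req n := by rw [← av_zero req]; exact av_mono req (Nat.zero_le n)
  have hs := av_succ_some req h
  have hpos : (0 : ℝ) < 2 ^ (r + 1) := by positivity
  set k := ⌈av req n * 2 ^ (r + 1)⌉₊ with hk
  have k1 : av req n * 2 ^ (r + 1) ≤ k := Nat.le_ceil _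
  have k2 : (k : ℝ) < av req n * 2 ^ (r + 1) + 1 := Nat.ceil_lt_add_one (by positivity)
  have e : (2 : ℝ)⁻¹ ^ r * 2 ^ (r + 1) = 2 := by
    rw [pow_succ, inv_pow]; field_simp
  have k3 : ((k : ℝ) + 1) / 2 ^ (r + 1) ≤ av req (n + 1) := by
    rw [div_le_iff₀ hpos, hs, add_mul, e]
    linarith
  have k4 : k < 2 ^ (r + 1) := by
    have := k3.trans (hsum (n + 1))
    rw [div_le_iff₀ hpos, one_mul] at this
    have h' : (k : ℝ) < 2 ^ (r + 1) := by linarith
    exact_mod_cast h'
  obtain ⟨σ, hσ, hv⟩ := exists_bval (r + 1) k k4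
  refine ⟨σ, hσ, (isDescr_iff req).2 ⟨r, x, h, hσ, ?_, ?_⟩⟩
  · rw [hv, le_div_iff₀ hpos]
    exact k1
  · rw [hv]
    exact k3

variable {req}

theorem primrec_psum (hreq : Primrec req) : Primrec (psum req) := by
  have hstep : Primrec₂ fun (n : ℕ) (p : ℕ × ℕ) =>
      (Option.casesOn (req n) p (fun q => (p.1 * 2 ^ q.1 + 2 ^ p.2, p.2 + q.1)) : ℕ × ℕ) := by
    have g1 : Primrec fun z : (ℕ × (ℕ × ℕ)) × (ℕ × ℕ) =>
        (z.1.2.1 * 2 ^ z.2.1 + 2 ^ z.1.2.2, z.1.2.2 + z.2.1) := by
      have p1 : Primrec fun z : (ℕ × (ℕ × ℕ)) × (ℕ × ℕ) => z.1.2.1 :=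
        Primrec.fst.comp (Primrec.snd.comp Primrec.fst)
      have p2 : Primrec fun z : (ℕ × (ℕ × ℕ)) × (ℕ × ℕ) => z.1.2.2 :=
        Primrec.snd.comp (Primrec.snd.comp Primrec.fst)
      have p3 : Primrec fun z : (ℕ × (ℕ × ℕ)) × (ℕ × ℕ) => z.2.1 :=
        Primrec.fst.comp Primrec.snd
      exact Primrec.pair (Primrec.nat_add.comp (Primrec.nat_mul.comp p1
        (primrec_pow.comp (Primrec.const 2) p3)) (primrec_pow.comp (Primrec.const 2) p2))
        (Primrec.nat_add.comp p2 p3)
    exact Primrec.option_casesOn (hreq.comp Primrec.fst) Primrec.snd g1.to₂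
  refine (Primrec.nat_rec₁ (0, 0) hstep).of_eq fun n => ?_
  induction n with
  | zero => rfl
  | succ n ih =>
    show (Option.casesOn (req n) _ _ : ℕ × ℕ) = psum req (n + 1)
    rw [psum]
    rcases h : req n with _ | ⟨r, x⟩
    · exact ih
    · simp only [ih]

theorem primrec_isDescr (hreq : Primrec req) : Primrec₂ (isDescr req) := by
  have hp := primrec_psum hreq
  have g1 : Primrec fun z : (ℕ × List Bool) × (ℕ × ℕ) =>
      (decide (z.1.2.length = z.2.1 + 1) &&
      (decide ((psum req z.1.1).1 * 2 ^ (z.2.1 + 1) ≤ bval z.1.2 * 2 ^ (psum req z.1.1).2) &&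
      decide ((bval z.1.2 + 1) * 2 ^ (psum req (z.1.1 + 1)).2 ≤
        (psum req (z.1.1 + 1)).1 * 2 ^ (z.2.1 + 1)))) := by
    have a1 : Primrec fun z : (ℕ × List Bool) × (ℕ × ℕ) => z.1.2 := Primrec.snd.comp Primrec.fst
    have a2 : Primrec fun z : (ℕ × List Bool) × (ℕ × ℕ) => z.1.1 := Primrec.fst.comp Primrec.fst
    have a3 : Primrec fun z : (ℕ × List Bool) × (ℕ × ℕ) => z.2.1 + 1 :=
      Primrec.succ.comp (Primrec.fst.comp Primrec.snd)
    have b1 := Primrec.eq.decide.comp (Primrec.list_length.comp a1) a3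
    have two : Primrec fun _ : (ℕ × List Bool) × (ℕ × ℕ) => 2 := Primrec.const 2
    have b2 := Primrec.nat_le.decide.comp
      (Primrec.nat_mul.comp (Primrec.fst.comp (hp.comp a2)) (primrec_pow.comp two a3))
      (Primrec.nat_mul.comp (primrec_bval.comp a1)
        (primrec_pow.comp two (Primrec.snd.comp (hp.comp a2))))
    have b3 := Primrec.nat_le.decide.comp
      (Primrec.nat_mul.comp (Primrec.succ.comp (primrec_bval.comp a1))
        (primrec_pow.comp two (Primrec.snd.comp (hp.comp (Primrec.succ.comp a2)))))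
      (Primrec.nat_mul.comp (Primrec.fst.comp (hp.comp (Primrec.succ.comp a2)))
        (primrec_pow.comp two a3))
    exact Primrec.and.comp b1 (Primrec.and.comp b2 b3)
  refine (Primrec.option_casesOn (hreq.comp Primrec.fst) (Primrec.const false) g1.to₂).of_eq ?_
  rintro ⟨n, σ⟩
  simp only [isDescr]
  rcases h : req n with _ | ⟨r, x⟩ <;> simp

/-- **Weak Kraft-Chaitin theorem.** -/
theorem kraftChaitin (hreq : Primrec req) (hsum : ∀ n, av req n ≤ 1) :
    ∃ M : List Bool →. ℕ, IsPrefixFreeMachine M ∧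
      ∀ n r x, req n = some (r, x) → ∃ σ : List Bool, σ.length = r + 1 ∧ x ∈ M σ := by
  let f : List Bool → ℕ → Option ℕ := fun σ n =>
    cond (isDescr req n σ) ((req n).map Prod.snd) none
  have hf : Primrec₂ f := by
    have h1 : Primrec fun z : List Bool × ℕ => isDescr req z.2 z.1 :=
      (primrec_isDescr hreq).comp Primrec.snd Primrec.fst
    have h2 : Primrec fun z : List Bool × ℕ => (req z.2).map Prod.snd :=
      Primrec.option_map (hreq.comp Primrec.snd) (Primrec.snd.comp Primrec.snd).to₂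
    exact Primrec.cond h1 h2 (Primrec.const none)
  let M : List Bool →. ℕ := fun σ => Nat.rfindOpt (f σ)
  have hM : Partrec M := Partrec.rfindOpt hf.to_comp
  have hdom : ∀ σ, (M σ).Dom → ∃ n, isDescr req n σ = true := by
    intro σ h
    obtain ⟨n, a, ha⟩ := Nat.rfindOpt_dom.1 h
    refine ⟨n, ?_⟩
    by_contra hc
    simp only [f, Option.mem_def] at ha
    rw [Bool.eq_false_iff.2 hc] at ha
    simp at ha
  refine ⟨M, ⟨hM, ?_⟩, ?_⟩
  · intro σ τ h1 h2 h
    obtain ⟨n, hn⟩ := hdom σ h1
    obtain ⟨m, hm⟩ := hdom τ h2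
    exact (isDescr_unique req hn hm h).2
  · intro n r x h
    obtain ⟨σ, hσ, hd⟩ := exists_isDescr req hsum h
    refine ⟨σ, hσ, ?_⟩
    have hfn : f σ n = some x := by simp [f, hd, h]
    have hD : (M σ).Dom := Nat.rfindOpt_dom.2 ⟨n, x, hfn⟩
    obtain ⟨m, hm⟩ := Nat.rfindOpt_spec (Part.get_mem hD)
    have hmd : isDescr req m σ = true := by
      by_contra hc
      simp only [f, Option.mem_def] at hm
      rw [Bool.eq_false_iff.2 hc] at hm
      simp at hm
    obtain ⟨rfl, -⟩ := isDescr_unique req hd hmd (List.prefix_refl σ)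
    rw [Option.mem_def, hfn] at hm
    have := Option.some.inj hm
    rw [this]
    exact Part.get_mem hD

end KC

end Pool.Agent.AlgRandom
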