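import Mathlib
import Pool.Agent.AlgRandom.Oracle

/-!
# Normal form for relative computable enumerability, part 2
-/

namespace Pool.Agent.AlgRandom

open Encodable
open Nat.Partrec (Code)

/-- The universal monotone evaluation predicate. -/
def ev (e x : ℕ) (σ : List Bool) : Bool :=
  (List.range (σ.length + 1)).any fun s =>
    (Code.evaln σ.length (Denumerable.ofNat Code e) (encode (x, σ.take s))).isSome

theorem ev_iff {e x : ℕ} {σ : List Bool} :
    ev e x σ = true ↔ ∃ s ≤ σ.length, ∃ y,
      y ∈ Code.evaln σ.length (Denumerable.ofNat Code e) (encode (x, σ.take s)) := by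
  simp only [ev, List.any_eq_true, List.mem_range, Option.isSome_iff_exists, Option.mem_def,
    Nat.lt_succ_iff]

theorem ev_mono {e x : ℕ} {σ τ : List Bool} (h : σ <+: τ) (hσ : ev e x σ = true) :
    ev e x τ = true := by
  rw [ev_iff] at hσ ⊢
  obtain ⟨s, hs, y, hy⟩ := hσ
  have hl := h.length_le
  refine ⟨s, by omega, y, ?_⟩
  have htake : τ.take s = σ.take s := by
    obtain ⟨ρ, rfl⟩ := h
    exact List.take_append_of_le_length hs
  rw [htake]
  exact Code.evaln_mono hl hy

/-- The normal form theorem. -/
theorem REIn.exists_index {α : Type} [Primcodable α] {A : ℕ → Bool} {p : α → Prop}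
    (hp : REIn A p) : ∃ e, ∀ a, p a ↔ ∃ n, ev e (encode a) (res A n) = true := by
  obtain ⟨F, hF, mF, eF⟩ := hasUse_of_recursiveIn hp
  obtain ⟨c, hc⟩ := Code.exists_code.1 hF
  refine ⟨encode c, fun a => ?_⟩
  have h1 : p a ↔ ∃ y, y ∈ (Part.bind (decode (α := α) (encode a) : Part α) fun a =>
      (Part.assert (p a) fun _ => Part.some ()).map encode) := by
    simp [encodek]
  have hc' : ∀ x σ y, y ∈ F (x, σ) ↔ ∃ k, y ∈ Code.evaln k c (encode (x, σ)) := by
    intro x σ y
    rw [← Code.evaln_complete, hc]
    simp
  rw [h1]
  constructor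
  · rintro ⟨y, hy⟩
    rw [eF] at hy
    obtain ⟨n, hn⟩ := hy
    rw [hc'] at hn
    obtain ⟨k, hk⟩ := hn
    refine ⟨max n k, ev_iff.2 ⟨n, by simp, y, ?_⟩⟩
    rw [res_take A (le_max_left n k), res_length, Denumerable.ofNat_encode]
    exact Code.evaln_mono (le_max_right n k) hk
  · rintro ⟨n, hn⟩
    obtain ⟨s, hs, y, hy⟩ := ev_iff.1 hn
    rw [res_length] at hs
    rw [res_take A hs, Denumerable.ofNat_encode] at hy
    refine ⟨y, ?_⟩
    rw [eF]
    exact ⟨s, (hc' _ _ _).2 ⟨_, hy⟩⟩

section Converse

variable {O : Set (ℕ →. ℕ)}

theorem nat_recursiveIn_of_computableIn {γ : Type} [Primcodable γ] {f : ℕ → γ}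
    (hf : ComputableIn O f) : Nat.RecursiveIn O (fun n => Part.some (encode (f n))) := by
  refine Nat.RecursiveIn.of_eq hf fun n => ?_
  simp

theorem computableIn_of_nat {γ : Type} [Primcodable γ] {f : ℕ → γ}
    (hf : Nat.RecursiveIn O (fun n => Part.some (encode (f n)))) : ComputableIn O f := by
  refine Nat.RecursiveIn.of_eq hf fun n => ?_
  simp

theorem nat_recursiveIn_computable {f : ℕ → ℕ} (hf : Computable f) :
    Nat.RecursiveIn O (fun n => Part.some (f n)) :=
  Nat.Partrec.recursiveIn (Partrec.nat_iff.1 hf)

theorem ComputableIn.natPair {γ δ : Type} [Primcodable γ] [Primcodable δ] {f : ℕ → γ} {g : ℕ → δ}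
    (hf : ComputableIn O f) (hg : ComputableIn O g) : ComputableIn O fun n => (f n, g n) := by
  refine computableIn_of_nat ?_
  refine Nat.RecursiveIn.of_eq (Nat.RecursiveIn.pair (nat_recursiveIn_of_computableIn hf)
    (nat_recursiveIn_of_computableIn hg)) fun n => ?_
  simp [Seq.seq]

/-- Existential quantification over a computable relation with an oracle-computable parameter. -/
theorem reIn_of_computable {α γ : Type} [Primcodable α] [Primcodable γ] {A : ℕ → Bool}
    {R : α → γ → Bool} (hR : Computable₂ R) {f : ℕ → γ} (hf : ComputableIn {oracle A} f) :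
    REIn A fun a => ∃ n, R a (f n) = true := by
  -- the test function
  let h : ℕ → ℕ := fun m =>
    if ((decode (α := α) m.unpair.1).bind fun a => (decode (α := γ) m.unpair.2).map fun y => R a y)
      = some true then 0 else 1
  have hh : Computable h := by
    have h1 : Computable fun m : ℕ => (decode (α := α) m.unpair.1) :=
      Computable.decode.comp (Computable.fst.comp Computable.unpair)
    have h2 : Computable fun q : ℕ × α => (decode (α := γ) q.1.unpair.2) :=
      Computable.decode.comp (Computable.snd.comp (Computable.unpair.comp Computable.fst))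
    have h3 : Computable₂ fun (q : ℕ × α) (y : γ) => R q.2 y :=
      hR.comp (Computable.snd.comp Computable.fst) Computable.snd
    have h4 : Computable fun m : ℕ =>
        ((decode (α := α) m.unpair.1).bind fun a =>
          (decode (α := γ) m.unpair.2).map fun y => R a y) :=
      Computable.option_bind h1 (Computable.option_map h2 h3).to₂
    have h5 : Computable fun m : ℕ => decide (((decode (α := α) m.unpair.1).bind fun a =>
          (decode (α := γ) m.unpair.2).map fun y => R a y) = some true) :=
      (Primrec.eq.decide.to_comp).comp h4 (Computable.const (some true))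
    refine (Computable.cond h5 (Computable.const 0) (Computable.const 1)).of_eq fun m => ?_
    by_cases hm : ((decode (α := α) m.unpair.1).bind fun a =>
          (decode (α := γ) m.unpair.2).map fun y => R a y) = some true
    · simp only [h, if_pos hm, hm]; simp
    · simp only [h, if_neg hm, hm]; simp
  have hg : Nat.RecursiveIn {oracle A} (fun n => Part.some (encode (f n))) :=
    nat_recursiveIn_of_computableIn hf
  -- the search
  have hsearch : Nat.RecursiveIn {oracle A} (fun a => Nat.rfind fun n =>
      (fun m => m = 0) <$> (Part.some (h (Nat.pair a (encode (f n)))) : Part ℕ)) := by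
    have := Nat.RecursiveIn.rfind (Nat.RecursiveIn.comp (nat_recursiveIn_computable hh)
      (Nat.RecursiveIn.pair Nat.RecursiveIn.left
        (Nat.RecursiveIn.comp hg Nat.RecursiveIn.right)) (O := {oracle A}))
    refine Nat.RecursiveIn.of_eq this fun n => ?_
    simp [Seq.seq]
  have hfinal := Nat.RecursiveIn.comp (Nat.RecursiveIn.zero (O := {oracle A})) hsearch
  refine Nat.RecursiveIn.of_eq hfinal fun m => ?_
  have hdom : (Nat.rfind fun n =>
      (fun m => m = 0) <$> (Part.some (h (Nat.pair m (encode (f n)))) : Part ℕ)).Dom ↔
      ∃ n, h (Nat.pair m (encode (f n))) = 0 := by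
    refine Nat.rfind_dom.trans ?_
    constructor
    · rintro ⟨n, hn, -⟩
      simp at hn
      exact ⟨n, hn⟩
    · rintro ⟨n, hn⟩
      exact ⟨n, by simp [hn], fun _ => trivial⟩
  have hval : ∀ n, h (Nat.pair m (encode (f n))) = 0 ↔
      ∃ a, decode (α := α) m = some a ∧ R a (f n) = true := by
    intro n
    simp only [h, Nat.unpair_pair, encodek, Option.map_some]
    constructor
    · intro hx
      by_contra hc
      rw [if_neg] at hx
      · exact absurd hx (by simp)
      · intro hb
        apply hc
        rcases hd : decode (α := α) m with _ | a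
        · rw [hd] at hb; simp at hb
        · rw [hd] at hb; exact ⟨a, rfl, by simpa using hb⟩
    · rintro ⟨a, ha, hR⟩
      rw [if_pos]
      simp [ha, hR]
  apply Part.ext'
  · constructor
    · rintro ⟨hd, -⟩
      obtain ⟨n, hn⟩ := hdom.1 hd
      obtain ⟨a, ha, hR⟩ := (hval n).1 hn
      simp only [ha]
      simp
      exact ⟨⟨n, hR⟩, trivial⟩
    · intro hd
      rcases hdec : decode (α := α) m with _ | a
      · rw [hdec] at hd
        simp at hd
      · rw [hdec] at hd
        simp at hd
        obtain ⟨⟨n, hn⟩, -⟩ := hd
        exact ⟨hdom.2 ⟨n, (hval n).2 ⟨a, hdec, hn⟩⟩, trivial⟩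
  · intro h1 h2
    obtain ⟨n, hn⟩ := hdom.1 h1.1
    obtain ⟨a, ha, hR⟩ := (hval n).1 hn
    have e1 : ∀ y, y ∈ (Part.bind (decode (α := α) m : Part α) fun a =>
      (Part.assert (∃ n, R a (f n) = true) fun _ => Part.some ()).map encode) → y = 0 := by
      intro y hy
      simp at hy
      obtain ⟨_, _, _, _, hx⟩ := hy
      exact hx.symm
    have := e1 _ (Part.get_mem h2)
    rw [this]
    rfl

/-! ### Initial segments of oracles are computable from the oracle -/

theorem computableIn_res {A O : ℕ → Bool} (hA : Nat.RecursiveIn {oracle O} (oracle A)) :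
    ComputableIn {oracle O} fun n => res A n := by
  refine computableIn_of_nat ?_
  -- one step of the recursion
  let st : ℕ → ℕ := fun m =>
    encode (((decode (α := List Bool) m.unpair.1).getD []) ++ [decide (m.unpair.2 = 1)])
  have hst : Computable st := by
    have h1 : Computable fun m : ℕ => (decode (α := List Bool) m.unpair.1).getD [] :=
      Computable.option_getD (Computable.decode.comp (Computable.fst.comp Computable.unpair))
        (Computable.const [])
    have h2 : Computable fun m : ℕ => decide (m.unpair.2 = 1) :=
      (Primrec.eq.decide.to_comp).comp (Computable.snd.comp Computable.unpair) (Computable.const 1)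
    exact Computable.encode.comp (Computable.list_concat.comp h1 h2)
  -- the argument `⟨a, ⟨y, i⟩⟩` is sent to `st ⟨i, A y⟩`
  have hy : Nat.RecursiveIn {oracle O} (fun m : ℕ => Part.some m.unpair.2.unpair.1) :=
    nat_recursiveIn_computable (Computable.fst.comp (Computable.unpair.comp
      (Computable.snd.comp Computable.unpair)))
  have hi : Nat.RecursiveIn {oracle O} (fun m : ℕ => Part.some m.unpair.2.unpair.2) :=
    nat_recursiveIn_computable (Computable.snd.comp (Computable.unpair.comp
      (Computable.snd.comp Computable.unpair)))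
  have hAy : Nat.RecursiveIn {oracle O}
      (fun m : ℕ => Part.some (cond (A m.unpair.2.unpair.1) 1 0)) :=
    Nat.RecursiveIn.of_eq (Nat.RecursiveIn.comp hA hy) fun m => Part.bind_some _ _
  have hstep : Nat.RecursiveIn {oracle O}
      (fun m : ℕ => Part.some (st (Nat.pair m.unpair.2.unpair.2
        (cond (A m.unpair.2.unpair.1) 1 0)))) := by
    refine Nat.RecursiveIn.of_eq (Nat.RecursiveIn.comp (nat_recursiveIn_computable hst)
      (Nat.RecursiveIn.pair hi hAy)) fun m => ?_
    simp [Seq.seq]
  have hbase : Nat.RecursiveIn {oracle O} (fun _ : ℕ => Part.some (encode ([] : List Bool))) :=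
    nat_recursiveIn_computable (Computable.const _)
  have hrec := Nat.RecursiveIn.prec hbase hstep
  have harg : Nat.RecursiveIn {oracle O} (fun n : ℕ => Part.some (Nat.pair 0 n)) :=
    nat_recursiveIn_computable ((Primrec₂.natPair.to_comp).comp (Computable.const 0) Computable.id)
  refine Nat.RecursiveIn.of_eq (Nat.RecursiveIn.comp hrec harg) fun n => ?_
  refine (Part.bind_some _ _).trans ?_
  simp only [Nat.unpair_pair, Part.bind_eq_bind]
  induction n with
  | zero => simp [res]
  | succ n ih =>
    refine (congrArg (fun P => Part.bind P _) ih).trans ?_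
    simp only [Part.bind_some, st, Nat.unpair_pair, encodek, Option.getD_some, res_succ]
    cases A n <;> simp

theorem recursiveIn_join_left (A B : ℕ → Bool) :
    Nat.RecursiveIn {oracle (join A B)} (oracle A) := by
  have h := Nat.RecursiveIn.comp (Nat.RecursiveIn.oracle (O := {oracle (join A B)}) _ rfl)
    (nat_recursiveIn_computable (Primrec.nat_double.to_comp))
  refine Nat.RecursiveIn.of_eq h fun n => (Part.bind_some _ _).trans ?_
  simp [oracle, join]

theorem recursiveIn_join_right (A B : ℕ → Bool) :
    Nat.RecursiveIn {oracle (join A B)} (oracle B) := by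
  have h := Nat.RecursiveIn.comp (Nat.RecursiveIn.oracle (O := {oracle (join A B)}) _ rfl)
    (nat_recursiveIn_computable (Primrec.nat_double_succ.to_comp))
  refine Nat.RecursiveIn.of_eq h fun n => (Part.bind_some _ _).trans ?_
  have h1 : (2 * n + 1) % 2 = 1 := by omega
  have h2 : (2 * n + 1) / 2 = n := by omega
  simp [oracle, join, h1, h2]

theorem computableIn_res_self (A : ℕ → Bool) : ComputableIn {oracle A} fun n => res A n :=
  computableIn_res (Nat.RecursiveIn.oracle _ rfl)

theorem computableIn_res_join (A B : ℕ → Bool) :
    ComputableIn {oracle (join A B)} fun n => (res A n, res B n) :=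
  ComputableIn.natPair (computableIn_res (recursiveIn_join_left A B))
    (computableIn_res (recursiveIn_join_right A B))

end Converse

end Pool.Agent.AlgRandom
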