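import Mathlib
import Pool.Agent.AlgRandom.NormalForm
import Pool.Agent.AlgRandom.KraftChaitin

/-!
# The decoder

The primitive recursive function that decodes a sequence from a random sequence into which it was
coded by Kucera's method (relative to an oracle).
-/

namespace Pool.Agent.AlgRandom

open Encodable
open Nat.Partrec (Code)

/-! ### All strings of a given length -/

/-- The list of all binary strings of length `n`. -/
def strs : ℕ → List (List Bool)
  | 0 => [[]]
  | n + 1 => (strs n).flatMap fun x => [x ++ [false], x ++ [true]]

theorem mem_strs {n : ℕ} {x : List Bool} : x ∈ strs n ↔ x.length = n := by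
  induction n generalizing x with
  | zero => simp [strs]
  | succ n ih =>
    rw [strs, List.mem_flatMap]
    constructor
    · rintro ⟨y, hy, hx⟩
      rw [ih] at hy
      simp only [List.mem_cons, List.not_mem_nil, or_false] at hx
      rcases hx with rfl | rfl <;> simp [hy]
    · intro h
      rcases List.eq_nil_or_concat x with rfl | ⟨y, b, rfl⟩
      · simp at h
      · simp only [List.concat_eq_append, List.length_append, List.length_singleton,
          Nat.add_right_cancel_iff] at h
        refine ⟨y, ih.2 h, ?_⟩
        cases b <;> simp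

theorem strs_nodup (n : ℕ) : (strs n).Nodup := by
  induction n with
  | zero => simp [strs]
  | succ n ih =>
    rw [strs, List.nodup_flatMap]
    refine ⟨fun x _ => by simp, ?_⟩
    refine ih.imp ?_
    intro a b hab
    simp only [Function.onFun, List.disjoint_cons_left, List.mem_cons, List.not_mem_nil, or_false,
      not_or]
    refine ⟨⟨?_, ?_⟩, ⟨?_, ?_⟩, ?_⟩
    · intro h; exact hab (List.append_inj_left' h rfl)
    · intro h; exact hab (List.append_inj_left' h rfl)
    · intro h; exact hab (List.append_inj_left' h rfl)
    · intro h; exact hab (List.append_inj_left' h rfl)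
    · simp

theorem primrec_strs : Primrec strs := by
  have hstep : Primrec₂ fun (_ : ℕ) (L : List (List Bool)) =>
      L.flatMap fun x => [x ++ [false], x ++ [true]] := by
    refine Primrec.list_flatMap Primrec.snd ?_
    have h1 : Primrec fun z : (ℕ × List (List Bool)) × List Bool => z.2 ++ [false] :=
      Primrec.list_concat.comp Primrec.snd (Primrec.const false)
    have h2 : Primrec fun z : (ℕ × List (List Bool)) × List Bool => z.2 ++ [true] :=
      Primrec.list_concat.comp Primrec.snd (Primrec.const true)
    exact Primrec.list_cons.comp h1 (Primrec.list_cons.comp h2 (Primrec.const []))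
  refine (Primrec.nat_rec₁ [[]] hstep).of_eq fun n => ?_
  induction n with
  | zero => rfl
  | succ n ih =>
    show List.flatMap _ _ = _
    rw [strs, ih]

/-! ### The universal predicate is primitive recursive -/

theorem primrec_ev : Primrec fun z : ℕ × (ℕ × List Bool) => ev z.1 z.2.1 z.2.2 := by
  have hR : PrimrecRel fun (s : ℕ) (z : ℕ × (ℕ × List Bool)) =>
      (Code.evaln z.2.2.length (Denumerable.ofNat Code z.1)
        (encode (z.2.1, z.2.2.take s))).isSome = true := by
    have h1 : Primrec fun y : ℕ × (ℕ × (ℕ × List Bool)) => y.2.2.2.length :=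
      Primrec.list_length.comp (Primrec.snd.comp (Primrec.snd.comp Primrec.snd))
    have h2 : Primrec fun y : ℕ × (ℕ × (ℕ × List Bool)) => Denumerable.ofNat Code y.2.1 :=
      (Primrec.ofNat Code).comp (Primrec.fst.comp Primrec.snd)
    have h3 : Primrec fun y : ℕ × (ℕ × (ℕ × List Bool)) =>
        encode (y.2.2.1, y.2.2.2.take y.1) :=
      Primrec.encode.comp (Primrec.pair (Primrec.fst.comp (Primrec.snd.comp Primrec.snd))
        (Primrec.list_take.comp Primrec.fst (Primrec.snd.comp (Primrec.snd.comp Primrec.snd))))
    have h4 : Primrec fun y : ℕ × (ℕ × (ℕ × List Bool)) =>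
        (Code.evaln y.2.2.2.length (Denumerable.ofNat Code y.2.1)
          (encode (y.2.2.1, y.2.2.2.take y.1))).isSome :=
      Primrec.option_isSome.comp (Code.primrec_evaln.comp (Primrec.pair (Primrec.pair h1 h2) h3))
    exact Primrec.eq.comp h4 (Primrec.const true)
  have h5 := hR.exists_mem_list.comp (Primrec.list_range.comp (Primrec.succ.comp
    (Primrec.list_length.comp (Primrec.snd.comp (Primrec.snd (α := ℕ)
      (β := ℕ × List Bool)))))) Primrec.id
  refine h5.decide.of_eq ?_
  rintro ⟨e, x, σ⟩
  simp only [id, ev]
  rw [Bool.eq_iff_iff, List.any_eq_true]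
  simp

/-! ### Parameters -/

/-- The level lengths. -/
def mm (i : ℕ) : ℕ := i * (i + 1)

/-- The component used for the test with index `a`. -/
def kk (a : ℕ) : ℕ := mm (2 * a + 1) + 2 * a + 3

theorem primrec_mm : Primrec mm := Primrec.nat_mul.comp Primrec.id Primrec.succ

theorem primrec_kk : Primrec kk :=
  Primrec.nat_add.comp (Primrec.nat_add.comp (primrec_mm.comp Primrec.nat_double_succ)
    Primrec.nat_double) (Primrec.const 3)

/-- The string `x` is seen to extend a string that is enumerated (with oracle string `β`) by one
of the tests known from `ρ`. -/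
def Hit (ρ β x : List Bool) : Prop :=
  ∃ a ∈ List.range ρ.length, ρ[2 * a]? = some true ∧
    ∃ s ∈ List.range (x.length + 1), ev a (encode (kk a, x.take s)) β = true

instance (ρ β x : List Bool) : Decidable (Hit ρ β x) := by
  unfold Hit; infer_instance

/-- The number of strings of length `|β|` that extend `y` and are hit. -/
def hits (ρ β y : List Bool) : ℕ :=
  ((strs β.length).filter fun x => decide (x.take y.length = y ∧ Hit ρ β x)).length

/-- The string `y` is seen to be bad. -/
def Bad (ρ β y : List Bool) : Prop :=
  (2 ^ (ρ.length + 1) - 1) * 2 ^ β.length < hits ρ β y * 2 ^ (ρ.length + 1) * 2 ^ y.length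

instance (ρ β y : List Bool) : Decidable (Bad ρ β y) := by
  unfold Bad; infer_instance

/-- All alternatives smaller than the block of `ζ` after `ρ` are bad. -/
def LeftBad (β ζ ρ : List Bool) : Prop :=
  ∀ y ∈ strs (mm (ρ.length + 1)),
    ¬ ((y.take (mm ρ.length) = ζ.take (mm ρ.length) ∧
      encode y < encode (ζ.take (mm (ρ.length + 1)))) ∧ ¬ Bad ρ β y)

/-- All alternatives larger than the block of `ζ` after `ρ` are bad. -/
def RightBad (β ζ ρ : List Bool) : Prop :=
  ∀ y ∈ strs (mm (ρ.length + 1)),
    ¬ ((y.take (mm ρ.length) = ζ.take (mm ρ.length) ∧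
      encode (ζ.take (mm (ρ.length + 1))) < encode y) ∧ ¬ Bad ρ β y)

instance (β ζ ρ : List Bool) : Decidable (LeftBad β ζ ρ) := by
  unfold LeftBad; infer_instance

instance (β ζ ρ : List Bool) : Decidable (RightBad β ζ ρ) := by
  unfold RightBad; infer_instance

/-- One step of the decoder. -/
def decStep (β ζ ρ : List Bool) : List Bool :=
  if ζ.length < mm (ρ.length + 1) then ρ
  else if LeftBad β ζ ρ then ρ ++ [false]
  else if RightBad β ζ ρ then ρ ++ [true]
  else ρ

/-- The decoder. -/
def dec (β ζ : List Bool) : List Bool := (decStep β ζ)^[ζ.length] []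

/-- The entries at odd positions. -/
def oddPart (ρ : List Bool) : List Bool :=
  (List.range (ρ.length / 2)).map fun j => (ρ[2 * j + 1]?).getD false

/-- The decoding function on pairs of strings. -/
def decodeA (x : List (Bool × Bool)) : List Bool :=
  oddPart (dec (x.map Prod.fst) (x.map Prod.snd))

/-! ### Primitive recursiveness of the decoder -/

theorem primrecPred_hit : PrimrecPred fun z : List Bool × (List Bool × List Bool) =>
    Hit z.1 z.2.1 z.2.2 := by
  have hin : PrimrecRel fun (s : ℕ) (w : ℕ × (List Bool × List Bool)) =>
      ev w.1 (encode (kk w.1, w.2.2.take s)) w.2.1 = true := by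
    have h1 : Primrec fun y : ℕ × (ℕ × (List Bool × List Bool)) =>
        encode (kk y.2.1, y.2.2.2.take y.1) :=
      Primrec.encode.comp (Primrec.pair (primrec_kk.comp (Primrec.fst.comp Primrec.snd))
        (Primrec.list_take.comp Primrec.fst (Primrec.snd.comp (Primrec.snd.comp Primrec.snd))))
    have h2 : Primrec fun y : ℕ × (ℕ × (List Bool × List Bool)) =>
        ev y.2.1 (encode (kk y.2.1, y.2.2.2.take y.1)) y.2.2.1 :=
      primrec_ev.comp (Primrec.pair (Primrec.fst.comp Primrec.snd) (Primrec.pair h1
        (Primrec.fst.comp (Primrec.snd.comp Primrec.snd))))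
    exact Primrec.eq.comp h2 (Primrec.const true)
  have hout : PrimrecRel fun (a : ℕ) (z : List Bool × (List Bool × List Bool)) =>
      z.1[2 * a]? = some true ∧
        ∃ s ∈ List.range (z.2.2.length + 1), ev a (encode (kk a, z.2.2.take s)) z.2.1 = true := by
    have h1 : PrimrecPred fun y : ℕ × (List Bool × (List Bool × List Bool)) =>
        y.2.1[2 * y.1]? = some true :=
      Primrec.eq.comp (Primrec.list_getElem?.comp (Primrec.fst.comp Primrec.snd)
        (Primrec.nat_double.comp Primrec.fst)) (Primrec.const (some true))
    have h2 : PrimrecPred fun y : ℕ × (List Bool × (List Bool × List Bool)) =>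
        ∃ s ∈ List.range (y.2.2.2.length + 1),
          ev y.1 (encode (kk y.1, y.2.2.2.take s)) y.2.2.1 = true :=
      hin.exists_mem_list.comp (Primrec.list_range.comp (Primrec.succ.comp
        (Primrec.list_length.comp (Primrec.snd.comp (Primrec.snd.comp Primrec.snd)))))
        (Primrec.pair Primrec.fst (Primrec.snd.comp Primrec.snd))
    exact h1.and h2
  exact hout.exists_mem_list.comp (Primrec.list_range.comp (Primrec.list_length.comp Primrec.fst))
    Primrec.id

theorem primrec_hits : Primrec fun z : List Bool × (List Bool × List Bool) =>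
    hits z.1 z.2.1 z.2.2 := by
  have hR : PrimrecRel fun (x : List Bool) (z : List Bool × (List Bool × List Bool)) =>
      x.take z.2.2.length = z.2.2 ∧ Hit z.1 z.2.1 x := by
    have p : Primrec fun y : List Bool × (List Bool × (List Bool × List Bool)) => y.2.2.2 :=
      Primrec.snd.comp (Primrec.snd.comp Primrec.snd)
    have h1 : PrimrecPred fun y : List Bool × (List Bool × (List Bool × List Bool)) =>
        y.1.take y.2.2.2.length = y.2.2.2 :=
      Primrec.eq.comp (Primrec.list_take.comp (Primrec.list_length.comp p) Primrec.fst) p
    have h2 : PrimrecPred fun y : List Bool × (List Bool × (List Bool × List Bool)) =>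
        Hit y.2.1 y.2.2.1 y.1 :=
      primrecPred_hit.comp (Primrec.pair (Primrec.fst.comp Primrec.snd)
        (Primrec.pair (Primrec.fst.comp (Primrec.snd.comp Primrec.snd)) Primrec.fst))
    exact h1.and h2
  exact Primrec.list_length.comp (hR.listFilter.comp (primrec_strs.comp
    (Primrec.list_length.comp (Primrec.fst.comp Primrec.snd))) Primrec.id)

theorem primrecPred_bad : PrimrecPred fun z : List Bool × (List Bool × List Bool) =>
    Bad z.1 z.2.1 z.2.2 := by
  have two : Primrec fun _ : List Bool × (List Bool × List Bool) => 2 := Primrec.const 2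
  have hρ : Primrec fun z : List Bool × (List Bool × List Bool) => 2 ^ (z.1.length + 1) :=
    primrec_pow.comp two (Primrec.succ.comp (Primrec.list_length.comp Primrec.fst))
  refine Primrec.nat_lt.comp (Primrec.nat_mul.comp (Primrec.nat_sub.comp hρ (Primrec.const 1))
    (primrec_pow.comp two (Primrec.list_length.comp (Primrec.fst.comp Primrec.snd))))
    (Primrec.nat_mul.comp (Primrec.nat_mul.comp primrec_hits hρ)
      (primrec_pow.comp two (Primrec.list_length.comp (Primrec.snd.comp Primrec.snd))))

theorem primrecPred_leftBad : PrimrecPred fun z : (List Bool × List Bool) × List Bool =>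
    LeftBad z.1.1 z.1.2 z.2 := by
  have hR : PrimrecRel fun (y : List Bool) (z : (List Bool × List Bool) × List Bool) =>
      ¬ ((y.take (mm z.2.length) = z.1.2.take (mm z.2.length) ∧
      encode y < encode (z.1.2.take (mm (z.2.length + 1)))) ∧ ¬ Bad z.2 z.1.1 y) := by
    have pρ : Primrec fun w : List Bool × ((List Bool × List Bool) × List Bool) => w.2.2 :=
      Primrec.snd.comp Primrec.snd
    have pζ : Primrec fun w : List Bool × ((List Bool × List Bool) × List Bool) => w.2.1.2 :=
      Primrec.snd.comp (Primrec.fst.comp Primrec.snd)
    have pβ : Primrec fun w : List Bool × ((List Bool × List Bool) × List Bool) => w.2.1.1 :=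
      Primrec.fst.comp (Primrec.fst.comp Primrec.snd)
    have pm := primrec_mm.comp (Primrec.list_length.comp pρ)
    have pm' := primrec_mm.comp (Primrec.succ.comp (Primrec.list_length.comp pρ))
    have h1 := Primrec.eq.comp (Primrec.list_take.comp pm Primrec.fst)
      (Primrec.list_take.comp pm pζ)
    have h2 := Primrec.nat_lt.comp (Primrec.encode.comp Primrec.fst)
      (Primrec.encode.comp (Primrec.list_take.comp pm' pζ))
    have h3 := primrecPred_bad.comp (Primrec.pair pρ (Primrec.pair pβ Primrec.fst))
    exact ((h1.and h2).and h3.not).not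
  exact hR.forall_mem_list.comp (primrec_strs.comp (primrec_mm.comp (Primrec.succ.comp
    (Primrec.list_length.comp Primrec.snd)))) Primrec.id

theorem primrecPred_rightBad : PrimrecPred fun z : (List Bool × List Bool) × List Bool =>
    RightBad z.1.1 z.1.2 z.2 := by
  have hR : PrimrecRel fun (y : List Bool) (z : (List Bool × List Bool) × List Bool) =>
      ¬ ((y.take (mm z.2.length) = z.1.2.take (mm z.2.length) ∧
      encode (z.1.2.take (mm (z.2.length + 1))) < encode y) ∧ ¬ Bad z.2 z.1.1 y) := by
    have pρ : Primrec fun w : List Bool × ((List Bool × List Bool) × List Bool) => w.2.2 :=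
      Primrec.snd.comp Primrec.snd
    have pζ : Primrec fun w : List Bool × ((List Bool × List Bool) × List Bool) => w.2.1.2 :=
      Primrec.snd.comp (Primrec.fst.comp Primrec.snd)
    have pβ : Primrec fun w : List Bool × ((List Bool × List Bool) × List Bool) => w.2.1.1 :=
      Primrec.fst.comp (Primrec.fst.comp Primrec.snd)
    have pm := primrec_mm.comp (Primrec.list_length.comp pρ)
    have pm' := primrec_mm.comp (Primrec.succ.comp (Primrec.list_length.comp pρ))
    have h1 := Primrec.eq.comp (Primrec.list_take.comp pm Primrec.fst)
      (Primrec.list_take.comp pm pζ)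
    have h2 := Primrec.nat_lt.comp (Primrec.encode.comp (Primrec.list_take.comp pm' pζ))
      (Primrec.encode.comp Primrec.fst)
    have h3 := primrecPred_bad.comp (Primrec.pair pρ (Primrec.pair pβ Primrec.fst))
    exact ((h1.and h2).and h3.not).not
  exact hR.forall_mem_list.comp (primrec_strs.comp (primrec_mm.comp (Primrec.succ.comp
    (Primrec.list_length.comp Primrec.snd)))) Primrec.id

theorem primrec_decStep : Primrec fun z : (List Bool × List Bool) × List Bool =>
    decStep z.1.1 z.1.2 z.2 := by
  refine Primrec.ite (Primrec.nat_lt.comp (Primrec.list_length.comp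
    (Primrec.snd.comp Primrec.fst)) (primrec_mm.comp (Primrec.succ.comp
      (Primrec.list_length.comp Primrec.snd)))) Primrec.snd ?_
  refine Primrec.ite primrecPred_leftBad (Primrec.list_concat.comp Primrec.snd
    (Primrec.const false)) ?_
  exact Primrec.ite primrecPred_rightBad (Primrec.list_concat.comp Primrec.snd
    (Primrec.const true)) Primrec.snd

theorem primrec_decodeA : Primrec decodeA := by
  have h1 : Primrec fun x : List (Bool × Bool) => x.map Prod.fst :=
    Primrec.list_map Primrec.id (Primrec.fst.comp Primrec.snd).to₂
  have h2 : Primrec fun x : List (Bool × Bool) => x.map Prod.snd :=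
    Primrec.list_map Primrec.id (Primrec.snd.comp Primrec.snd).to₂
  have h3 : Primrec fun x : List (Bool × Bool) => dec (x.map Prod.fst) (x.map Prod.snd) := by
    have hs : Primrec₂ fun (x : List (Bool × Bool)) (ρ : List Bool) =>
        decStep (x.map Prod.fst) (x.map Prod.snd) ρ :=
      primrec_decStep.comp (Primrec.pair (Primrec.pair (h1.comp Primrec.fst)
        (h2.comp Primrec.fst)) Primrec.snd)
    exact Primrec.nat_iterate (Primrec.list_length.comp h2) (Primrec.const []) hs
  have h4 : Primrec oddPart := by
    refine Primrec.list_map (Primrec.list_range.comp (Primrec.nat_div.comp Primrec.list_length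
      (Primrec.const 2))) ?_
    exact Primrec.option_getD.comp (Primrec.list_getElem?.comp Primrec.fst
      (Primrec.nat_double_succ.comp Primrec.snd)) (Primrec.const false)
  exact h4.comp h3

end Pool.Agent.AlgRandom
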