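import Mathlib
import Pool.Agent.AlgRandom.Decoder
import Pool.Agent.AlgRandom.CylMeasure

/-!
# Coding into random sequences

For all `A` and `B` there is a `B`-random sequence `Z` such that `B ⊕ Z` computes `A` (Kucera and
Gacs, relativised).  In order to avoid a universal test, the information which tests are genuine
is coded into `Z` together with `A`.
-/

namespace Pool.Agent.AlgRandom

open Encodable MeasureTheory Set
open scoped ENNReal

/-- Real valued uniform measure. -/
noncomputable abbrev mu (S : Set (ℕ → Bool)) : ℝ := lebesgue.real S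

theorem mu_cyl (σ : List Bool) : mu (cyl σ) = (2 : ℝ)⁻¹ ^ σ.length := by
  rw [mu, Measure.real, lebesgue_cyl]
  simp

theorem mu_le_of_le {S : Set (ℕ → Bool)} {k : ℕ} (h : lebesgue S ≤ (2 : ℝ≥0∞)⁻¹ ^ k) :
    mu S ≤ (2 : ℝ)⁻¹ ^ k := by
  rw [mu, Measure.real]
  have := ENNReal.toReal_mono (by simp) h
  simpa using this

section Averaging

/-- Extensions of `u` of length `|u| + l`, as a finite set. -/
def exts (u : List Bool) (n : ℕ) : Finset (List Bool) :=
  ((strs n).filter fun y => decide (y.take u.length = u)).toFinset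

theorem mem_exts {u y : List Bool} {n : ℕ} : y ∈ exts u n ↔ y.length = n ∧ y.take u.length = u := by
  simp [exts, mem_strs]

theorem cyl_eq_iUnion_exts (u : List Bool) {n : ℕ} (h : u.length ≤ n) :
    cyl u = ⋃ y ∈ exts u n, cyl y := by
  ext X
  simp only [mem_iUnion, exists_prop]
  constructor
  · intro hX
    refine ⟨res X n, mem_exts.2 ⟨by simp, ?_⟩, res_mem_cyl X n⟩
    rw [res_take X h]
    exact mem_cyl.1 hX
  · rintro ⟨y, hy, hX⟩
    obtain ⟨h1, h2⟩ := mem_exts.1 hy
    apply cyl_mono _ hX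
    rw [List.prefix_iff_eq_take]
    exact h2.symm

theorem cyl_disjoint_of_length {y z : List Bool} (h : y.length = z.length) (hne : y ≠ z) :
    Disjoint (cyl y) (cyl z) :=
  cyl_disjoint (fun hp => hne (hp.eq_of_length h)) (fun hp => hne (hp.eq_of_length h.symm).symm)

theorem mu_inter_cyl (V : Set (ℕ → Bool)) (hV : MeasurableSet V) (u : List Bool) {n : ℕ}
    (h : u.length ≤ n) : mu (V ∩ cyl u) = ∑ y ∈ exts u n, mu (V ∩ cyl y) := by
  rw [cyl_eq_iUnion_exts u h, inter_iUnion₂]
  apply measureReal_biUnion_finset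
  · intro y hy z hz hyz
    have h1 := (mem_exts.1 hy).1
    have h2 := (mem_exts.1 hz).1
    exact ((cyl_disjoint_of_length (h1.trans h2.symm) hyz).mono inter_subset_right
      inter_subset_right)
  · intro y _
    exact hV.inter (measurableSet_cyl y)
  · intro y _
    exact measure_ne_top _ _

theorem card_exts (u : List Bool) {n : ℕ} (h : u.length ≤ n) :
    ((exts u n).card : ℝ) * (2 : ℝ)⁻¹ ^ n = (2 : ℝ)⁻¹ ^ u.length := by
  have h1 := mu_inter_cyl univ MeasurableSet.univ u h
  simp only [univ_inter, mu_cyl] at h1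
  rw [h1]
  have h2 : ∀ y ∈ exts u n, (2 : ℝ)⁻¹ ^ y.length = (2 : ℝ)⁻¹ ^ n := by
    intro y hy
    rw [(mem_exts.1 hy).1]
  rw [Finset.sum_congr rfl h2, Finset.sum_const, nsmul_eq_mul]

/-- The averaging argument: there are at least two good extensions. -/
theorem two_good (V : Set (ℕ → Bool)) (hV : MeasurableSet V) (u : List Bool) {n : ℕ}
    (h : u.length < n) {v v' : ℝ} (hv0 : 0 < v)
    (hV' : mu (V ∩ cyl u) ≤ v' * (2 : ℝ)⁻¹ ^ u.length)
    (hv : v' ≤ (1 - (2 : ℝ)⁻¹ ^ (n - u.length)) * v) :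
    ∃ y ∈ exts u n, ∃ z ∈ exts u n, y ≠ z ∧ mu (V ∩ cyl y) ≤ v * (2 : ℝ)⁻¹ ^ n ∧
      mu (V ∩ cyl z) ≤ v * (2 : ℝ)⁻¹ ^ n := by
  classical
  by_contra hcon
  push Not at hcon
  set G := (exts u n).filter (fun y => mu (V ∩ cyl y) ≤ v * (2 : ℝ)⁻¹ ^ n) with hG
  have hGcard : G.card ≤ 1 := by
    rw [Finset.card_le_one]
    intro y hy z hz
    rw [hG, Finset.mem_filter] at hy hz
    by_contra hne
    exact absurd hz.2 (not_le.2 (hcon y hy.1 z hz.1 hne hy.2))
  set Bd := (exts u n).filter (fun y => ¬ mu (V ∩ cyl y) ≤ v * (2 : ℝ)⁻¹ ^ n) with hB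
  have hcard : G.card + Bd.card = (exts u n).card := Finset.card_filter_add_card_filter_not _
  have hcr : ((exts u n).card : ℝ) * (2 : ℝ)⁻¹ ^ n = (2 : ℝ)⁻¹ ^ u.length := card_exts u h.le
  have h2n : (0 : ℝ) < (2 : ℝ)⁻¹ ^ n := by positivity
  have hpow : (2 : ℝ)⁻¹ ^ n = (2 : ℝ)⁻¹ ^ (n - u.length) * (2 : ℝ)⁻¹ ^ u.length := by
    rw [← pow_add]; congr 1; omega
  -- the total number of extensions is at least two
  have hge2 : (2 : ℝ) ≤ (exts u n).card := by
    have h1 : (2 : ℝ)⁻¹ ^ (n - u.length) ≤ 2⁻¹ := by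
      calc (2 : ℝ)⁻¹ ^ (n - u.length) ≤ (2 : ℝ)⁻¹ ^ 1 :=
            pow_le_pow_of_le_one (by norm_num) (by norm_num) (by omega)
        _ = 2⁻¹ := pow_one _
    have hpu : (0 : ℝ) < (2 : ℝ)⁻¹ ^ u.length := by positivity
    rw [hpow] at hcr
    have h3 : ((exts u n).card : ℝ) * (2 : ℝ)⁻¹ ^ (n - u.length) = 1 := by
      have : (((exts u n).card : ℝ) * (2 : ℝ)⁻¹ ^ (n - u.length)) * (2 : ℝ)⁻¹ ^ u.length =
          1 * (2 : ℝ)⁻¹ ^ u.length := by rw [one_mul, mul_assoc]; exact hcr
      exact mul_right_cancel₀ hpu.ne' this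
    nlinarith
  have hGr : (G.card : ℝ) ≤ 1 := by exact_mod_cast hGcard
  have hcardr : (G.card : ℝ) + Bd.card = (exts u n).card := by exact_mod_cast hcard
  have hBpos : 0 < Bd.card := by
    have : (0 : ℝ) < Bd.card := by linarith
    exact_mod_cast this
  have hsum : (Bd.card : ℝ) * (v * (2 : ℝ)⁻¹ ^ n) < ∑ y ∈ Bd, mu (V ∩ cyl y) := by
    rw [← nsmul_eq_mul, ← Finset.sum_const]
    apply Finset.sum_lt_sum_of_nonempty (Finset.card_pos.1 hBpos)
    intro y hy
    rw [hB, Finset.mem_filter] at hy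
    exact not_le.1 hy.2
  have hle : ∑ y ∈ Bd, mu (V ∩ cyl y) ≤ mu (V ∩ cyl u) := by
    rw [mu_inter_cyl V hV u h.le]
    apply Finset.sum_le_sum_of_subset_of_nonneg (Finset.filter_subset _ _)
    intro y _ _
    exact measureReal_nonneg
  have hfin : (1 - (2 : ℝ)⁻¹ ^ (n - u.length)) * v * (2 : ℝ)⁻¹ ^ u.length ≤
      (Bd.card : ℝ) * (v * (2 : ℝ)⁻¹ ^ n) := by
    have e1 : (Bd.card : ℝ) ≥ (exts u n).card - 1 := by linarith
    calc (1 - (2 : ℝ)⁻¹ ^ (n - u.length)) * v * (2 : ℝ)⁻¹ ^ u.length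
        = v * ((2 : ℝ)⁻¹ ^ u.length - (2 : ℝ)⁻¹ ^ (n - u.length) * (2 : ℝ)⁻¹ ^ u.length) := by ring
      _ = v * (((exts u n).card : ℝ) * (2 : ℝ)⁻¹ ^ n - (2 : ℝ)⁻¹ ^ n) := by rw [hcr, ← hpow]
      _ = ((exts u n).card - 1) * (v * (2 : ℝ)⁻¹ ^ n) := by ring
      _ ≤ (Bd.card : ℝ) * (v * (2 : ℝ)⁻¹ ^ n) := by
          apply mul_le_mul_of_nonneg_right e1.le (by positivity)
  have hpu : (0 : ℝ) < (2 : ℝ)⁻¹ ^ u.length := by positivity
  have : v' * (2 : ℝ)⁻¹ ^ u.length ≤ (1 - (2 : ℝ)⁻¹ ^ (n - u.length)) * v * (2 : ℝ)⁻¹ ^ u.length :=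
    mul_le_mul_of_nonneg_right hv hpu.le
  linarith

end Averaging

section Semantics

variable (B C : ℕ → Bool)

/-- The open set enumerated by component `kk a` of the test with index `a`, relative to `B`. -/
def testSet (a : ℕ) : Set (ℕ → Bool) :=
  openOf {σ | ∃ n, ev a (encode (kk a, σ)) (res B n) = true}

/-- The union of the tests known from `C ↾ i`. -/
def known (i : ℕ) : Set (ℕ → Bool) := ⋃ a ∈ {a | 2 * a < i ∧ C (2 * a) = true}, testSet B a

/-- The stage `N` approximation of `known`. -/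
def knownN (i N : ℕ) : Set (ℕ → Bool) := {X | Hit (res C i) (res B N) (res X N)}

variable {B C}

theorem res_getElem?_eq_some_true {i j : ℕ} : (res C i)[j]? = some true ↔ j < i ∧ C j = true := by
  constructor
  · intro h
    have hj : j < i := by
      by_contra hc
      rw [List.getElem?_eq_none (by simpa using hc)] at h
      exact absurd h (by simp)
    refine ⟨hj, ?_⟩
    rw [res_getElem? C hj] at h
    exact Option.some.inj h
  · rintro ⟨h1, h2⟩
    rw [res_getElem? C h1, h2]

theorem mem_knownN_iff {i N : ℕ} {X : ℕ → Bool} : X ∈ knownN B C i N ↔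
    ∃ a, (2 * a < i ∧ C (2 * a) = true) ∧
      ∃ s, s ≤ N ∧ ev a (encode (kk a, res X s)) (res B N) = true := by
  unfold knownN Hit
  simp only [mem_ofPred_eq, List.mem_range, res_length, Nat.lt_succ_iff]
  constructor
  · rintro ⟨a, _, h1, s, hs, h2⟩
    rw [res_take X hs] at h2
    exact ⟨a, res_getElem?_eq_some_true.1 h1, s, hs, h2⟩
  · rintro ⟨a, h1, s, hs, h2⟩
    refine ⟨a, by omega, res_getElem?_eq_some_true.2 h1, s, hs, ?_⟩
    rw [res_take X hs]
    exact h2

theorem knownN_mono (i : ℕ) : Monotone (knownN B C i) := by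
  intro N N' hN X hX
  rw [mem_knownN_iff] at hX ⊢
  obtain ⟨a, h1, s, hs, h2⟩ := hX
  exact ⟨a, h1, s, hs.trans hN, ev_mono (res_mono B hN) h2⟩

theorem known_eq_iUnion (i : ℕ) : known B C i = ⋃ N, knownN B C i N := by
  ext X
  simp only [known, testSet, openOf, mem_iUnion, exists_prop, mem_ofPred_eq]
  constructor
  · rintro ⟨a, h1, σ, ⟨n, hn⟩, hX⟩
    refine ⟨max n σ.length, mem_knownN_iff.2 ⟨a, h1, σ.length, le_max_right _ _, ?_⟩⟩
    rw [mem_cyl.1 hX]
    exact ev_mono (res_mono B (le_max_left _ _)) hn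
  · rintro ⟨N, hN⟩
    obtain ⟨a, h1, s, hs, h2⟩ := mem_knownN_iff.1 hN
    exact ⟨a, h1, res X s, ⟨N, h2⟩, res_mem_cyl X s⟩

theorem measurableSet_known (i : ℕ) : MeasurableSet (known B C i) :=
  MeasurableSet.biUnion (Set.to_countable _) fun _ _ => measurableSet_openOf _

theorem mu_knownN {i N : ℕ} {y : List Bool} (hy : y.length ≤ N) :
    mu (knownN B C i N ∩ cyl y) = hits (res C i) (res B N) y * (2 : ℝ)⁻¹ ^ N := by
  set F := ((strs N).filter fun x =>
    decide (x.take y.length = y ∧ Hit (res C i) (res B N) x)).toFinset with hF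
  have hmem : ∀ x, x ∈ F ↔ x.length = N ∧ x.take y.length = y ∧
      Hit (res C i) (res B N) x := by
    intro x
    simp [hF, mem_strs]
  have hset : knownN B C i N ∩ cyl y = ⋃ x ∈ F, cyl x := by
    ext X
    simp only [mem_inter_iff, mem_iUnion, exists_prop]
    constructor
    · rintro ⟨h1, h2⟩
      refine ⟨res X N, (hmem _).2 ⟨by simp, ?_, h1⟩, res_mem_cyl X N⟩
      rw [res_take X hy]
      exact mem_cyl.1 h2
    · rintro ⟨x, hx, hX⟩
      obtain ⟨h1, h2, h3⟩ := (hmem x).1 hx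
      have hxX : res X N = x := by rw [← h1]; exact mem_cyl.1 hX
      refine ⟨?_, ?_⟩
      · show Hit (res C i) (res B N) (res X N)
        rw [hxX]; exact h3
      · apply cyl_mono _ hX
        rw [List.prefix_iff_eq_take]
        exact h2.symm
  have hcard : F.card = hits (res C i) (res B N) y := by
    unfold hits
    rw [res_length, hF, List.toFinset_card_of_nodup ((strs_nodup N).filter _)]
  rw [hset, mu, measureReal_biUnion_finset]
  · have h2 : ∀ x ∈ F, lebesgue.real (cyl x) = (2 : ℝ)⁻¹ ^ N := by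
      intro x hx
      rw [← ((hmem x).1 hx).1]
      exact mu_cyl x
    rw [Finset.sum_congr rfl h2, Finset.sum_const, nsmul_eq_mul, hcard]
  · intro x hx z hz hxz
    exact cyl_disjoint_of_length (((hmem x).1 hx).1.trans ((hmem z).1 hz).1.symm) hxz
  · intro x _
    exact measurableSet_cyl x

/-- The threshold at level `i`. -/
noncomputable def vv (i : ℕ) : ℝ := 1 - (2 : ℝ)⁻¹ ^ (i + 1)

theorem vv_pos (i : ℕ) : 0 < vv i := by
  unfold vv
  have : (2 : ℝ)⁻¹ ^ (i + 1) ≤ (2 : ℝ)⁻¹ ^ 1 :=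
    pow_le_pow_of_le_one (by norm_num) (by norm_num) (by omega)
  norm_num at this ⊢
  linarith

theorem vv_lt_one (i : ℕ) : vv i < 1 := by
  unfold vv
  have : (0 : ℝ) < (2 : ℝ)⁻¹ ^ (i + 1) := by positivity
  linarith

theorem bad_iff {i N : ℕ} {y : List Bool} : Bad (res C i) (res B N) y ↔
    y.length ≤ N ∧ vv i * (2 : ℝ)⁻¹ ^ y.length < mu (knownN B C i N ∩ cyl y) := by
  have hlen : Bad (res C i) (res B N) y → y.length ≤ N := by
    intro h
    by_contra hc
    push Not at hc
    have h0 : hits (res C i) (res B N) y = 0 := by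
      unfold hits
      rw [List.length_eq_zero_iff, List.filter_eq_nil_iff]
      intro x hx
      rw [mem_strs, res_length] at hx
      simp only [decide_eq_true_eq, not_and]
      intro hxy
      have := congrArg List.length hxy
      rw [List.length_take] at this
      omega
    unfold Bad at h
    rw [h0] at h
    simp at h
  have key : y.length ≤ N → (Bad (res C i) (res B N) y ↔
      vv i * (2 : ℝ)⁻¹ ^ y.length < mu (knownN B C i N ∩ cyl y)) := by
    intro hy
    rw [mu_knownN hy]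
    unfold Bad vv
    rw [res_length, res_length]
    set H := hits (res C i) (res B N) y
    have p1 : (0 : ℝ) < 2 ^ (i + 1) := by positivity
    have p2 : (0 : ℝ) < 2 ^ N := by positivity
    have p3 : (0 : ℝ) < 2 ^ y.length := by positivity
    have hone : 1 ≤ 2 ^ (i + 1) := Nat.one_le_two_pow
    have e1 : ((2 ^ (i + 1) - 1) * 2 ^ N < H * 2 ^ (i + 1) * 2 ^ y.length) ↔
        (((2 : ℝ) ^ (i + 1) - 1) * 2 ^ N < (H : ℝ) * 2 ^ (i + 1) * 2 ^ y.length) := by
      rw [← Nat.cast_lt (α := ℝ)]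
      push_cast [Nat.cast_sub hone]
      exact Iff.rfl
    rw [e1, inv_pow, inv_pow, inv_pow]
    have e2 : (1 - ((2 : ℝ) ^ (i + 1))⁻¹) * ((2 : ℝ) ^ y.length)⁻¹ =
        (((2 : ℝ) ^ (i + 1) - 1) * 2 ^ N) / (2 ^ (i + 1) * 2 ^ y.length * 2 ^ N) := by
      field_simp
    have e3 : (H : ℝ) * ((2 : ℝ) ^ N)⁻¹ =
        ((H : ℝ) * 2 ^ (i + 1) * 2 ^ y.length) / (2 ^ (i + 1) * 2 ^ y.length * 2 ^ N) := by
      field_simp
    rw [e2, e3, div_lt_div_iff_of_pos_right (by positivity)]
  constructor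
  · intro h
    exact ⟨hlen h, (key (hlen h)).1 h⟩
  · rintro ⟨h1, h2⟩
    exact (key h1).2 h2

theorem Bad.mono' {i N N' : ℕ} {y : List Bool} (h : Bad (res C i) (res B N) y) (hN : N ≤ N') :
    Bad (res C i) (res B N') y := by
  rw [bad_iff] at h ⊢
  refine ⟨h.1.trans hN, h.2.trans_le ?_⟩
  exact measureReal_mono (inter_subset_inter_left _ (knownN_mono i hN))

theorem exists_bad_iff {i : ℕ} {y : List Bool} : (∃ N, Bad (res C i) (res B N) y) ↔
    vv i * (2 : ℝ)⁻¹ ^ y.length < mu (known B C i ∩ cyl y) := by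
  constructor
  · rintro ⟨N, hN⟩
    rw [bad_iff] at hN
    refine hN.2.trans_le (measureReal_mono (inter_subset_inter_left _ ?_))
    rw [known_eq_iUnion]
    exact subset_iUnion _ N
  · intro h
    by_contra hcon
    push Not at hcon
    have hc0 : 0 ≤ vv i * (2 : ℝ)⁻¹ ^ y.length := mul_nonneg (vv_pos i).le (by positivity)
    have h1 : ∀ N, lebesgue (knownN B C i N ∩ cyl y) ≤
        ENNReal.ofReal (vv i * (2 : ℝ)⁻¹ ^ y.length) := by
      intro N
      have h2 : lebesgue (knownN B C i (max N y.length) ∩ cyl y) ≤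
          ENNReal.ofReal (vv i * (2 : ℝ)⁻¹ ^ y.length) := by
        have h3 := hcon (max N y.length)
        rw [bad_iff] at h3
        push Not at h3
        have h4 := h3 (le_max_right _ _)
        rw [mu, Measure.real] at h4
        exact (ENNReal.le_ofReal_iff_toReal_le (measure_ne_top _ _) hc0).2 h4
      refine le_trans (measure_mono (inter_subset_inter_left _ ?_)) h2
      exact knownN_mono i (le_max_left _ _)
    have h2 : lebesgue (known B C i ∩ cyl y) ≤
        ENNReal.ofReal (vv i * (2 : ℝ)⁻¹ ^ y.length) := by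
      rw [known_eq_iUnion, iUnion_inter, Monotone.measure_iUnion]
      · exact iSup_le h1
      · intro N N' hN
        exact inter_subset_inter_left _ (knownN_mono i hN)
    have h3 := (ENNReal.le_ofReal_iff_toReal_le (measure_ne_top _ _) hc0).1 h2
    rw [mu, Measure.real] at h
    linarith

end Semantics

section Path

variable (B C : ℕ → Bool)

/-- A block `y` is good at level `i`. -/
def GoodBlock (i : ℕ) (y : List Bool) : Prop :=
  mu (known B C i ∩ cyl y) ≤ vv i * (2 : ℝ)⁻¹ ^ y.length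

theorem not_goodBlock_iff {i : ℕ} {y : List Bool} :
    ¬ GoodBlock B C i y ↔ ∃ N, Bad (res C i) (res B N) y := by
  rw [exists_bad_iff, GoodBlock, not_le]

/-- The bound before the choice of the next block. -/
noncomputable def ww : ℕ → ℝ
  | 0 => 0
  | i + 1 => vv i + (2 : ℝ)⁻¹ ^ (i + 3)

theorem ww_le (i : ℕ) : ww i ≤ (1 - (2 : ℝ)⁻¹ ^ (mm (i + 1) - mm i)) * vv i := by
  have hmm : mm (i + 1) - mm i = 2 * i + 2 := by
    unfold mm
    have : (i + 1) * (i + 1 + 1) = i * (i + 1) + (2 * i + 2) := by ring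
    omega
  rw [hmm]
  rcases i with _ | i
  · simp only [ww, vv]
    norm_num
  · simp only [ww, vv]
    have h1 : (2 : ℝ)⁻¹ ^ (2 * (i + 1) + 2) ≤ (2 : ℝ)⁻¹ ^ (i + 3) :=
      pow_le_pow_of_le_one (by norm_num) (by norm_num) (by omega)
    have h2 : (2 : ℝ)⁻¹ ^ (i + 1) = 4 * (2 : ℝ)⁻¹ ^ (i + 3) := by
      rw [pow_succ, pow_add]; ring
    have h3 : (2 : ℝ)⁻¹ ^ (i + 1 + 1) = 2 * (2 : ℝ)⁻¹ ^ (i + 3) := by
      rw [pow_succ, pow_add]; ring
    have h4 : (0 : ℝ) < (2 : ℝ)⁻¹ ^ (2 * (i + 1) + 2) := by positivity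
    have h5 : (0 : ℝ) < (2 : ℝ)⁻¹ ^ (i + 3) := by positivity
    rw [h3, h2]
    nlinarith

/-- The invariant of the construction. -/
def Inv (i : ℕ) (ζ : List Bool) : Prop :=
  ζ.length = mm i ∧ mu (known B C i ∩ cyl ζ) ≤ ww i * (2 : ℝ)⁻¹ ^ mm i

variable {B C}

theorem inv_zero : Inv B C 0 [] := by
  refine ⟨by simp [mm], ?_⟩
  have : known B C 0 = ∅ := by simp [known]
  rw [this]
  simp [ww]

/-- The choice of the next block. -/
def NextBlock (B C : ℕ → Bool) (i : ℕ) (ζ w : List Bool) : Prop :=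
  w ∈ exts ζ (mm (i + 1)) ∧ GoodBlock B C i w ∧
    (∃ y ∈ exts ζ (mm (i + 1)), y ≠ w ∧ GoodBlock B C i y) ∧
    (C i = false → ∀ y ∈ exts ζ (mm (i + 1)), encode y < encode w → ¬ GoodBlock B C i y) ∧
    (C i = true → ∀ y ∈ exts ζ (mm (i + 1)), encode w < encode y → ¬ GoodBlock B C i y)

theorem mm_lt (i : ℕ) : mm i < mm (i + 1) := by
  unfold mm
  nlinarith

theorem exists_next {i : ℕ} {ζ : List Bool} (h : Inv B C i ζ) : ∃ w, NextBlock B C i ζ w := by
  classical
  obtain ⟨h1, h2⟩ := h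
  have hlt : ζ.length < mm (i + 1) := by rw [h1]; exact mm_lt i
  obtain ⟨y, hy, z, hz, hyz, gy, gz⟩ := two_good (known B C i) (measurableSet_known i) ζ hlt
    (vv_pos i) (v' := ww i) (by rw [h1]; exact h2) (by rw [h1]; exact ww_le i)
  have gb : ∀ y ∈ exts ζ (mm (i + 1)),
      (GoodBlock B C i y ↔ mu (known B C i ∩ cyl y) ≤ vv i * (2 : ℝ)⁻¹ ^ mm (i + 1)) := by
    intro y hy
    rw [GoodBlock, (mem_exts.1 hy).1]
  set S := (exts ζ (mm (i + 1))).filter (fun y => GoodBlock B C i y) with hS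
  have hyS : y ∈ S := Finset.mem_filter.2 ⟨hy, (gb y hy).2 gy⟩
  have hzS : z ∈ S := Finset.mem_filter.2 ⟨hz, (gb z hz).2 gz⟩
  have hother : ∀ w ∈ S, ∃ y ∈ exts ζ (mm (i + 1)), y ≠ w ∧ GoodBlock B C i y := by
    intro w _
    by_cases hyw : y = w
    · exact ⟨z, hz, fun h => hyz (hyw.trans h.symm), (gb z hz).2 gz⟩
    · exact ⟨y, hy, hyw, (gb y hy).2 gy⟩
  rcases hC : C i with _ | _
  · obtain ⟨w, hw, hmin⟩ := S.exists_min_image (fun y => encode y) ⟨y, hyS⟩
    have hw' := Finset.mem_filter.1 hw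
    refine ⟨w, hw'.1, hw'.2, hother w hw, fun _ x hx hlt hg => ?_, fun h => ?_⟩
    · exact absurd (hmin x (Finset.mem_filter.2 ⟨hx, hg⟩)) (not_le.2 hlt)
    · rw [hC] at h; exact absurd h (by simp)
  · obtain ⟨w, hw, hmax⟩ := S.exists_max_image (fun y => encode y) ⟨y, hyS⟩
    have hw' := Finset.mem_filter.1 hw
    refine ⟨w, hw'.1, hw'.2, hother w hw, fun h => ?_, fun _ x hx hlt hg => ?_⟩
    · rw [hC] at h; exact absurd h (by simp)
    · exact absurd (hmax x (Finset.mem_filter.2 ⟨hx, hg⟩)) (not_le.2 hlt)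

theorem known_succ_subset (i : ℕ) : known B C (i + 1) ⊆ known B C i ∪
    ⋃ a ∈ {a | 2 * a = i ∧ C (2 * a) = true}, testSet B a := by
  intro X hX
  simp only [known, mem_iUnion, exists_prop, mem_ofPred_eq, mem_union] at hX ⊢
  obtain ⟨a, ⟨h1, h2⟩, h3⟩ := hX
  rcases Nat.lt_succ_iff_lt_or_eq.1 h1 with h | h
  · exact Or.inl ⟨a, ⟨h, h2⟩, h3⟩
  · exact Or.inr ⟨a, ⟨h, h2⟩, h3⟩

theorem inv_next (hC : ∀ a, C (2 * a) = true → lebesgue (testSet B a) ≤ (2 : ℝ≥0∞)⁻¹ ^ kk a)
    {i : ℕ} {ζ w : List Bool} (h : NextBlock B C i ζ w) : Inv B C (i + 1) w := by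
  obtain ⟨hw, hg, -⟩ := h
  have hlen := (mem_exts.1 hw).1
  refine ⟨hlen, ?_⟩
  have hnew : mu (⋃ a ∈ {a | 2 * a = i ∧ C (2 * a) = true}, testSet B a) ≤
      (2 : ℝ)⁻¹ ^ (i + 3) * (2 : ℝ)⁻¹ ^ mm (i + 1) := by
    by_cases hi : ∃ a, 2 * a = i ∧ C (2 * a) = true
    · obtain ⟨a, ha, hCa⟩ := hi
      have hset : (⋃ a ∈ {a | 2 * a = i ∧ C (2 * a) = true}, testSet B a) ⊆ testSet B a := by
        intro X hX
        simp only [mem_iUnion, exists_prop, mem_ofPred_eq] at hX
        obtain ⟨b, ⟨hb, _⟩, hX⟩ := hX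
        obtain rfl : b = a := by omega
        exact hX
      refine (measureReal_mono hset).trans ((mu_le_of_le (hC a hCa)).trans ?_)
      have : kk a = (i + 3) + mm (i + 1) := by
        unfold kk; rw [ha]; ring
      rw [this, pow_add]
    · have hset : (⋃ a ∈ {a | 2 * a = i ∧ C (2 * a) = true}, testSet B a) = ∅ := by
        apply Set.eq_empty_of_forall_notMem
        intro X hX
        simp only [mem_iUnion, exists_prop, mem_ofPred_eq] at hX
        obtain ⟨b, hb, _⟩ := hX
        exact hi ⟨b, hb⟩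
      rw [hset]
      simp only [mu, measureReal_empty]
      positivity
  calc mu (known B C (i + 1) ∩ cyl w)
      ≤ mu ((known B C i ∩ cyl w) ∪ ⋃ a ∈ {a | 2 * a = i ∧ C (2 * a) = true}, testSet B a) := by
        refine measureReal_mono ?_ (measure_ne_top _ _)
        intro X hX
        rcases known_succ_subset i hX.1 with h | h
        · exact Or.inl ⟨h, hX.2⟩
        · exact Or.inr h
    _ ≤ mu (known B C i ∩ cyl w) + mu (⋃ a ∈ {a | 2 * a = i ∧ C (2 * a) = true}, testSet B a) :=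
        measureReal_union_le _ _
    _ ≤ vv i * (2 : ℝ)⁻¹ ^ mm (i + 1) + (2 : ℝ)⁻¹ ^ (i + 3) * (2 : ℝ)⁻¹ ^ mm (i + 1) := by
        apply add_le_add _ hnew
        have := hg
        rw [GoodBlock, hlen] at this
        exact this
    _ = ww (i + 1) * (2 : ℝ)⁻¹ ^ mm (i + 1) := by
        simp only [ww]; ring

/-- The coded sequence exists. -/
theorem exists_path (hC : ∀ a, C (2 * a) = true → lebesgue (testSet B a) ≤ (2 : ℝ≥0∞)⁻¹ ^ kk a) :
    ∃ Z : ℕ → Bool, ∀ i, NextBlock B C i (res Z (mm i)) (res Z (mm (i + 1))) := by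
  classical
  -- the sequence of blocks
  let f : (i : ℕ) → {ζ : List Bool // Inv B C i ζ} := fun i =>
    Nat.rec (motive := fun i => {ζ : List Bool // Inv B C i ζ}) ⟨[], inv_zero⟩
      (fun i ζ => ⟨Classical.choose (exists_next ζ.2),
        inv_next hC (Classical.choose_spec (exists_next ζ.2))⟩) i
  have hf : ∀ i, NextBlock B C i (f i).1 (f (i + 1)).1 := fun i =>
    Classical.choose_spec (exists_next (f i).2)
  have hlen : ∀ i, (f i).1.length = mm i := fun i => (f i).2.1
  have hpre : ∀ i, (f i).1 <+: (f (i + 1)).1 := by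
    intro i
    have := (mem_exts.1 (hf i).1).2
    rw [List.prefix_iff_eq_take]
    exact this.symm
  have hpre' : ∀ i j, i ≤ j → (f i).1 <+: (f j).1 := by
    intro i j hij
    induction j, hij using Nat.le_induction with
    | base => exact List.prefix_refl _
    | succ j _ ih => exact ih.trans (hpre j)
  have hmmle : ∀ n, n < mm (n + 1) := by
    intro n
    unfold mm
    nlinarith
  let Z : ℕ → Bool := fun n => ((f (n + 1)).1[n]?).getD false
  have hZ : ∀ i, res Z (mm i) = (f i).1 := by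
    intro i
    apply List.ext_getElem?
    intro n
    rcases Nat.lt_or_ge n (mm i) with hn | hn
    · rw [res_getElem? Z hn]
      have hget : ∀ j, n < mm j → ∀ k, j ≤ k → (f k).1[n]? = (f j).1[n]? := by
        intro j hj k hjk
        obtain ⟨t, ht⟩ := hpre' j k hjk
        rw [← ht, List.getElem?_append_left (by rw [hlen]; exact hj)]
      have h1 : (f (n + 1)).1[n]? = (f i).1[n]? := by
        rcases le_total i (n + 1) with h | h
        · exact hget i hn (n + 1) h
        · exact (hget (n + 1) (hmmle n) i h).symm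
      have h2 : (f i).1[n]? = some ((f i).1[n]'(by rw [hlen]; exact hn)) :=
        List.getElem?_eq_getElem _
      simp only [Z, h1, h2, Option.getD_some]
    · rw [List.getElem?_eq_none (by simpa using hn), List.getElem?_eq_none (by rw [hlen]; exact hn)]
  refine ⟨Z, fun i => ?_⟩
  rw [hZ, hZ]
  exact hf i

end Path

section Decoding

variable {B C Z : ℕ → Bool}
  (hZ : ∀ i, NextBlock B C i (res Z (mm i)) (res Z (mm (i + 1))))
include hZ

theorem leftBad_sound {i N : ℕ} (hN : mm (i + 1) ≤ N)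
    (h : LeftBad (res B N) (res Z N) (res C i)) : C i = false := by
  by_contra hc
  have hCi : C i = true := by simpa using hc
  obtain ⟨hw, hg, ⟨y, hy, hyne, gy⟩, -, hright⟩ := hZ i
  have h1 : ¬ encode (res Z (mm (i + 1))) < encode y := fun hlt => hright hCi y hy hlt gy
  have h2 : encode y < encode (res Z (mm (i + 1))) := by
    rcases lt_trichotomy (encode y) (encode (res Z (mm (i + 1)))) with h | h | h
    · exact h
    · exact absurd (encode_injective h) hyne
    · exact absurd h h1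
  obtain ⟨hylen, hytake⟩ := mem_exts.1 hy
  have h3 := h y (by rw [res_length]; exact mem_strs.2 hylen)
  rw [res_length, res_take Z (((mm_lt i).le).trans hN), res_take Z hN] at h3
  rw [res_length] at hytake
  have h4 : Bad (res C i) (res B N) y := by
    by_contra hb
    exact h3 ⟨⟨hytake, h2⟩, hb⟩
  exact (not_goodBlock_iff B C).2 ⟨N, h4⟩ gy

theorem rightBad_sound {i N : ℕ} (hN : mm (i + 1) ≤ N)
    (h : RightBad (res B N) (res Z N) (res C i)) : C i = true := by
  by_contra hc
  have hCi : C i = false := by simpa using hc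
  obtain ⟨hw, hg, ⟨y, hy, hyne, gy⟩, hleft, -⟩ := hZ i
  have h1 : ¬ encode y < encode (res Z (mm (i + 1))) := fun hlt => hleft hCi y hy hlt gy
  have h2 : encode (res Z (mm (i + 1))) < encode y := by
    rcases lt_trichotomy (encode y) (encode (res Z (mm (i + 1)))) with h | h | h
    · exact absurd h h1
    · exact absurd (encode_injective h) hyne
    · exact h
  obtain ⟨hylen, hytake⟩ := mem_exts.1 hy
  have h3 := h y (by rw [res_length]; exact mem_strs.2 hylen)
  rw [res_length, res_take Z (((mm_lt i).le).trans hN), res_take Z hN] at h3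
  rw [res_length] at hytake
  have h4 : Bad (res C i) (res B N) y := by
    by_contra hb
    exact h3 ⟨⟨hytake, h2⟩, hb⟩
  exact (not_goodBlock_iff B C).2 ⟨N, h4⟩ gy

theorem decStep_sound (i N : ℕ) : decStep (res B N) (res Z N) (res C i) = res C i ∨
    decStep (res B N) (res Z N) (res C i) = res C (i + 1) := by
  unfold decStep
  split_ifs with h1 h2 h3
  · exact Or.inl rfl
  · right
    rw [res_length, res_length] at h1
    rw [res_succ, leftBad_sound hZ (not_lt.1 h1) h2]
  · right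
    rw [res_length, res_length] at h1
    rw [res_succ, rightBad_sound hZ (not_lt.1 h1) h3]
  · exact Or.inl rfl

omit hZ in
theorem exists_allBad (i : ℕ) (S : Finset (List Bool)) (hS : ∀ y ∈ S, ¬ GoodBlock B C i y) :
    ∃ N0, ∀ N, N0 ≤ N → ∀ y ∈ S, Bad (res C i) (res B N) y := by
  classical
  induction S using Finset.induction_on with
  | empty => exact ⟨0, fun N _ y hy => absurd hy (Finset.notMem_empty y)⟩
  | insert x S _ ih =>
    obtain ⟨N0, hN0⟩ := ih fun y hy => hS y (Finset.mem_insert_of_mem hy)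
    obtain ⟨N1, hN1⟩ := (not_goodBlock_iff B C).1 (hS x (Finset.mem_insert_self x S))
    refine ⟨max N0 N1, fun N hN y hy => ?_⟩
    rcases Finset.mem_insert.1 hy with rfl | hy
    · exact hN1.mono' ((le_max_right _ _).trans hN)
    · exact hN0 N ((le_max_left _ _).trans hN) y hy

theorem decStep_complete (i : ℕ) : ∃ N0, ∀ N, N0 ≤ N →
    decStep (res B N) (res Z N) (res C i) = res C (i + 1) := by
  classical
  have hkey : ∃ N0, ∀ N, N0 ≤ N → mm (i + 1) ≤ N →
      (LeftBad (res B N) (res Z N) (res C i) ∨ RightBad (res B N) (res Z N) (res C i)) := by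
    obtain ⟨hw, hg, -, hleft, hright⟩ := hZ i
    rcases hCi : C i with _ | _
    · obtain ⟨N0, hN0⟩ := exists_allBad i ((exts (res Z (mm i)) (mm (i + 1))).filter
        (fun y => encode y < encode (res Z (mm (i + 1))))) (fun y hy => by
          rw [Finset.mem_filter] at hy
          exact hleft hCi y hy.1 hy.2)
      refine ⟨N0, fun N hN hmN => Or.inl ?_⟩
      intro y hy hcon
      rw [res_length] at hy
      rw [res_length, res_take Z (((mm_lt i).le).trans hmN), res_take Z hmN] at hcon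
      apply hcon.2
      apply hN0 N hN y
      rw [Finset.mem_filter]
      exact ⟨mem_exts.2 ⟨mem_strs.1 hy, by rw [res_length]; exact hcon.1.1⟩, hcon.1.2⟩
    · obtain ⟨N0, hN0⟩ := exists_allBad i ((exts (res Z (mm i)) (mm (i + 1))).filter
        (fun y => encode (res Z (mm (i + 1))) < encode y)) (fun y hy => by
          rw [Finset.mem_filter] at hy
          exact hright hCi y hy.1 hy.2)
      refine ⟨N0, fun N hN hmN => Or.inr ?_⟩
      intro y hy hcon
      rw [res_length] at hy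
      rw [res_length, res_take Z (((mm_lt i).le).trans hmN), res_take Z hmN] at hcon
      apply hcon.2
      apply hN0 N hN y
      rw [Finset.mem_filter]
      exact ⟨mem_exts.2 ⟨mem_strs.1 hy, by rw [res_length]; exact hcon.1.1⟩, hcon.1.2⟩
  obtain ⟨N0, hN0⟩ := hkey
  refine ⟨max N0 (mm (i + 1)), fun N hN => ?_⟩
  have h1 : mm (i + 1) ≤ N := (le_max_right _ _).trans hN
  have h2 := hN0 N ((le_max_left _ _).trans hN) h1
  unfold decStep
  rw [if_neg (by rw [res_length, res_length]; omega)]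
  by_cases hL : LeftBad (res B N) (res Z N) (res C i)
  · rw [if_pos hL, res_succ, leftBad_sound hZ h1 hL]
  · have hR := h2.resolve_left hL
    rw [if_neg hL, if_pos hR, res_succ, rightBad_sound hZ h1 hR]

theorem iterate_sound (N i k : ℕ) : ∃ j, i ≤ j ∧
    (decStep (res B N) (res Z N))^[k] (res C i) = res C j := by
  induction k generalizing i with
  | zero => exact ⟨i, le_rfl, rfl⟩
  | succ k ih =>
    rw [Function.iterate_succ_apply]
    rcases decStep_sound hZ i N with h | h
    · rw [h]; exact ih i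
    · rw [h]
      obtain ⟨j, hj, hj'⟩ := ih (i + 1)
      exact ⟨j, by omega, hj'⟩

theorem iterate_complete (k : ℕ) : ∃ N0, ∀ N, N0 ≤ N →
    (decStep (res B N) (res Z N))^[k] [] = res C k := by
  induction k with
  | zero => exact ⟨0, fun N _ => by simp [res]⟩
  | succ k ih =>
    obtain ⟨N0, hN0⟩ := ih
    obtain ⟨N1, hN1⟩ := decStep_complete hZ k
    refine ⟨max N0 N1, fun N hN => ?_⟩
    rw [Function.iterate_succ_apply', hN0 N ((le_max_left _ _).trans hN),
      hN1 N ((le_max_right _ _).trans hN)]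

theorem dec_sound (N : ℕ) : ∃ j, dec (res B N) (res Z N) = res C j := by
  obtain ⟨j, -, hj⟩ := iterate_sound hZ N 0 N
  refine ⟨j, ?_⟩
  unfold dec
  rw [res_length]
  simpa [res] using hj

theorem dec_complete (k : ℕ) : ∃ N0, ∀ N, N0 ≤ N →
    ∃ j, k ≤ j ∧ dec (res B N) (res Z N) = res C j := by
  obtain ⟨N0, hN0⟩ := iterate_complete hZ k
  refine ⟨max N0 k, fun N hN => ?_⟩
  obtain ⟨j, hj, hj'⟩ := iterate_sound hZ N k (N - k)
  refine ⟨j, hj, ?_⟩
  unfold dec
  have hNk : N = (N - k) + k := by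
    have := (le_max_right N0 k).trans hN
    omega
  rw [res_length, ← hj', ← hN0 N ((le_max_left _ _).trans hN), ← Function.iterate_add_apply,
    ← hNk]

/-- The coded sequence is random relative to `B`. -/
theorem random_of_path (hCt : ∀ a, lebesgue (testSet B a) ≤ (2 : ℝ≥0∞)⁻¹ ^ kk a →
    C (2 * a) = true) : MLRandom B Z := by
  intro W hW hmem
  obtain ⟨a, ha⟩ := hW.re.exists_index
  have hset : ∀ k, {σ : List Bool | ∃ n, ev a (encode (k, σ)) (res B n) = true} = W k := by
    intro k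
    ext σ
    exact (ha (k, σ)).symm
  have hT : testSet B a = openOf (W (kk a)) := by
    unfold testSet
    rw [hset]
  have hCa : C (2 * a) = true := hCt a (by rw [hT]; exact hW.measure_le _)
  have hZW : Z ∈ testSet B a := by
    rw [hT]
    exact mem_iInter.1 hmem (kk a)
  obtain ⟨σ, hσ, hZσ⟩ := mem_iUnion₂.1 hZW
  set i := 2 * a + 1 + σ.length with hi
  have hlen : σ.length ≤ mm (i + 1) := by
    have : i + 1 ≤ mm (i + 1) := by unfold mm; nlinarith
    omega
  have hsub : cyl (res Z (mm (i + 1))) ⊆ known B C i := by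
    have h1 : cyl (res Z (mm (i + 1))) ⊆ cyl σ := by
      apply cyl_mono
      exact (mem_cyl_iff_prefix hlen).1 hZσ
    refine h1.trans ?_
    refine (subset_biUnion_of_mem (u := fun σ => cyl σ) hσ).trans ?_
    exact subset_biUnion_of_mem (s := {a | 2 * a < i ∧ C (2 * a) = true}) (u := fun a => testSet B a)
      (show a ∈ {a | 2 * a < i ∧ C (2 * a) = true} from ⟨by omega, hCa⟩)
  have hg := (hZ i).2.1
  rw [GoodBlock, inter_eq_self_of_subset_right hsub, mu_cyl] at hg
  have hv := vv_lt_one i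
  have hp : (0 : ℝ) < (2 : ℝ)⁻¹ ^ (res Z (mm (i + 1))).length := by positivity
  nlinarith

end Decoding

theorem oddPart_res {A C : ℕ → Bool} (h : ∀ j, C (2 * j + 1) = A j) (n : ℕ) :
    oddPart (res C n) = res A (n / 2) := by
  unfold oddPart
  rw [res_length]
  conv_rhs => rw [res]
  apply List.map_congr_left
  intro j hj
  rw [List.mem_range] at hj
  rw [res_getElem? C (show 2 * j + 1 < n by omega)]
  simp [h]

/-- **Coding theorem** (Kucera-Gacs, relativised).  For all `A` and `B` there is a `B`-random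
`Z` such that the decoder recovers `A` from `B` and `Z`. -/
theorem exists_coding (A B : ℕ → Bool) : ∃ Z : ℕ → Bool, MLRandom B Z ∧
    (∀ N, ∃ j, decodeA (res (fun n => (B n, Z n)) N) = res A j) ∧
    (∀ i, ∃ N0, ∀ N ≥ N0, i ≤ (decodeA (res (fun n => (B n, Z n)) N)).length) := by
  classical
  let E : ℕ → Bool := fun a => decide (lebesgue (testSet B a) ≤ (2 : ℝ≥0∞)⁻¹ ^ kk a)
  let C : ℕ → Bool := join E A
  have hCe : ∀ a, C (2 * a) = E a := by
    intro a
    simp [C, join]
  have hCo : ∀ a, C (2 * a + 1) = A a := by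
    intro a
    have h1 : (2 * a + 1) % 2 = 1 := by omega
    have h2 : (2 * a + 1) / 2 = a := by omega
    simp [C, join, h1, h2]
  obtain ⟨Z, hZ⟩ := exists_path (B := B) (C := C) (fun a ha => by
    rw [hCe] at ha
    exact of_decide_eq_true ha)
  have hfst : ∀ N, (res (fun n => (B n, Z n)) N).map Prod.fst = res B N := by
    intro N
    simp [res, Function.comp_def]
  have hsnd : ∀ N, (res (fun n => (B n, Z n)) N).map Prod.snd = res Z N := by
    intro N
    simp [res, Function.comp_def]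
  refine ⟨Z, random_of_path hZ (fun a ha => ?_), fun N => ?_, fun i => ?_⟩
  · rw [hCe]
    exact decide_eq_true ha
  · obtain ⟨j, hj⟩ := dec_sound hZ N
    refine ⟨j / 2, ?_⟩
    unfold decodeA
    rw [hfst, hsnd, hj, oddPart_res hCo]
  · obtain ⟨N0, hN0⟩ := dec_complete hZ (2 * i)
    refine ⟨N0, fun N hN => ?_⟩
    obtain ⟨j, hj, hj'⟩ := hN0 N hN
    unfold decodeA
    rw [hfst, hsnd, hj', oddPart_res hCo, res_length]
    omega

end Pool.Agent.AlgRandom
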