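import Mathlib
import Pool.Agent.AlgRandom.CylMeasure

/-!
# Length-lexicographic enumeration of the strings over a four letter alphabet
-/

namespace Pool.Agent.AlgRandom

/-- The four letters. -/
def letter (i : ℕ) : Bool × Bool := (decide (i = 2 ∨ i = 3), decide (i = 1 ∨ i = 3))

theorem letter_surj (b : Bool × Bool) : ∃ i < 4, letter i = b := by
  rcases b with ⟨_ | _, _ | _⟩
  · exact ⟨0, by norm_num, by simp [letter]⟩
  · exact ⟨1, by norm_num, by simp [letter]⟩
  · exact ⟨2, by norm_num, by simp [letter]⟩
  · exact ⟨3, by norm_num, by simp [letter]⟩

theorem letter_inj {i j : ℕ} (hi : i < 4) (hj : j < 4) (h : letter i = letter j) : i = j := by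
  interval_cases i <;> interval_cases j <;> simp [letter] at h <;> rfl

/-- The enumeration of all strings over the four letter alphabet. -/
def str : ℕ → List (Bool × Bool)
  | 0 => []
  | n + 1 => str (n / 4) ++ [letter (n % 4)]
decreasing_by exact Nat.lt_succ_of_le (Nat.div_le_self n 4)

theorem str_zero : str 0 = [] := by rw [str]

theorem str_succ (n : ℕ) : str (n + 1) = str (n / 4) ++ [letter (n % 4)] := by rw [str]

theorem str_length_mono {m n : ℕ} (h : m ≤ n) : (str m).length ≤ (str n).length := by
  induction n using Nat.strong_induction_on generalizing m with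
  | _ n ih =>
    rcases m with _ | m
    · simp [str_zero]
    · obtain ⟨n, rfl⟩ : ∃ n', n = n' + 1 := ⟨n - 1, by omega⟩
      rw [str_succ, str_succ]
      simp only [List.length_append, List.length_singleton, Nat.add_le_add_iff_right]
      exact ih (n / 4) (Nat.lt_succ_of_le (Nat.div_le_self n 4)) (Nat.div_le_div_right (by omega))

theorem str_length_le (n : ℕ) : (str n).length ≤ n := by
  induction n using Nat.strong_induction_on with
  | _ n ih =>
    rcases n with _ | n
    · simp [str_zero]
    · rw [str_succ]
      simp only [List.length_append, List.length_singleton, Nat.add_le_add_iff_right]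
      exact (ih (n / 4) (Nat.lt_succ_of_le (Nat.div_le_self n 4))).trans (Nat.div_le_self n 4)

theorem str_injective : Function.Injective str := by
  intro m n h
  induction n using Nat.strong_induction_on generalizing m with
  | _ n ih =>
    rcases m with _ | m <;> rcases n with _ | n
    · rfl
    · rw [str_zero, str_succ] at h
      simp at h
    · rw [str_zero, str_succ] at h
      simp at h
    · rw [str_succ, str_succ] at h
      obtain ⟨h1, h2⟩ := List.append_inj' h rfl
      have h3 := ih (n / 4) (Nat.lt_succ_of_le (Nat.div_le_self n 4)) h1
      have h4 : m % 4 = n % 4 := letter_inj (Nat.mod_lt _ (by norm_num))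
        (Nat.mod_lt _ (by norm_num)) (by simpa using h2)
      omega

theorem str_surjective : Function.Surjective str := by
  intro x
  induction x using List.reverseRecOn with
  | nil => exact ⟨0, str_zero⟩
  | append_singleton x b ih =>
    obtain ⟨m, rfl⟩ := ih
    obtain ⟨i, hi, rfl⟩ := letter_surj b
    refine ⟨4 * m + i + 1, ?_⟩
    rw [str_succ]
    have h1 : (4 * m + i) / 4 = m := by omega
    have h2 : (4 * m + i) % 4 = i := by omega
    rw [h1, h2]

/-- A prefix of the `n`-th string has index at most `n`. -/
theorem le_of_str_prefix {m n : ℕ} (h : str m <+: str n) : m ≤ n := by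
  by_contra hc
  have h1 := str_length_mono (show n ≤ m by omega)
  have h2 := h.eq_of_length (le_antisymm h.length_le h1)
  exact absurd (str_injective h2) (by omega)

theorem primrec_letter : Primrec letter := by
  have h1 : PrimrecPred fun i : ℕ => i = 2 ∨ i = 3 :=
    (Primrec.eq.comp Primrec.id (Primrec.const 2)).or (Primrec.eq.comp Primrec.id (Primrec.const 3))
  have h2 : PrimrecPred fun i : ℕ => i = 1 ∨ i = 3 :=
    (Primrec.eq.comp Primrec.id (Primrec.const 1)).or (Primrec.eq.comp Primrec.id (Primrec.const 3))
  exact Primrec.pair h1.decide h2.decide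

theorem primrec_str : Primrec str := by
  let g : Unit → List (List (Bool × Bool)) → Option (List (Bool × Bool)) := fun _ l =>
    if l.length = 0 then some []
    else (l[(l.length - 1) / 4]?).map fun y => y ++ [letter ((l.length - 1) % 4)]
  have hg : Primrec₂ g := by
    have hl : Primrec fun z : Unit × List (List (Bool × Bool)) => z.2.length :=
      Primrec.list_length.comp Primrec.snd
    have hp : Primrec fun z : Unit × List (List (Bool × Bool)) => z.2.length - 1 :=
      Primrec.nat_sub.comp hl (Primrec.const 1)
    refine Primrec.ite (Primrec.eq.comp hl (Primrec.const 0)) (Primrec.const _) ?_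
    refine Primrec.option_map (Primrec.list_getElem?.comp Primrec.snd
      (Primrec.nat_div.comp hp (Primrec.const 4))) ?_
    exact (Primrec.list_concat.comp Primrec.snd (primrec_letter.comp
      (Primrec.nat_mod.comp (hp.comp Primrec.fst) (Primrec.const 4)))).to₂
  have h := Primrec.nat_strong_rec (fun (_ : Unit) n => str n) hg (by
    intro a n
    simp only [g, List.length_map, List.length_range]
    rcases n with _ | n
    · simp [str_zero]
    · have h1 : n / 4 < n + 1 := Nat.lt_succ_of_le (Nat.div_le_self n 4)
      simp [str_succ, h1])
  exact h.comp (Primrec.const ()) Primrec.id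

end Pool.Agent.AlgRandom
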