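import Mathlib
import Pool.Agent.AlgRandom.Strings4
import Pool.Agent.AlgRandom.KraftChaitin

/-!
# Hungry sets

An online version of the construction of Hirschfeldt, Nies and Stephan: the strings over the four
letter alphabet are processed in length-lexicographic order, and each of them is fed to at most
one hungry pair `(σ, τ)`.
-/

namespace Pool.Agent.AlgRandom

open Encodable
open Nat.Partrec (Code)

/-- A history: the decisions made so far. -/
abbrev Hist : Type := List (Option (List Bool × List Bool))

/-- The stage `n` approximation of the machine with code `c`. -/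
def us (c : Code) (n : ℕ) (σ : List Bool) : Option ℕ := Code.evaln n c (encode σ)

/-- The `n`-th string extends a string which has already been fed. -/
def Blocked (n : ℕ) (h : Hist) : Prop :=
  ∃ s ∈ List.range n, (str n).take (str s).length = str s ∧ ((h[s]?).getD none).isSome = true

instance (n : ℕ) (h : Hist) : Decidable (Blocked n h) := by
  unfold Blocked; infer_instance

/-- `4 ^ t` times the weight of the strings which have been fed to `q`. -/
def wt (h : Hist) (t : ℕ) (q : List Bool × List Bool) : ℕ :=
  ((List.range h.length).filter fun s => decide (h[s]? = some (some q))).foldl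
    (fun acc s => acc + 4 ^ (t - (str s).length)) 0

section

variable (c : Code) (D : List (Bool × Bool) → List Bool) (d : ℕ)

/-- The string `σ` is a possible choice for the `n`-th string. -/
def Elig (n : ℕ) (h : Hist) (σ : List Bool) : Prop :=
  ∃ m ∈ us c n σ, m ≤ (D (str n)).length ∧
    (wt h (str n).length (σ, (D (str n)).take m) + 1) * 2 ^ (d + σ.length) ≤ 4 ^ (str n).length

instance (n : ℕ) (h : Hist) (σ : List Bool) : Decidable (Elig c D d n h σ) := by
  unfold Elig; infer_instance

/-- The candidates considered at stage `n`. -/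
def cands (n : ℕ) : List (List Bool) :=
  (List.range n).map fun i => (decode (α := List Bool) i).getD []

/-- The decision for the `n`-th string. -/
def choice (n : ℕ) (h : Hist) : Option (List Bool × List Bool) :=
  if Blocked n h then none
  else (((cands n).filter fun σ => decide (Elig c D d n h σ)).head?).bind fun σ =>
    (us c n σ).map fun m => (σ, (D (str n)).take m)

/-- The history after `n` stages. -/
def hist : ℕ → Hist
  | 0 => []
  | n + 1 => hist n ++ [choice c D d n (hist n)]

/-- The decision for the `n`-th string. -/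
def asg (n : ℕ) : Option (List Bool × List Bool) := choice c D d n (hist c D d n)

theorem hist_succ (n : ℕ) : hist c D d (n + 1) = hist c D d n ++ [asg c D d n] := rfl

@[simp] theorem hist_length (n : ℕ) : (hist c D d n).length = n := by
  induction n with
  | zero => rfl
  | succ n ih => rw [hist_succ]; simp [ih]

theorem hist_getElem? {s n : ℕ} (h : s < n) : (hist c D d n)[s]? = some (asg c D d s) := by
  induction n with
  | zero => omega
  | succ n ih =>
    rw [hist_succ]
    rcases Nat.lt_succ_iff_lt_or_eq.1 h with h | rfl
    · rw [List.getElem?_append_left (by simpa using h), ih h]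
    · rw [List.getElem?_append_right (by simp)]
      simp

/-- The weight fed to `q` before stage `n`. -/
noncomputable def W (n : ℕ) (q : List Bool × List Bool) : ℝ :=
  ∑ s ∈ (Finset.range n).filter (fun s => asg c D d s = some q), (4 : ℝ)⁻¹ ^ (str s).length

theorem wt_eq {n t : ℕ} (ht : ∀ s < n, (str s).length ≤ t) (q : List Bool × List Bool) :
    (wt (hist c D d n) t q : ℝ) = 4 ^ t * W c D d n q := by
  have h1 : wt (hist c D d n) t q =
      ((List.range n).filter fun s => decide (asg c D d s = some q)).foldl
        (fun acc s => acc + 4 ^ (t - (str s).length)) 0 := by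
    unfold wt
    rw [hist_length]
    congr 1
    apply List.filter_congr
    intro s hs
    rw [hist_getElem? c D d (List.mem_range.1 hs)]
    simp
  have h2 : ∀ L : List ℕ, ∀ a : ℕ, L.foldl (fun acc s => acc + 4 ^ (t - (str s).length)) a =
      a + (L.map fun s => 4 ^ (t - (str s).length)).sum := by
    intro L
    induction L with
    | nil => intro a; simp
    | cons x L ih => intro a; simp [ih, add_assoc]
  rw [h1, h2, zero_add, W, Finset.mul_sum]
  have h3 : ((List.range n).filter fun s => decide (asg c D d s = some q)).Nodup :=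
    List.Nodup.filter _ List.nodup_range
  have h4 : (((List.range n).filter fun s => decide (asg c D d s = some q)).toFinset) =
      (Finset.range n).filter (fun s => asg c D d s = some q) := by
    ext s
    simp
  rw [← h4, List.sum_toFinset _ h3, Nat.cast_list_sum, List.map_map]
  congr 1
  apply List.map_congr_left
  intro s hs
  have hs' : s < n := by
    have := List.mem_of_mem_filter hs
    exact List.mem_range.1 this
  have hle := ht s hs'
  simp only [Function.comp]
  push_cast
  rw [inv_pow, ← pow_sub₀ _ (by norm_num) hle]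

theorem W_succ_self {n : ℕ} {q : List Bool × List Bool} (h : asg c D d n = some q) :
    W c D d (n + 1) q = W c D d n q + (4 : ℝ)⁻¹ ^ (str n).length := by
  rw [W, W, Finset.range_add_one, Finset.filter_insert, if_pos h, Finset.sum_insert (by simp),
    add_comm]

theorem W_succ_other {n : ℕ} {q : List Bool × List Bool} (h : asg c D d n ≠ some q) :
    W c D d (n + 1) q = W c D d n q := by
  rw [W, W, Finset.range_add_one, Finset.filter_insert, if_neg h]

theorem W_mono {m n : ℕ} (h : m ≤ n) (q : List Bool × List Bool) :
    W c D d m q ≤ W c D d n q := by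
  apply Finset.sum_le_sum_of_subset_of_nonneg
  · intro s hs
    simp only [Finset.mem_filter, Finset.mem_range] at hs ⊢
    exact ⟨by omega, hs.2⟩
  · intro s _ _
    positivity

theorem blocked_iff (n : ℕ) : Blocked n (hist c D d n) ↔
    ∃ s < n, str s <+: str n ∧ asg c D d s ≠ none := by
  unfold Blocked
  constructor
  · rintro ⟨s, hs, h1, h2⟩
    rw [List.mem_range] at hs
    refine ⟨s, hs, ?_, ?_⟩
    · rw [List.prefix_iff_eq_take]
      exact h1.symm
    · rw [hist_getElem? c D d hs] at h2
      simp only [Option.getD_some] at h2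
      intro h3
      rw [h3] at h2
      simp at h2
  · rintro ⟨s, hs, h1, h2⟩
    refine ⟨s, List.mem_range.2 hs, ?_, ?_⟩
    · rw [List.prefix_iff_eq_take] at h1
      exact h1.symm
    · rw [hist_getElem? c D d hs]
      simp only [Option.getD_some]
      exact Option.isSome_iff_ne_none.2 h2

/-- What an assignment means. -/
theorem asg_spec {n : ℕ} {σ τ : List Bool} (h : asg c D d n = some (σ, τ)) :
    (∀ s < n, str s <+: str n → asg c D d s = none) ∧
    ∃ m ∈ us c n σ, τ = (D (str n)).take m ∧ m ≤ (D (str n)).length ∧
      W c D d n (σ, τ) + (4 : ℝ)⁻¹ ^ (str n).length ≤ (2 : ℝ)⁻¹ ^ (d + σ.length) := by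
  unfold asg choice at h
  split_ifs at h with hb
  refine ⟨?_, ?_⟩
  · rw [blocked_iff] at hb
    push Not at hb
    exact hb
  · simp only [Option.bind_eq_some_iff, Option.map_eq_some_iff, Prod.mk.injEq] at h
    obtain ⟨σ', h1, m, h2, rfl, rfl⟩ := h
    have h3 : σ' ∈ (cands n).filter fun σ => decide (Elig c D d n (hist c D d n) σ) :=
      List.mem_of_mem_head? (by rw [h1]; rfl)
    rw [List.mem_filter] at h3
    have h4 := of_decide_eq_true h3.2
    obtain ⟨m', hm', hle, hw⟩ := h4
    obtain rfl : m' = m := by
      rw [Option.mem_def, h2] at hm'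
      exact (Option.some.inj hm').symm
    refine ⟨m', hm', rfl, hle, ?_⟩
    have hw' : ((wt (hist c D d n) (str n).length (σ', (D (str n)).take m') : ℝ) + 1) *
        2 ^ (d + σ'.length) ≤ 4 ^ (str n).length := by exact_mod_cast hw
    rw [wt_eq c D d (fun s hs => str_length_mono hs.le)] at hw'
    have p1 : (0 : ℝ) < 4 ^ (str n).length := by positivity
    have p2 : (0 : ℝ) < 2 ^ (d + σ'.length) := by positivity
    rw [inv_pow, inv_pow, ← one_div, ← one_div, le_div_iff₀ p2]
    have e : (W c D d n (σ', (D (str n)).take m') + 1 / 4 ^ (str n).length) * 2 ^ (d + σ'.length) =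
        ((4 ^ (str n).length * W c D d n (σ', (D (str n)).take m') + 1) * 2 ^ (d + σ'.length)) /
          4 ^ (str n).length := by
      field_simp
    rw [e, div_le_iff₀ p1, one_mul]
    exact hw'

/-- When an assignment is made. -/
theorem asg_ne_none {n m : ℕ} {σ : List Bool}
    (h1 : ∀ s < n, str s <+: str n → asg c D d s = none)
    (h2 : encode σ < n) (h3 : us c n σ = some m) (h4 : m ≤ (D (str n)).length)
    (h5 : W c D d n (σ, (D (str n)).take m) + (4 : ℝ)⁻¹ ^ (str n).length ≤
      (2 : ℝ)⁻¹ ^ (d + σ.length)) : asg c D d n ≠ none := by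
  have hb : ¬ Blocked n (hist c D d n) := by
    rw [blocked_iff]
    push Not
    exact h1
  have hmem : σ ∈ cands n := by
    unfold cands
    rw [List.mem_map]
    exact ⟨encode σ, List.mem_range.2 h2, by simp⟩
  have helig : Elig c D d n (hist c D d n) σ := by
    refine ⟨m, h3, h4, ?_⟩
    have p1 : (0 : ℝ) < 4 ^ (str n).length := by positivity
    have p2 : (0 : ℝ) < 2 ^ (d + σ.length) := by positivity
    rw [inv_pow, inv_pow, ← one_div, ← one_div, le_div_iff₀ p2] at h5
    have e : (W c D d n (σ, (D (str n)).take m) + 1 / 4 ^ (str n).length) * 2 ^ (d + σ.length) =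
        ((4 ^ (str n).length * W c D d n (σ, (D (str n)).take m) + 1) * 2 ^ (d + σ.length)) /
          4 ^ (str n).length := by
      field_simp
    rw [e, div_le_iff₀ p1, one_mul, ← wt_eq c D d (fun s hs => str_length_mono hs.le)] at h5
    exact_mod_cast h5
  have hne : ((cands n).filter fun σ => decide (Elig c D d n (hist c D d n) σ)) ≠ [] := by
    intro hnil
    have : σ ∈ (cands n).filter fun σ => decide (Elig c D d n (hist c D d n) σ) := by
      rw [List.mem_filter]
      exact ⟨hmem, decide_eq_true helig⟩
    rw [hnil] at this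
    exact absurd this (by simp)
  obtain ⟨σ', L, hL⟩ := List.exists_cons_of_ne_nil hne
  unfold asg choice
  rw [if_neg hb, hL]
  have hσ' : σ' ∈ (cands n).filter fun σ => decide (Elig c D d n (hist c D d n) σ) := by
    rw [hL]; simp
  rw [List.mem_filter] at hσ'
  obtain ⟨m', hm', -, -⟩ := of_decide_eq_true hσ'.2
  rw [Option.mem_def] at hm'
  simp [hm']

/-- The fed strings are pairwise incomparable. -/
theorem asg_incomparable {s n : ℕ} (hs : asg c D d s ≠ none) (hn : asg c D d n ≠ none)
    (hne : s ≠ n) : ¬ str s <+: str n := by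
  intro h
  have hle := le_of_str_prefix h
  obtain ⟨⟨σ, τ⟩, hστ⟩ := Option.ne_none_iff_exists'.1 hn
  exact hs ((asg_spec c D d hστ).1 s (by omega) h)

theorem W_le (n : ℕ) (σ τ : List Bool) : W c D d n (σ, τ) ≤ (2 : ℝ)⁻¹ ^ (d + σ.length) := by
  induction n with
  | zero => simp [W]
  | succ n ih =>
    by_cases h : asg c D d n = some (σ, τ)
    · rw [W_succ_self c D d h]
      obtain ⟨-, m, -, -, -, hw⟩ := asg_spec c D d h
      exact hw
    · rw [W_succ_other c D d h]
      exact ih

end

/-! ### Computability -/

section Computability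

theorem primrec_us (c : Code) : Primrec₂ (us c) := by
  have h : Primrec fun z : ℕ × List Bool => ((z.1, c), encode z.2) :=
    Primrec.pair (Primrec.pair Primrec.fst (Primrec.const c)) (Primrec.encode.comp Primrec.snd)
  exact Code.primrec_evaln.comp h

theorem primrecPred_blocked : PrimrecPred fun z : ℕ × Hist => Blocked z.1 z.2 := by
  have hR : PrimrecRel fun (s : ℕ) (z : ℕ × Hist) =>
      (str z.1).take (str s).length = str s ∧ ((z.2[s]?).getD none).isSome = true := by
    have p1 : Primrec fun y : ℕ × (ℕ × Hist) => str y.1 := primrec_str.comp Primrec.fst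
    have p2 : Primrec fun y : ℕ × (ℕ × Hist) => str y.2.1 :=
      primrec_str.comp (Primrec.fst.comp Primrec.snd)
    have p3 : Primrec fun y : ℕ × (ℕ × Hist) => (str y.2.1).take (str y.1).length :=
      Primrec.list_take.comp (Primrec.list_length.comp p1) p2
    have p4 : Primrec fun y : ℕ × (ℕ × Hist) => ((y.2.2[y.1]?).getD none).isSome :=
      Primrec.option_isSome.comp (Primrec.option_getD.comp
        (Primrec.list_getElem?.comp (Primrec.snd.comp Primrec.snd) Primrec.fst)
        (Primrec.const none))
    exact (Primrec.eq.comp p3 p1).and (Primrec.eq.comp p4 (Primrec.const true))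
  have := hR.exists_mem_list
  exact this.comp (Primrec.list_range.comp Primrec.fst) Primrec.id

theorem primrec_wt : Primrec fun z : Hist × (ℕ × (List Bool × List Bool)) =>
    wt z.1 z.2.1 z.2.2 := by
  have hR : PrimrecRel fun (s : ℕ) (z : Hist × (ℕ × (List Bool × List Bool))) =>
      z.1[s]? = some (some z.2.2) := by
    refine Primrec.eq.comp (Primrec.list_getElem?.comp (Primrec.fst.comp Primrec.snd) Primrec.fst) ?_
    exact Primrec.option_some.comp (Primrec.option_some.comp
      (Primrec.snd.comp (Primrec.snd.comp Primrec.snd)))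
  have h1 : Primrec fun z : Hist × (ℕ × (List Bool × List Bool)) =>
      (List.range z.1.length).filter fun s => decide (z.1[s]? = some (some z.2.2)) :=
    hR.listFilter.comp (Primrec.list_range.comp (Primrec.list_length.comp Primrec.fst)) Primrec.id
  have q1 : Primrec fun y : (Hist × (ℕ × (List Bool × List Bool))) × (ℕ × ℕ) =>
      y.1.2.1 - (str y.2.2).length :=
    Primrec.nat_sub.comp (Primrec.fst.comp (Primrec.snd.comp Primrec.fst))
      (Primrec.list_length.comp (primrec_str.comp (Primrec.snd.comp Primrec.snd)))
  have q2 : Primrec₂ fun (z : Hist × (ℕ × (List Bool × List Bool))) (p : ℕ × ℕ) =>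
      p.1 + 4 ^ (z.2.1 - (str p.2).length) :=
    Primrec.nat_add.comp (Primrec.fst.comp Primrec.snd)
      (primrec_pow.comp (Primrec.const 4) q1)
  exact Primrec.list_foldl h1 (Primrec.const 0) q2

variable (c : Code) {D : List (Bool × Bool) → List Bool} (hD : Primrec D)
include hD

theorem primrecRel_elig : PrimrecRel fun (σ : List Bool) (z : ℕ × (ℕ × Hist)) =>
    Elig c D z.1 z.2.1 z.2.2 σ := by
  -- rewrite the existential over the option as a case distinction
  have key : PrimrecPred fun y : List Bool × (ℕ × (ℕ × Hist)) =>
      (((us c y.2.2.1 y.1).map fun m =>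
        decide (m ≤ (D (str y.2.2.1)).length ∧
          (wt y.2.2.2 (str y.2.2.1).length (y.1, (D (str y.2.2.1)).take m) + 1) *
            2 ^ (y.2.1 + y.1.length) ≤ 4 ^ (str y.2.2.1).length)).getD false) = true := by
    have hinner : PrimrecPred fun x : (List Bool × (ℕ × (ℕ × Hist))) × ℕ =>
        x.2 ≤ (D (str x.1.2.2.1)).length ∧
          (wt x.1.2.2.2 (str x.1.2.2.1).length (x.1.1, (D (str x.1.2.2.1)).take x.2) + 1) *
            2 ^ (x.1.2.1 + x.1.1.length) ≤ 4 ^ (str x.1.2.2.1).length := by
      have pn : Primrec fun x : (List Bool × (ℕ × (ℕ × Hist))) × ℕ => str x.1.2.2.1 :=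
        primrec_str.comp (Primrec.fst.comp (Primrec.snd.comp (Primrec.snd.comp Primrec.fst)))
      have ph : Primrec fun x : (List Bool × (ℕ × (ℕ × Hist))) × ℕ => x.1.2.2.2 :=
        Primrec.snd.comp (Primrec.snd.comp (Primrec.snd.comp Primrec.fst))
      have pσ : Primrec fun x : (List Bool × (ℕ × (ℕ × Hist))) × ℕ => x.1.1 :=
        Primrec.fst.comp Primrec.fst
      have pd : Primrec fun x : (List Bool × (ℕ × (ℕ × Hist))) × ℕ => x.1.2.1 :=
        Primrec.fst.comp (Primrec.snd.comp Primrec.fst)
      have pD := hD.comp pn
      have c1 := Primrec.nat_le.comp Primrec.snd (Primrec.list_length.comp pD)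
      have pw : Primrec fun x : (List Bool × (ℕ × (ℕ × Hist))) × ℕ =>
          wt x.1.2.2.2 (str x.1.2.2.1).length (x.1.1, (D (str x.1.2.2.1)).take x.2) :=
        primrec_wt.comp (Primrec.pair ph (Primrec.pair (Primrec.list_length.comp pn)
          (Primrec.pair pσ (Primrec.list_take.comp Primrec.snd pD))))
      have c2 := Primrec.nat_le.comp (Primrec.nat_mul.comp (Primrec.succ.comp pw)
        (primrec_pow.comp (Primrec.const 2) (Primrec.nat_add.comp pd (Primrec.list_length.comp pσ))))
        (primrec_pow.comp (Primrec.const 4) (Primrec.list_length.comp pn))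
      exact c1.and c2
    have hu : Primrec fun y : List Bool × (ℕ × (ℕ × Hist)) => us c y.2.2.1 y.1 :=
      (primrec_us c).comp (Primrec.fst.comp (Primrec.snd.comp Primrec.snd)) Primrec.fst
    have hm := Primrec.option_map hu (hinner.decide).to₂
    exact Primrec.eq.comp (Primrec.option_getD.comp hm (Primrec.const false)) (Primrec.const true)
  refine PrimrecPred.of_eq key ?_
  rintro ⟨σ, d, n, h⟩
  unfold Elig
  simp only
  rcases hus : us c n σ with _ | m
  · simp
  · simp

theorem primrec_choice : Primrec fun z : ℕ × (ℕ × Hist) => choice c D z.1 z.2.1 z.2.2 := by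
  have hn : Primrec fun z : ℕ × (ℕ × Hist) => z.2.1 := Primrec.fst.comp Primrec.snd
  have hc : Primrec fun z : ℕ × (ℕ × Hist) => cands z.2.1 := by
    refine Primrec.list_map (Primrec.list_range.comp hn) ?_
    exact (Primrec.option_getD.comp (Primrec.decode.comp Primrec.snd) (Primrec.const [])).to₂
  have hf : Primrec fun z : ℕ × (ℕ × Hist) =>
      (cands z.2.1).filter fun σ => decide (Elig c D z.1 z.2.1 z.2.2 σ) :=
    (primrecRel_elig c hD).listFilter.comp hc Primrec.id
  have hb : Primrec fun z : ℕ × (ℕ × Hist) =>
      (((cands z.2.1).filter fun σ => decide (Elig c D z.1 z.2.1 z.2.2 σ)).head?).bind fun σ =>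
    (us c z.2.1 σ).map fun m => (σ, (D (str z.2.1)).take m) := by
    refine Primrec.option_bind (Primrec.list_head?.comp hf) ?_
    have hu : Primrec fun y : (ℕ × (ℕ × Hist)) × List Bool => us c y.1.2.1 y.2 :=
      (primrec_us c).comp (hn.comp Primrec.fst) Primrec.snd
    refine Primrec.option_map hu ?_
    refine Primrec.pair (Primrec.snd.comp Primrec.fst) (Primrec.list_take.comp Primrec.snd ?_)
    exact hD.comp (primrec_str.comp (hn.comp (Primrec.fst.comp Primrec.fst)))
  exact Primrec.ite (primrecPred_blocked.comp Primrec.snd) (Primrec.const none) hb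

theorem primrec_hist : Primrec₂ fun d n => hist c D d n := by
  have hstep : Primrec₂ fun (d : ℕ) (p : ℕ × Hist) => p.2 ++ [choice c D d p.1 p.2] :=
    Primrec.list_concat.comp (Primrec.snd.comp Primrec.snd)
      ((primrec_choice c hD).comp (Primrec.pair Primrec.fst
        (Primrec.pair (Primrec.fst.comp Primrec.snd) (Primrec.snd.comp Primrec.snd))))
  refine (Primrec.nat_rec (Primrec.const ([] : Hist)) hstep).of_eq ?_
  intro d n
  induction n with
  | zero => rfl
  | succ n ih =>
    show _ ++ _ = hist c D d n ++ [choice c D d n (hist c D d n)]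
    simp only at ih ⊢
    rw [ih]

theorem primrec_asg : Primrec₂ fun d n => asg c D d n :=
  (primrec_choice c hD).comp (Primrec.pair Primrec.fst
    (Primrec.pair Primrec.snd ((primrec_hist c hD).comp Primrec.fst Primrec.snd)))

end Computability

end Pool.Agent.AlgRandom
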