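import Mathlib
import Pool.Agent.AlgRandom.Hungry

/-!
# From saturated hungry sets to K-triviality
-/

namespace Pool.Agent.AlgRandom

open Encodable
open Nat.Partrec (Code)

/-- Kraft's inequality for a finite family of pairwise incomparable strings, in `ℝ`. -/
theorem sum_incomparable_le_one {ι : Type} (s : Finset ι) (f : ι → List (Bool × Bool))
    (hf : ∀ i ∈ s, ∀ j ∈ s, i ≠ j → ¬ f i <+: f j) :
    ∑ i ∈ s, (4 : ℝ)⁻¹ ^ (f i).length ≤ 1 := by
  have h := tsum_cyl_le_one (fun i : s => f i) (by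
    intro i j hij
    exact hf i i.2 j j.2 (fun h => hij (Subtype.ext h)))
  rw [tsum_fintype] at h
  have h2 : ∑ i : s, ((Fintype.card (Bool × Bool) : ENNReal)⁻¹ ^ (f i).length) =
      ENNReal.ofReal (∑ i ∈ s, (4 : ℝ)⁻¹ ^ (f i).length) := by
    rw [ENNReal.ofReal_sum_of_nonneg (fun i _ => by positivity),
      ← Finset.sum_coe_sort s (fun i => ENNReal.ofReal ((4 : ℝ)⁻¹ ^ (f i).length))]
    apply Finset.sum_congr rfl
    intro i _
    rw [ENNReal.ofReal_pow (by positivity), ENNReal.ofReal_inv_of_pos (by norm_num)]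
    norm_num
  rw [h2] at h
  have := ENNReal.ofReal_le_one.1 h
  exact this

theorem us_mono {c : Code} {n n' : ℕ} {σ : List Bool} {m : ℕ} (h : us c n σ = some m)
    (hn : n ≤ n') : us c n' σ = some m :=
  Code.evaln_mono hn h

section

variable (c : Code) (D : List (Bool × Bool) → List Bool) (d : ℕ)

/-- The request made at stage `n`. -/
def req (n : ℕ) : Option (ℕ × ℕ) :=
  (asg c D d n).bind fun q =>
    if wt (hist c D d n) (str n).length q * 2 ^ (d + q.1.length + 1) ≤ 4 ^ (str n).length ∧
      4 ^ (str n).length < wt (hist c D d (n + 1)) (str n).length q * 2 ^ (d + q.1.length + 1)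
    then some (d + q.1.length + 1, encode q.2) else none

theorem req_cond (n : ℕ) (q : List Bool × List Bool) :
    (wt (hist c D d n) (str n).length q * 2 ^ (d + q.1.length + 1) ≤ 4 ^ (str n).length ∧
      4 ^ (str n).length < wt (hist c D d (n + 1)) (str n).length q * 2 ^ (d + q.1.length + 1)) ↔
    (W c D d n q ≤ (2 : ℝ)⁻¹ ^ (d + q.1.length + 1) ∧
      (2 : ℝ)⁻¹ ^ (d + q.1.length + 1) < W c D d (n + 1) q) := by
  have p1 : (0 : ℝ) < 4 ^ (str n).length := by positivity
  have p2 : (0 : ℝ) < 2 ^ (d + q.1.length + 1) := by positivity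
  have w1 := wt_eq c D d (n := n) (t := (str n).length) (fun s hs => str_length_mono hs.le) q
  have w2 := wt_eq c D d (n := n + 1) (t := (str n).length)
    (fun s hs => str_length_mono (Nat.lt_succ_iff.1 hs)) q
  have e1 : (wt (hist c D d n) (str n).length q * 2 ^ (d + q.1.length + 1) ≤ 4 ^ (str n).length) ↔
      W c D d n q ≤ (2 : ℝ)⁻¹ ^ (d + q.1.length + 1) := by
    rw [inv_pow, ← one_div, le_div_iff₀ p2]
    have : (wt (hist c D d n) (str n).length q * 2 ^ (d + q.1.length + 1) ≤
        4 ^ (str n).length) ↔ ((wt (hist c D d n) (str n).length q : ℝ) *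
          2 ^ (d + q.1.length + 1) ≤ 4 ^ (str n).length) := by exact_mod_cast Iff.rfl
    rw [this, w1, mul_assoc]
    constructor
    · intro h
      by_contra hc
      push Not at hc
      nlinarith
    · intro h
      nlinarith
  have e2 : (4 ^ (str n).length < wt (hist c D d (n + 1)) (str n).length q *
      2 ^ (d + q.1.length + 1)) ↔ (2 : ℝ)⁻¹ ^ (d + q.1.length + 1) < W c D d (n + 1) q := by
    rw [inv_pow, ← one_div, div_lt_iff₀ p2]
    have : (4 ^ (str n).length < wt (hist c D d (n + 1)) (str n).length q *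
        2 ^ (d + q.1.length + 1)) ↔ ((4 : ℝ) ^ (str n).length <
          (wt (hist c D d (n + 1)) (str n).length q : ℝ) * 2 ^ (d + q.1.length + 1)) := by
      exact_mod_cast Iff.rfl
    rw [this, w2, mul_assoc]
    constructor
    · intro h
      by_contra hc
      push Not at hc
      nlinarith
    · intro h
      nlinarith
  rw [e1, e2]

theorem req_iff {n r x : ℕ} : req c D d n = some (r, x) ↔ ∃ q, asg c D d n = some q ∧
    (W c D d n q ≤ (2 : ℝ)⁻¹ ^ (d + q.1.length + 1) ∧
      (2 : ℝ)⁻¹ ^ (d + q.1.length + 1) < W c D d (n + 1) q) ∧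
    r = d + q.1.length + 1 ∧ x = encode q.2 := by
  unfold req
  rw [Option.bind_eq_some_iff]
  constructor
  · rintro ⟨q, hq, h⟩
    split_ifs at h with hc
    rw [req_cond] at hc
    simp only [Option.some.injEq, Prod.mk.injEq] at h
    exact ⟨q, hq, hc, h.1.symm, h.2.symm⟩
  · rintro ⟨q, hq, hc, rfl, rfl⟩
    refine ⟨q, hq, ?_⟩
    rw [if_pos ((req_cond c D d n q).2 hc)]

/-- The weight of the request at stage `n`. -/
noncomputable def reqWt (n : ℕ) : ℝ := match req c D d n with
  | none => 0
  | some (r, _) => (2 : ℝ)⁻¹ ^ r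

theorem av_req (N : ℕ) : av (req c D d) N = ∑ n ∈ Finset.range N, reqWt c D d n := by
  induction N with
  | zero => simp [av_zero]
  | succ N ih =>
    rw [Finset.sum_range_succ, ← ih]
    rcases h : req c D d N with _ | ⟨r, x⟩
    · rw [av_succ_none _ h]
      simp [reqWt, h]
    · rw [av_succ_some _ h]
      simp [reqWt, h]

theorem av_req_le_one (N : ℕ) : av (req c D d) N ≤ 1 := by
  classical
  rw [av_req]
  -- the stages with a request
  set S := (Finset.range N).filter (fun n => req c D d n ≠ none) with hS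
  set T := (Finset.range N).filter (fun n => asg c D d n ≠ none) with hT
  have h1 : ∑ n ∈ Finset.range N, reqWt c D d n = ∑ n ∈ S, reqWt c D d n := by
    rw [hS, Finset.sum_filter]
    apply Finset.sum_congr rfl
    intro n _
    by_cases h : req c D d n = none
    · simp [h, reqWt]
    · simp [h]
  have h2 : ∀ n ∈ S, reqWt c D d n ≤
      ∑ s ∈ T, if asg c D d s = asg c D d n then (4 : ℝ)⁻¹ ^ (str s).length else 0 := by
    intro n hn
    rw [hS, Finset.mem_filter, Finset.mem_range] at hn
    obtain ⟨⟨r, x⟩, hrx⟩ := Option.ne_none_iff_exists'.1 hn.2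
    obtain ⟨q, hq, ⟨-, hlt⟩, rfl, rfl⟩ := (req_iff c D d).1 hrx
    have e1 : reqWt c D d n = (2 : ℝ)⁻¹ ^ (d + q.1.length + 1) := by simp [reqWt, hrx]
    rw [e1]
    refine hlt.le.trans ?_
    rw [W, ← Finset.sum_filter]
    apply Finset.sum_le_sum_of_subset_of_nonneg
    · intro s hs
      simp only [hT, Finset.mem_filter, Finset.mem_range] at hs ⊢
      refine ⟨⟨by omega, ?_⟩, ?_⟩
      · rw [hs.2]; simp
      · rw [hs.2, hq]
    · intro s _ _
      positivity
  have h3 : ∑ n ∈ S, ∑ s ∈ T, (if asg c D d s = asg c D d n then (4 : ℝ)⁻¹ ^ (str s).length else 0)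
      ≤ ∑ s ∈ T, (4 : ℝ)⁻¹ ^ (str s).length := by
    rw [Finset.sum_comm]
    apply Finset.sum_le_sum
    intro s hs
    rw [← Finset.sum_filter, Finset.sum_const, nsmul_eq_mul]
    have hcard : (S.filter fun n => asg c D d s = asg c D d n).card ≤ 1 := by
      rw [Finset.card_le_one]
      intro n hn n' hn'
      simp only [hS, Finset.mem_filter, Finset.mem_range] at hn hn'
      obtain ⟨⟨r, x⟩, hrx⟩ := Option.ne_none_iff_exists'.1 hn.1.2
      obtain ⟨q, hq, ⟨ha, hb⟩, -, -⟩ := (req_iff c D d).1 hrx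
      obtain ⟨⟨r', x'⟩, hrx'⟩ := Option.ne_none_iff_exists'.1 hn'.1.2
      obtain ⟨q', hq', ⟨ha', hb'⟩, -, -⟩ := (req_iff c D d).1 hrx'
      have hqq : q = q' := by
        have : some q = some q' := by rw [← hq, ← hq', ← hn.2, hn'.2]
        exact Option.some.inj this
      subst hqq
      rcases lt_trichotomy n n' with hlt | heq | hgt
      · exfalso
        have := W_mono c D d (show n + 1 ≤ n' by omega) q
        linarith
      · exact heq
      · exfalso
        have := W_mono c D d (show n' + 1 ≤ n by omega) q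
        linarith
    have hp : (0 : ℝ) ≤ (4 : ℝ)⁻¹ ^ (str s).length := by positivity
    have hc' : ((S.filter fun n => asg c D d s = asg c D d n).card : ℝ) ≤ 1 := by
      exact_mod_cast hcard
    nlinarith
  have h4 : ∑ s ∈ T, (4 : ℝ)⁻¹ ^ (str s).length ≤ 1 := by
    apply sum_incomparable_le_one
    intro i hi j hj hij
    simp only [hT, Finset.mem_filter, Finset.mem_range] at hi hj
    exact asg_incomparable c D d hi.2 hj.2 hij
  calc ∑ n ∈ Finset.range N, reqWt c D d n = ∑ n ∈ S, reqWt c D d n := h1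
    _ ≤ ∑ n ∈ S, ∑ s ∈ T, (if asg c D d s = asg c D d n then (4 : ℝ)⁻¹ ^ (str s).length else 0) :=
        Finset.sum_le_sum h2
    _ ≤ _ := h3
    _ ≤ 1 := h4

theorem exists_req {N : ℕ} {q : List Bool × List Bool}
    (h : (2 : ℝ)⁻¹ ^ (d + q.1.length + 1) < W c D d N q) :
    ∃ n, req c D d n = some (d + q.1.length + 1, encode q.2) := by
  classical
  have hex : ∃ N, (2 : ℝ)⁻¹ ^ (d + q.1.length + 1) < W c D d N q := ⟨N, h⟩
  obtain ⟨n, hn⟩ : ∃ n, Nat.find hex = n + 1 := by
    refine ⟨Nat.find hex - 1, ?_⟩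
    have : Nat.find hex ≠ 0 := by
      intro h0
      have h1 := Nat.find_spec hex
      rw [h0] at h1
      have h2 : W c D d 0 q = 0 := by simp [W]
      rw [h2] at h1
      have : (0 : ℝ) < (2 : ℝ)⁻¹ ^ (d + q.1.length + 1) := by positivity
      linarith
    omega
  have h1 : (2 : ℝ)⁻¹ ^ (d + q.1.length + 1) < W c D d (n + 1) q := by
    rw [← hn]; exact Nat.find_spec hex
  have h2 : W c D d n q ≤ (2 : ℝ)⁻¹ ^ (d + q.1.length + 1) :=
    not_lt.1 (Nat.find_min hex (show n < Nat.find hex by omega))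
  have h3 : asg c D d n = some q := by
    by_contra hc
    rw [W_succ_other c D d hc] at h1
    linarith
  exact ⟨n, (req_iff c D d).2 ⟨q, h3, ⟨h2, h1⟩, rfl, rfl⟩⟩

variable {D}

theorem primrec_req (hD : Primrec D) : Primrec (req c D d) := by
  have ha : Primrec fun n => asg c D d n := (primrec_asg c hD).comp (Primrec.const d) Primrec.id
  have hh : Primrec fun n => hist c D d n := (primrec_hist c hD).comp (Primrec.const d) Primrec.id
  have q2 : Primrec fun z : ℕ × (List Bool × List Bool) => (str z.1).length :=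
    Primrec.list_length.comp (primrec_str.comp Primrec.fst)
  have q3 : Primrec fun z : ℕ × (List Bool × List Bool) => d + z.2.1.length + 1 :=
    Primrec.succ.comp (Primrec.nat_add.comp (Primrec.const d)
      (Primrec.list_length.comp (Primrec.fst.comp Primrec.snd)))
  have w1 : Primrec fun z : ℕ × (List Bool × List Bool) =>
      wt (hist c D d z.1) (str z.1).length z.2 :=
    primrec_wt.comp (Primrec.pair (hh.comp Primrec.fst) (Primrec.pair q2 Primrec.snd))
  have w2 : Primrec fun z : ℕ × (List Bool × List Bool) =>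
      wt (hist c D d (z.1 + 1)) (str z.1).length z.2 :=
    primrec_wt.comp (Primrec.pair (hh.comp (Primrec.succ.comp Primrec.fst))
      (Primrec.pair q2 Primrec.snd))
  have two : Primrec fun _ : ℕ × (List Bool × List Bool) => 2 := Primrec.const 2
  have four : Primrec fun _ : ℕ × (List Bool × List Bool) => 4 := Primrec.const 4
  have c1 := Primrec.nat_le.comp (Primrec.nat_mul.comp w1 (primrec_pow.comp two q3))
    (primrec_pow.comp four q2)
  have c2 := Primrec.nat_lt.comp (primrec_pow.comp four q2)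
    (Primrec.nat_mul.comp w2 (primrec_pow.comp two q3))
  have hi : Primrec₂ fun (n : ℕ) (q : List Bool × List Bool) =>
    (if wt (hist c D d n) (str n).length q * 2 ^ (d + q.1.length + 1) ≤ 4 ^ (str n).length ∧
      4 ^ (str n).length < wt (hist c D d (n + 1)) (str n).length q * 2 ^ (d + q.1.length + 1)
    then some (d + q.1.length + 1, encode q.2) else none : Option (ℕ × ℕ)) := by
    refine Primrec.ite (c1.and c2) ?_ (Primrec.const none)
    exact Primrec.option_some.comp (Primrec.pair q3
      (Primrec.encode.comp (Primrec.snd.comp Primrec.snd)))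
  exact Primrec.option_bind ha hi

end

/-- A universal machine describes every number. -/
theorem IsUniversal.exists_descr {U : List Bool →. ℕ} (hU : IsUniversal U) (x : ℕ) :
    ∃ σ, x ∈ U σ := by
  let r : ℕ → Option (ℕ × ℕ) := fun n => some (n + 1, n)
  have hr : Primrec r := Primrec.option_some.comp (Primrec.pair Primrec.succ Primrec.id)
  have hav : ∀ n, av r n = 1 - (2 : ℝ)⁻¹ ^ n := by
    intro n
    induction n with
    | zero => simp [av_zero]
    | succ n ih =>
      rw [av_succ_some r (n := n) (r := n + 1) (x := n) rfl, ih, pow_succ]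
      ring
  obtain ⟨M, hM, h⟩ := kraftChaitin hr (fun n => by
    rw [hav]
    have : (0 : ℝ) < (2 : ℝ)⁻¹ ^ n := by positivity
    linarith)
  obtain ⟨σ, -, hσ⟩ := h x (x + 1) x rfl
  obtain ⟨c, hc⟩ := hU.universal M hM
  obtain ⟨τ, hτ, -⟩ := hc σ x hσ
  exact ⟨τ, hτ⟩

/-- If the run with parameter `d` never feeds an initial segment of `P`, and `D` decodes `A` along
`P`, then `A` is K-trivial. -/
theorem kTrivial_of_not_fed {U : List Bool →. ℕ} (hU : IsUniversal U) {c : Code}
    (hc : ∀ σ x, x ∈ U σ ↔ ∃ n, us c n σ = some x)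
    {D : List (Bool × Bool) → List Bool} (hD : Primrec D) {P : ℕ → Bool × Bool} {A : ℕ → Bool}
    (hsound : ∀ N, ∃ j, D (res P N) = res A j)
    (hcomp : ∀ i, ∃ N0, ∀ N ≥ N0, i ≤ (D (res P N)).length)
    {d : ℕ} (hnot : ∀ n, str n = res P (str n).length → asg c D d n = none) :
    KTrivial U A := by
  obtain ⟨M, hM, hMd⟩ := kraftChaitin (primrec_req c d hD) (av_req_le_one c D d)
  obtain ⟨cM, hcM⟩ := hU.universal M hM
  refine ⟨d + 2 + cM, fun m => ?_⟩
  -- a shortest description of `m`
  have hne : {n | ∃ σ : List Bool, σ.length = n ∧ m ∈ U σ}.Nonempty := by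
    obtain ⟨σ, hσ⟩ := hU.exists_descr m
    exact ⟨_, σ, rfl, hσ⟩
  obtain ⟨σ, hσl, hσ⟩ := Nat.sInf_mem hne
  have hK : σ.length = K U m := hσl
  obtain ⟨n0, hn0⟩ := (hc σ m).1 hσ
  obtain ⟨N0, hN0⟩ := hcomp m
  set N := N0 + n0 + encode σ + 1 + (d + σ.length + 1) with hN
  obtain ⟨n, hn⟩ := str_surjective (res P N)
  have hlen : (str n).length = N := by rw [hn]; simp
  have hNn : N ≤ n := by rw [← hlen]; exact str_length_le n
  have hDlen : m ≤ (D (str n)).length := by rw [hn]; exact hN0 N (by omega)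
  have htake : (D (str n)).take m = res A m := by
    obtain ⟨j, hj⟩ := hsound N
    rw [hn, hj]
    rw [hn, hj, res_length] at hDlen
    exact res_take A hDlen
  have hself : ∀ s, str s <+: str n → asg c D d s = none := by
    intro s hs
    apply hnot
    have hle : (str s).length ≤ N := by rw [← hlen]; exact hs.length_le
    rw [hn, List.prefix_iff_eq_take, res_take P hle] at hs
    exact hs
  have hnone : asg c D d n = none := hself n (List.prefix_refl _)
  have hlt : (2 : ℝ)⁻¹ ^ (d + σ.length + 1) < W c D d n (σ, res A m) := by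
    by_contra hcon
    push Not at hcon
    apply asg_ne_none c D d (n := n) (m := m) (σ := σ) (fun s _ h => hself s h) (by omega)
      (us_mono hn0 (by omega)) hDlen _ hnone
    rw [htake, hlen]
    have h1 : (4 : ℝ)⁻¹ ^ N ≤ (2 : ℝ)⁻¹ ^ (d + σ.length + 1) := by
      calc (4 : ℝ)⁻¹ ^ N ≤ (2 : ℝ)⁻¹ ^ N := by
            apply pow_le_pow_left₀ (by norm_num)
            norm_num
        _ ≤ (2 : ℝ)⁻¹ ^ (d + σ.length + 1) :=
            pow_le_pow_of_le_one (by norm_num) (by norm_num) (by omega)
    have h2 : (2 : ℝ)⁻¹ ^ (d + σ.length) = 2 * (2 : ℝ)⁻¹ ^ (d + σ.length + 1) := by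
      rw [pow_succ]; ring
    rw [h2]
    linarith
  obtain ⟨k, hk⟩ := exists_req c D d (q := (σ, res A m)) hlt
  obtain ⟨ρ, hρl, hρ⟩ := hMd k _ _ hk
  obtain ⟨τ, hτ, hτl⟩ := hcM ρ _ hρ
  have : K U (encode (res A m)) ≤ τ.length := Nat.sInf_le ⟨τ, rfl, hτ⟩
  simp only at hρl
  omega

end Pool.Agent.AlgRandom
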