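import Mathlib
import Pool.Agent.AlgRandom.Saturation
import Pool.Agent.AlgRandom.NormalForm

/-!
# The two tests

If the pair `(B, Z)` were fed in all runs, then either `B` fails a test relative to `A`, or `Z`
fails a test relative to `A ⊕ B` (this is van Lambalgen's argument for the fed sets).
-/

namespace Pool.Agent.AlgRandom

open Encodable MeasureTheory
open Nat.Partrec (Code)
open scoped ENNReal

variable (c : Code) (D : List (Bool × Bool) → List Bool)

/-- The `n`-th string is fed in run `e`, to a string that is an initial segment of `α`. -/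
def Good (e n : ℕ) (α : List Bool) : Prop :=
  ∃ q ∈ asg c D e n, α.take q.2.length = q.2

instance (e n : ℕ) (α : List Bool) : Decidable (Good c D e n α) := by
  unfold Good; infer_instance

/-- The `n`-th string is fed in run `e`, to a string that is an initial segment of `A`. -/
def GoodA (A : ℕ → Bool) (e n : ℕ) : Prop :=
  ∃ q, asg c D e n = some q ∧ res A q.2.length = q.2

theorem goodA_iff (A : ℕ → Bool) (e n : ℕ) : GoodA c D A e n ↔ ∃ N, Good c D e n (res A N) := by
  constructor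
  · rintro ⟨q, hq, h⟩
    exact ⟨q.2.length, q, hq, by rw [res_take A le_rfl, h]⟩
  · rintro ⟨N, q, hq, h⟩
    refine ⟨q, hq, ?_⟩
    have hlen : q.2.length ≤ N := by
      rw [← h, List.length_take, res_length]
      exact min_le_right _ _
    rw [← res_take A hlen, h]

theorem Good.mono {A : ℕ → Bool} {e n N N' : ℕ} (h : Good c D e n (res A N)) (hN : N ≤ N') :
    Good c D e n (res A N') := by
  obtain ⟨q, hq, h⟩ := h
  refine ⟨q, hq, ?_⟩
  have hlen : q.2.length ≤ N := by
    rw [← h, List.length_take, res_length]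
    exact min_le_right _ _
  rw [res_take A (hlen.trans hN), ← res_take A hlen, h]

variable {c D}

/-! ### Total weight of the strings fed to initial segments of `A` -/

theorem tsum_dom_le_one {U : List Bool →. ℕ} (hU : IsPrefixFreeMachine U) :
    ∑' σ : {σ // (U σ).Dom}, (2 : ℝ≥0∞)⁻¹ ^ (σ : List Bool).length ≤ 1 := by
  have h := tsum_cyl_le_one (fun σ : {σ // (U σ).Dom} => (σ : List Bool)) (by
    intro i j hij h
    exact hij (Subtype.ext (hU.prefixFree i j i.2 j.2 h)))
  simpa using h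

theorem tsum_asg_le (e : ℕ) (q : List Bool × List Bool) :
    ∑' n, (if asg c D e n = some q then (4 : ℝ≥0∞)⁻¹ ^ (str n).length else 0) ≤
      (2 : ℝ≥0∞)⁻¹ ^ (e + q.1.length) := by
  apply ENNReal.tsum_le_of_sum_range_le
  intro N
  have h1 := W_le c D e N q.1 q.2
  have h2 : ∑ n ∈ Finset.range N, (if asg c D e n = some q then (4 : ℝ≥0∞)⁻¹ ^ (str n).length else 0)
      = ENNReal.ofReal (W c D e N q) := by
    rw [W, Finset.sum_filter, ENNReal.ofReal_sum_of_nonneg]
    · apply Finset.sum_congr rfl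
      intro n _
      split_ifs
      · rw [ENNReal.ofReal_pow (by positivity), ENNReal.ofReal_inv_of_pos (by norm_num)]
        norm_num
      · simp
    · intro n _
      split_ifs <;> positivity
  rw [h2]
  calc ENNReal.ofReal (W c D e N q) ≤ ENNReal.ofReal ((2 : ℝ)⁻¹ ^ (e + q.1.length)) :=
        ENNReal.ofReal_le_ofReal h1
    _ = (2 : ℝ≥0∞)⁻¹ ^ (e + q.1.length) := by
        rw [ENNReal.ofReal_pow (by positivity), ENNReal.ofReal_inv_of_pos (by norm_num)]
        norm_num

open Classical in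
theorem tsum_goodA_le {U : List Bool →. ℕ} (hU : IsPrefixFreeMachine U)
    (hc : ∀ σ x, x ∈ U σ ↔ ∃ n, us c n σ = some x) (A : ℕ → Bool) (e : ℕ) :
    ∑' n, (if GoodA c D A e n then (4 : ℝ≥0∞)⁻¹ ^ (str n).length else 0) ≤
      (2 : ℝ≥0∞)⁻¹ ^ e := by
  -- the value of the machine
  have hstep : ∀ n, (if GoodA c D A e n then (4 : ℝ≥0∞)⁻¹ ^ (str n).length else 0) ≤
      ∑' σ : {σ // (U σ).Dom},
        (if asg c D e n = some ((σ : List Bool), res A ((U σ).get σ.2)) then
          (4 : ℝ≥0∞)⁻¹ ^ (str n).length else 0) := by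
    intro n
    split_ifs with hG
    · obtain ⟨⟨σ, τ⟩, hq, hτ⟩ := hG
      obtain ⟨-, m, hm, hτ', hmle, -⟩ := asg_spec c D e hq
      have hmU : m ∈ U σ := (hc σ m).2 ⟨n, hm⟩
      have hdom : (U σ).Dom := Part.dom_iff_mem.2 ⟨m, hmU⟩
      have hget : (U σ).get hdom = m := Part.get_eq_of_mem hmU hdom
      have hlen : τ.length = m := by
        rw [hτ', List.length_take]; omega
      simp only at hτ
      rw [hlen] at hτ
      refine le_trans ?_ (ENNReal.le_tsum (⟨σ, hdom⟩ : {σ // (U σ).Dom}))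
      simp only
      rw [hget, hτ, if_pos hq]
    · exact zero_le
  calc ∑' n, (if GoodA c D A e n then (4 : ℝ≥0∞)⁻¹ ^ (str n).length else 0)
      ≤ ∑' n, ∑' σ : {σ // (U σ).Dom},
        (if asg c D e n = some ((σ : List Bool), res A ((U σ).get σ.2)) then
          (4 : ℝ≥0∞)⁻¹ ^ (str n).length else 0) := ENNReal.tsum_le_tsum hstep
    _ = ∑' σ : {σ // (U σ).Dom}, ∑' n,
        (if asg c D e n = some ((σ : List Bool), res A ((U σ).get σ.2)) then
          (4 : ℝ≥0∞)⁻¹ ^ (str n).length else 0) := ENNReal.tsum_comm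
    _ ≤ ∑' σ : {σ // (U σ).Dom}, (2 : ℝ≥0∞)⁻¹ ^ (e + (σ : List Bool).length) :=
        ENNReal.tsum_le_tsum fun σ => tsum_asg_le e _
    _ = (2 : ℝ≥0∞)⁻¹ ^ e * ∑' σ : {σ // (U σ).Dom}, (2 : ℝ≥0∞)⁻¹ ^ (σ : List Bool).length := by
        rw [← ENNReal.tsum_mul_left]
        simp_rw [pow_add]
    _ ≤ (2 : ℝ≥0∞)⁻¹ ^ e * 1 := by gcongr; exact tsum_dom_le_one hU
    _ = (2 : ℝ≥0∞)⁻¹ ^ e := mul_one _

/-! ### The section function -/

open Classical in
/-- The sum of the lengths of the sections above `Y`. -/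
noncomputable def sect (c : Code) (D : List (Bool × Bool) → List Bool) (A : ℕ → Bool) (e : ℕ)
    (Y : ℕ → Bool) : ℝ≥0∞ :=
  ∑' n, (if GoodA c D A e n ∧ Y ∈ cyl ((str n).map Prod.fst) then
    (2 : ℝ≥0∞)⁻¹ ^ (str n).length else 0)

theorem lintegral_sect_le {U : List Bool →. ℕ} (hU : IsPrefixFreeMachine U)
    (hc : ∀ σ x, x ∈ U σ ↔ ∃ n, us c n σ = some x) (A : ℕ → Bool) (e : ℕ) :
    ∫⁻ Y, sect c D A e Y ∂lebesgue ≤ (2 : ℝ≥0∞)⁻¹ ^ e := by
  classical
  have h1 : ∀ n Y, (if GoodA c D A e n ∧ Y ∈ cyl ((str n).map Prod.fst) then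
      (2 : ℝ≥0∞)⁻¹ ^ (str n).length else 0) =
      (cyl ((str n).map Prod.fst)).indicator
        (fun _ => if GoodA c D A e n then (2 : ℝ≥0∞)⁻¹ ^ (str n).length else 0) Y := by
    intro n Y
    by_cases hG : GoodA c D A e n <;> by_cases hY : Y ∈ cyl ((str n).map Prod.fst) <;>
      simp [hG, hY]
  unfold sect
  simp_rw [h1]
  rw [lintegral_tsum]
  · refine le_trans (ENNReal.tsum_le_tsum fun n => ?_) (tsum_goodA_le (D := D) hU hc A e)
    rw [lintegral_indicator_const (measurableSet_cyl _), lebesgue_cyl, List.length_map]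
    split_ifs
    · rw [← mul_pow, ← ENNReal.mul_inv (Or.inl (by norm_num)) (Or.inl (by norm_num))]
      norm_num
    · simp
  · intro n
    exact (measurable_const.indicator (measurableSet_cyl _)).aemeasurable

theorem markov_sect {U : List Bool →. ℕ} (hU : IsPrefixFreeMachine U)
    (hc : ∀ σ x, x ∈ U σ ↔ ∃ n, us c n σ = some x) (A : ℕ → Bool) (d : ℕ) :
    lebesgue {Y | (2 : ℝ≥0∞)⁻¹ ^ d < sect c D A (2 * d) Y} ≤ (2 : ℝ≥0∞)⁻¹ ^ d := by
  classical
  have hmeas : AEMeasurable (sect c D A (2 * d)) lebesgue := by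
    unfold sect
    apply AEMeasurable.tsum
    intro n
    apply Measurable.aemeasurable
    apply Measurable.ite _ measurable_const measurable_const
    by_cases hG : GoodA c D A (2 * d) n
    · simpa [hG] using measurableSet_cyl ((str n).map Prod.fst)
    · simp [hG]
  have h1 := mul_meas_ge_le_lintegral₀ hmeas ((2 : ℝ≥0∞)⁻¹ ^ d)
  have h2 := h1.trans (lintegral_sect_le hU hc A (2 * d))
  have hpos : (2 : ℝ≥0∞)⁻¹ ^ d ≠ 0 := by simp
  have htop : (2 : ℝ≥0∞)⁻¹ ^ d ≠ ∞ := by
    apply ENNReal.pow_ne_top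
    simp
  have h3 : (2 : ℝ≥0∞)⁻¹ ^ (2 * d) = (2 : ℝ≥0∞)⁻¹ ^ d * (2 : ℝ≥0∞)⁻¹ ^ d := by
    rw [two_mul, pow_add]
  rw [h3] at h2
  have h4 := (ENNReal.mul_le_mul_iff_right hpos htop).1 h2
  refine le_trans (measure_mono ?_) h4
  intro Y hY
  rw [Set.mem_ofPred_eq] at hY ⊢
  exact hY.le

/-! ### The first test -/

/-- `2 ^ |β|` times the weight of the strings of index below `|β|` that are fed to an initial
segment of `α` and whose first projection is an initial segment of `β`. -/
def wsum (c : Code) (D : List (Bool × Bool) → List Bool) (e : ℕ) (α β : List Bool) : ℕ :=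
  ((List.range β.length).filter fun n =>
      decide (Good c D e n α ∧ β.take (str n).length = (str n).map Prod.fst)).foldl
    (fun acc n => acc + 2 ^ (β.length - (str n).length)) 0

/-- The relation behind the first test. -/
def testOne (c : Code) (D : List (Bool × Bool) → List Bool) (x : ℕ × List Bool)
    (y : ℕ × List Bool) : Bool :=
  decide (x.1 + 1 ≤ y.1 ∧ 2 ^ x.2.length < wsum c D (2 * y.1) y.2 x.2 * 2 ^ y.1)

/-- The first test. -/
def testOneSet (c : Code) (D : List (Bool × Bool) → List Bool) (A : ℕ → Bool) (k : ℕ) :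
    Set (List Bool) :=
  {β | ∃ n : ℕ, testOne c D (k, β) (n.unpair.1, res A n.unpair.2) = true}

theorem two_pow_mul_inv_pow {N t : ℕ} (h : t ≤ N) :
    (2 : ℝ≥0∞) ^ N * (2 : ℝ≥0∞)⁻¹ ^ t = 2 ^ (N - t) := by
  obtain ⟨s, rfl⟩ := Nat.exists_eq_add_of_le h
  rw [Nat.add_sub_cancel_left, pow_add, mul_comm ((2 : ℝ≥0∞) ^ t), mul_assoc, ← mul_pow,
    ENNReal.mul_inv_cancel (by norm_num) (by norm_num), one_pow, mul_one]

open Classical in
theorem wsum_eq (e N' N : ℕ) (A Y : ℕ → Bool) :
    (wsum c D e (res A N') (res Y N) : ℝ≥0∞) = 2 ^ N * ∑ n ∈ Finset.range N,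
      (if Good c D e n (res A N') ∧ Y ∈ cyl ((str n).map Prod.fst) then
        (2 : ℝ≥0∞)⁻¹ ^ (str n).length else 0) := by
  have h2 : ∀ L : List ℕ, ∀ a : ℕ, L.foldl (fun acc s => acc + 2 ^ (N - (str s).length)) a =
      a + (L.map fun s => 2 ^ (N - (str s).length)).sum := by
    intro L
    induction L with
    | nil => intro a; simp
    | cons x L ih => intro a; simp [ih, add_assoc]
  have h1 : wsum c D e (res A N') (res Y N) =
      (((List.range N).filter fun n =>
        decide (Good c D e n (res A N') ∧ Y ∈ cyl ((str n).map Prod.fst))).map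
          fun s => 2 ^ (N - (str s).length)).sum := by
    unfold wsum
    rw [res_length, h2, zero_add]
    congr 2
    apply List.filter_congr
    intro n hn
    rw [List.mem_range] at hn
    have hle : (str n).length ≤ N := (str_length_le n).trans hn.le
    rw [res_take Y hle]
    simp [mem_cyl]
  have h3 : ((List.range N).filter fun n =>
      decide (Good c D e n (res A N') ∧ Y ∈ cyl ((str n).map Prod.fst))).Nodup :=
    List.Nodup.filter _ List.nodup_range
  have h4 : (((List.range N).filter fun n =>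
      decide (Good c D e n (res A N') ∧ Y ∈ cyl ((str n).map Prod.fst))).toFinset) =
      (Finset.range N).filter (fun n =>
        Good c D e n (res A N') ∧ Y ∈ cyl ((str n).map Prod.fst)) := by
    ext s
    simp
  rw [h1, ← List.sum_toFinset _ h3, h4, ← Finset.sum_filter, Finset.mul_sum]
  push_cast
  apply Finset.sum_congr rfl
  intro n hn
  rw [Finset.mem_filter, Finset.mem_range] at hn
  rw [two_pow_mul_inv_pow ((str_length_le n).trans hn.1.le)]

theorem lt_sect_of_mem {A : ℕ → Bool} {k : ℕ} {β : List Bool} {Y : ℕ → Bool}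
    (hβ : β ∈ testOneSet c D A k) (hY : Y ∈ cyl β) :
    ∃ j, (2 : ℝ≥0∞)⁻¹ ^ (k + 1 + j) < sect c D A (2 * (k + 1 + j)) Y := by
  classical
  obtain ⟨n, hn⟩ := hβ
  rw [testOne, decide_eq_true_eq] at hn
  obtain ⟨h1, h2⟩ := hn
  simp only at h1 h2
  set d := n.unpair.1 with hd
  set N' := n.unpair.2
  obtain ⟨j, hj⟩ := Nat.exists_eq_add_of_le h1
  refine ⟨j, ?_⟩
  rw [← hj]
  set N := β.length with hN
  have hβ' : β = res Y N := (mem_cyl.1 hY).symm
  have h3 : (2 : ℝ≥0∞) ^ N < (wsum c D (2 * d) (res A N') (res Y N) : ℝ≥0∞) * 2 ^ d := by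
    rw [← hβ']
    exact_mod_cast h2
  rw [wsum_eq] at h3
  have h4 : ∑ n ∈ Finset.range N,
      (if Good c D (2 * d) n (res A N') ∧ Y ∈ cyl ((str n).map Prod.fst) then
        (2 : ℝ≥0∞)⁻¹ ^ (str n).length else 0) ≤ sect c D A (2 * d) Y := by
    unfold sect
    refine le_trans (Finset.sum_le_sum fun n _ => ?_) (ENNReal.sum_le_tsum (Finset.range N))
    by_cases hg : Good c D (2 * d) n (res A N') ∧ Y ∈ cyl ((str n).map Prod.fst)
    · rw [if_pos hg, if_pos ⟨(goodA_iff c D A _ n).2 ⟨N', hg.1⟩, hg.2⟩]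
    · rw [if_neg hg]
      exact zero_le
  have h5 : (2 : ℝ≥0∞) ^ N < 2 ^ N * sect c D A (2 * d) Y * 2 ^ d := by
    refine lt_of_lt_of_le h3 ?_
    gcongr
  by_contra hc
  push Not at hc
  have h6 : (2 : ℝ≥0∞) ^ N * sect c D A (2 * d) Y * 2 ^ d ≤ 2 ^ N := by
    calc (2 : ℝ≥0∞) ^ N * sect c D A (2 * d) Y * 2 ^ d
        ≤ 2 ^ N * (2 : ℝ≥0∞)⁻¹ ^ d * 2 ^ d := by gcongr
      _ = 2 ^ N := by
          rw [mul_assoc, ← mul_pow, ENNReal.inv_mul_cancel (by norm_num) (by norm_num), one_pow,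
            mul_one]
  exact absurd h5 (not_lt.2 h6)

theorem mem_testOne_of_lt {A : ℕ → Bool} {k d : ℕ} {Y : ℕ → Bool} (hd : k + 1 ≤ d)
    (h : (2 : ℝ≥0∞)⁻¹ ^ d < sect c D A (2 * d) Y) : Y ∈ openOf (testOneSet c D A k) := by
  classical
  unfold sect at h
  rw [ENNReal.tsum_eq_iSup_nat, lt_iSup_iff] at h
  obtain ⟨N, hN⟩ := h
  -- a common bound for the initial segments of `A`
  obtain ⟨N', hN'⟩ : ∃ N', ∀ n < N, GoodA c D A (2 * d) n → Good c D (2 * d) n (res A N') := by
    clear hN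
    induction N with
    | zero => exact ⟨0, fun n hn => absurd hn (Nat.not_lt_zero _)⟩
    | succ N ih =>
      obtain ⟨M, hM⟩ := ih
      by_cases hG : GoodA c D A (2 * d) N
      · obtain ⟨M', hM'⟩ := (goodA_iff c D A _ N).1 hG
        refine ⟨max M M', fun n hn hg => ?_⟩
        rcases Nat.lt_succ_iff_lt_or_eq.1 hn with hn | rfl
        · exact (hM n hn hg).mono _ _ (le_max_left _ _)
        · exact hM'.mono _ _ (le_max_right _ _)
      · refine ⟨M, fun n hn hg => ?_⟩
        rcases Nat.lt_succ_iff_lt_or_eq.1 hn with hn | rfl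
        · exact hM n hn hg
        · exact absurd hg hG
  have hsum : ∑ n ∈ Finset.range N,
      (if GoodA c D A (2 * d) n ∧ Y ∈ cyl ((str n).map Prod.fst) then
        (2 : ℝ≥0∞)⁻¹ ^ (str n).length else 0) = ∑ n ∈ Finset.range N,
      (if Good c D (2 * d) n (res A N') ∧ Y ∈ cyl ((str n).map Prod.fst) then
        (2 : ℝ≥0∞)⁻¹ ^ (str n).length else 0) := by
    apply Finset.sum_congr rfl
    intro n hn
    rw [Finset.mem_range] at hn
    have : GoodA c D A (2 * d) n ↔ Good c D (2 * d) n (res A N') :=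
      ⟨hN' n hn, fun h => (goodA_iff c D A _ n).2 ⟨N', h⟩⟩
    simp only [this]
  rw [hsum] at hN
  have h1 : (2 : ℝ≥0∞) ^ N < (wsum c D (2 * d) (res A N') (res Y N) : ℝ≥0∞) * 2 ^ d := by
    rw [wsum_eq]
    have hpos : (2 : ℝ≥0∞) ^ N ≠ 0 := by simp
    have htop : (2 : ℝ≥0∞) ^ N ≠ ∞ := by simp
    have hpos' : (2 : ℝ≥0∞) ^ d ≠ 0 := by simp
    have htop' : (2 : ℝ≥0∞) ^ d ≠ ∞ := by simp
    calc (2 : ℝ≥0∞) ^ N = 2 ^ N * (2 : ℝ≥0∞)⁻¹ ^ d * 2 ^ d := by
          rw [mul_assoc, ← mul_pow, ENNReal.inv_mul_cancel (by norm_num) (by norm_num), one_pow,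
            mul_one]
      _ < _ := by
          rw [ENNReal.mul_lt_mul_iff_left hpos' htop', ENNReal.mul_lt_mul_iff_right hpos htop]
          exact hN
  have h2 : 2 ^ N < wsum c D (2 * d) (res A N') (res Y N) * 2 ^ d := by exact_mod_cast h1
  refine Set.mem_biUnion (x := res Y N) ?_ (res_mem_cyl Y N)
  refine ⟨Nat.pair d N', ?_⟩
  rw [testOne, decide_eq_true_eq]
  simp only [Nat.unpair_pair, res_length]
  exact ⟨hd, h2⟩

theorem measure_testOne_le {U : List Bool →. ℕ} (hU : IsPrefixFreeMachine U)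
    (hc : ∀ σ x, x ∈ U σ ↔ ∃ n, us c n σ = some x) (A : ℕ → Bool) (k : ℕ) :
    lebesgue (openOf (testOneSet c D A k)) ≤ (2 : ℝ≥0∞)⁻¹ ^ k := by
  have hsub : openOf (testOneSet c D A k) ⊆
      ⋃ j, {Y | (2 : ℝ≥0∞)⁻¹ ^ (k + 1 + j) < sect c D A (2 * (k + 1 + j)) Y} := by
    intro Y hY
    obtain ⟨β, hβ, hY⟩ := Set.mem_iUnion₂.1 hY
    obtain ⟨j, hj⟩ := lt_sect_of_mem hβ hY
    exact Set.mem_iUnion.2 ⟨j, hj⟩
  calc lebesgue (openOf (testOneSet c D A k))
      ≤ lebesgue (⋃ j, {Y | (2 : ℝ≥0∞)⁻¹ ^ (k + 1 + j) < sect c D A (2 * (k + 1 + j)) Y}) :=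
        measure_mono hsub
    _ ≤ ∑' j, lebesgue {Y | (2 : ℝ≥0∞)⁻¹ ^ (k + 1 + j) < sect c D A (2 * (k + 1 + j)) Y} :=
        measure_iUnion_le _
    _ ≤ ∑' j, (2 : ℝ≥0∞)⁻¹ ^ (k + 1 + j) := ENNReal.tsum_le_tsum fun j => markov_sect hU hc A _
    _ = (2 : ℝ≥0∞)⁻¹ ^ k * ∑' j, (2 : ℝ≥0∞)⁻¹ ^ (j + 1) := by
        rw [← ENNReal.tsum_mul_left]
        congr 1
        funext j
        rw [← pow_add]
        congr 1
        ring
    _ = (2 : ℝ≥0∞)⁻¹ ^ k := by
        rw [ENNReal.tsum_geometric_add_one, ENNReal.one_sub_inv_two, inv_inv,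
          ENNReal.inv_mul_cancel (by norm_num) (by norm_num), mul_one]

/-! ### Computability of the tests -/

theorem ComputableIn.comp_nat {O : Set (ℕ →. ℕ)} {γ : Type} [Primcodable γ] {f : ℕ → γ}
    (hf : ComputableIn O f) {g : ℕ → ℕ} (hg : Computable g) : ComputableIn O fun n => f (g n) := by
  refine computableIn_of_nat ?_
  refine Nat.RecursiveIn.of_eq (Nat.RecursiveIn.comp (nat_recursiveIn_of_computableIn hf)
    (nat_recursiveIn_computable hg)) fun n => ?_
  exact Part.bind_some _ _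

theorem computableIn_of_computable {O : Set (ℕ →. ℕ)} {γ : Type} [Primcodable γ] {f : ℕ → γ}
    (hf : Computable f) : ComputableIn O f := hf.computableIn

theorem primrec_good (c : Code) {D : List (Bool × Bool) → List Bool} (hD : Primrec D) :
    PrimrecPred fun z : (ℕ × ℕ) × List Bool => Good c D z.1.1 z.1.2 z.2 := by
  have ha : Primrec fun z : (ℕ × ℕ) × List Bool => asg c D z.1.1 z.1.2 :=
    (primrec_asg c hD).comp (Primrec.fst.comp Primrec.fst) (Primrec.snd.comp Primrec.fst)
  have hi : PrimrecPred fun x : ((ℕ × ℕ) × List Bool) × (List Bool × List Bool) =>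
      x.1.2.take x.2.2.length = x.2.2 := by
    have p : Primrec fun x : ((ℕ × ℕ) × List Bool) × (List Bool × List Bool) => x.2.2 :=
      Primrec.snd.comp Primrec.snd
    exact Primrec.eq.comp (Primrec.list_take.comp (Primrec.list_length.comp p)
      (Primrec.snd.comp Primrec.fst)) p
  have hm := Primrec.option_map ha hi.decide.to₂
  have key : PrimrecPred fun z : (ℕ × ℕ) × List Bool =>
      (((asg c D z.1.1 z.1.2).map fun q => decide (z.2.take q.2.length = q.2)).getD false) = true :=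
    Primrec.eq.comp (Primrec.option_getD.comp hm (Primrec.const false)) (Primrec.const true)
  refine PrimrecPred.of_eq key ?_
  rintro ⟨⟨e, n⟩, α⟩
  unfold Good
  simp only
  rcases asg c D e n with _ | q
  · simp
  · simp

theorem primrec_wsum (c : Code) {D : List (Bool × Bool) → List Bool} (hD : Primrec D) :
    Primrec fun z : ℕ × (List Bool × List Bool) => wsum c D z.1 z.2.1 z.2.2 := by
  have hR : PrimrecRel fun (n : ℕ) (z : ℕ × (List Bool × List Bool)) =>
      Good c D z.1 n z.2.1 ∧ z.2.2.take (str n).length = (str n).map Prod.fst := by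
    have p1 : PrimrecPred fun y : ℕ × (ℕ × (List Bool × List Bool)) => Good c D y.2.1 y.1 y.2.2.1 :=
      (primrec_good c hD).comp (Primrec.pair (Primrec.pair (Primrec.fst.comp Primrec.snd)
        Primrec.fst) (Primrec.fst.comp (Primrec.snd.comp Primrec.snd)))
    have ps : Primrec fun y : ℕ × (ℕ × (List Bool × List Bool)) => str y.1 :=
      primrec_str.comp Primrec.fst
    have p2 : PrimrecPred fun y : ℕ × (ℕ × (List Bool × List Bool)) =>
        y.2.2.2.take (str y.1).length = (str y.1).map Prod.fst :=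
      Primrec.eq.comp (Primrec.list_take.comp (Primrec.list_length.comp ps)
        (Primrec.snd.comp (Primrec.snd.comp Primrec.snd)))
        (Primrec.list_map ps (Primrec.fst.comp Primrec.snd).to₂)
    exact p1.and p2
  have h1 : Primrec fun z : ℕ × (List Bool × List Bool) =>
      (List.range z.2.2.length).filter fun n =>
        decide (Good c D z.1 n z.2.1 ∧ z.2.2.take (str n).length = (str n).map Prod.fst) :=
    hR.listFilter.comp (Primrec.list_range.comp (Primrec.list_length.comp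
      (Primrec.snd.comp Primrec.snd))) Primrec.id
  have q2 : Primrec₂ fun (z : ℕ × (List Bool × List Bool)) (p : ℕ × ℕ) =>
      p.1 + 2 ^ (z.2.2.length - (str p.2).length) :=
    Primrec.nat_add.comp (Primrec.fst.comp Primrec.snd)
      (primrec_pow.comp (Primrec.const 2) (Primrec.nat_sub.comp
        (Primrec.list_length.comp (Primrec.snd.comp (Primrec.snd.comp Primrec.fst)))
        (Primrec.list_length.comp (primrec_str.comp (Primrec.snd.comp Primrec.snd)))))
  exact Primrec.list_foldl h1 (Primrec.const 0) q2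

theorem primrec_testOne (c : Code) {D : List (Bool × Bool) → List Bool} (hD : Primrec D) :
    Primrec₂ (testOne c D) := by
  have h1 : PrimrecPred fun z : (ℕ × List Bool) × (ℕ × List Bool) => z.1.1 + 1 ≤ z.2.1 :=
    Primrec.nat_le.comp (Primrec.succ.comp (Primrec.fst.comp Primrec.fst))
      (Primrec.fst.comp Primrec.snd)
  have h2 : PrimrecPred fun z : (ℕ × List Bool) × (ℕ × List Bool) =>
      2 ^ z.1.2.length < wsum c D (2 * z.2.1) z.2.2 z.1.2 * 2 ^ z.2.1 := by
    refine Primrec.nat_lt.comp (primrec_pow.comp (Primrec.const 2)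
      (Primrec.list_length.comp (Primrec.snd.comp Primrec.fst))) ?_
    refine Primrec.nat_mul.comp ?_ (primrec_pow.comp (Primrec.const 2)
      (Primrec.fst.comp Primrec.snd))
    exact (primrec_wsum c hD).comp (Primrec.pair (Primrec.nat_double.comp
      (Primrec.fst.comp Primrec.snd)) (Primrec.pair (Primrec.snd.comp Primrec.snd)
        (Primrec.snd.comp Primrec.fst)))
  exact (h1.and h2).decide

theorem isMLTest_testOne {U : List Bool →. ℕ} (hU : IsPrefixFreeMachine U)
    (hc : ∀ σ x, x ∈ U σ ↔ ∃ n, us c n σ = some x) (hD : Primrec D) (A : ℕ → Bool) :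
    IsMLTest A (testOneSet c D A) where
  re := by
    have hf : ComputableIn {oracle A} fun n : ℕ => (n.unpair.1, res A n.unpair.2) :=
      ComputableIn.natPair (computableIn_of_computable (Computable.fst.comp Computable.unpair))
        (ComputableIn.comp_nat (computableIn_res_self A) (Computable.snd.comp Computable.unpair))
    exact reIn_of_computable (primrec_testOne c hD).to_comp hf
  measure_le := measure_testOne_le hU hc A

theorem sect_le_of_random {U : List Bool →. ℕ} (hU : IsPrefixFreeMachine U)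
    (hc : ∀ σ x, x ∈ U σ ↔ ∃ n, us c n σ = some x) (hD : Primrec D) {A B : ℕ → Bool}
    (hB : MLRandom A B) : ∃ k0, ∀ d, k0 + 1 ≤ d → sect c D A (2 * d) B ≤ (2 : ℝ≥0∞)⁻¹ ^ d := by
  have h := hB _ (isMLTest_testOne (D := D) hU hc hD A)
  rw [Set.mem_iInter] at h
  push Not at h
  obtain ⟨k0, hk0⟩ := h
  refine ⟨k0, fun d hd => ?_⟩
  by_contra hcon
  push Not at hcon
  exact hk0 (mem_testOne_of_lt hd hcon)

/-! ### The second test -/

/-- The relation behind the second test. -/
def testTwo (c : Code) (D : List (Bool × Bool) → List Bool) (k0 : ℕ) (x : ℕ × List Bool)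
    (y : ℕ × (List Bool × List Bool)) : Bool :=
  decide (Good c D (2 * (x.1 + k0 + 1)) y.1 y.2.1 ∧
    (y.2.2.take (str y.1).length = (str y.1).map Prod.fst ∧ x.2 = (str y.1).map Prod.snd))

/-- The second test. -/
def testTwoSet (c : Code) (D : List (Bool × Bool) → List Bool) (A B : ℕ → Bool) (k0 k : ℕ) :
    Set (List Bool) :=
  {ζ | ∃ n : ℕ, testTwo c D k0 (k, ζ) (n.unpair.1, (res A n.unpair.2, res B n.unpair.2)) = true}

theorem mem_testTwo_iff {A B : ℕ → Bool} {k0 k : ℕ} {ζ : List Bool} :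
    ζ ∈ testTwoSet c D A B k0 k ↔ ∃ n, GoodA c D A (2 * (k + k0 + 1)) n ∧
      B ∈ cyl ((str n).map Prod.fst) ∧ ζ = (str n).map Prod.snd := by
  constructor
  · rintro ⟨m, hm⟩
    rw [testTwo, decide_eq_true_eq] at hm
    obtain ⟨h1, h2, h3⟩ := hm
    refine ⟨m.unpair.1, (goodA_iff c D A _ _).2 ⟨_, h1⟩, ?_, h3⟩
    simp only at h2
    have hlen : (str m.unpair.1).length ≤ m.unpair.2 := by
      have := congrArg List.length h2
      rw [List.length_take, res_length, List.length_map] at this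
      omega
    rw [mem_cyl, List.length_map, ← h2, res_take B hlen]
  · rintro ⟨n, h1, h2, h3⟩
    obtain ⟨N, hN⟩ := (goodA_iff c D A _ _).1 h1
    refine ⟨Nat.pair n (max N (str n).length), ?_⟩
    rw [testTwo, decide_eq_true_eq]
    simp only [Nat.unpair_pair]
    refine ⟨hN.mono _ _ (le_max_left _ _), ?_, h3⟩
    rw [res_take B (le_max_right _ _)]
    rw [mem_cyl, List.length_map] at h2
    exact h2

theorem measure_testTwo_le {A B : ℕ → Bool} {k0 : ℕ}
    (h : ∀ d, k0 + 1 ≤ d → sect c D A (2 * d) B ≤ (2 : ℝ≥0∞)⁻¹ ^ d) (k : ℕ) :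
    lebesgue (openOf (testTwoSet c D A B k0 k)) ≤ (2 : ℝ≥0∞)⁻¹ ^ k := by
  classical
  have hsub : openOf (testTwoSet c D A B k0 k) ⊆
      ⋃ n, (if GoodA c D A (2 * (k + k0 + 1)) n ∧ B ∈ cyl ((str n).map Prod.fst) then
        cyl ((str n).map Prod.snd) else ∅) := by
    intro Y hY
    obtain ⟨ζ, hζ, hY⟩ := Set.mem_iUnion₂.1 hY
    obtain ⟨n, h1, h2, rfl⟩ := mem_testTwo_iff.1 hζ
    refine Set.mem_iUnion.2 ⟨n, ?_⟩
    rw [if_pos ⟨h1, h2⟩]
    exact hY
  calc lebesgue (openOf (testTwoSet c D A B k0 k))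
      ≤ lebesgue (⋃ n, (if GoodA c D A (2 * (k + k0 + 1)) n ∧ B ∈ cyl ((str n).map Prod.fst) then
        cyl ((str n).map Prod.snd) else ∅)) := measure_mono hsub
    _ ≤ ∑' n, lebesgue (if GoodA c D A (2 * (k + k0 + 1)) n ∧ B ∈ cyl ((str n).map Prod.fst) then
        cyl ((str n).map Prod.snd) else ∅) := measure_iUnion_le _
    _ = sect c D A (2 * (k + k0 + 1)) B := by
        unfold sect
        congr 1
        funext n
        split_ifs
        · rw [lebesgue_cyl, List.length_map]
        · simp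
    _ ≤ (2 : ℝ≥0∞)⁻¹ ^ (k + k0 + 1) := h _ (by omega)
    _ ≤ (2 : ℝ≥0∞)⁻¹ ^ k := pow_le_pow_of_le_one (by simp) (by simp) (by omega)

theorem primrec_testTwo (c : Code) {D : List (Bool × Bool) → List Bool} (hD : Primrec D)
    (k0 : ℕ) : Primrec₂ (testTwo c D k0) := by
  have pe : Primrec fun z : (ℕ × List Bool) × (ℕ × (List Bool × List Bool)) =>
      2 * (z.1.1 + k0 + 1) :=
    Primrec.nat_double.comp (Primrec.succ.comp (Primrec.nat_add.comp
      (Primrec.fst.comp Primrec.fst) (Primrec.const k0)))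
  have pn : Primrec fun z : (ℕ × List Bool) × (ℕ × (List Bool × List Bool)) => z.2.1 :=
    Primrec.fst.comp Primrec.snd
  have ps := primrec_str.comp pn
  have h1 : PrimrecPred fun z : (ℕ × List Bool) × (ℕ × (List Bool × List Bool)) =>
      Good c D (2 * (z.1.1 + k0 + 1)) z.2.1 z.2.2.1 :=
    (primrec_good c hD).comp (Primrec.pair (Primrec.pair pe pn)
      (Primrec.fst.comp (Primrec.snd.comp Primrec.snd)))
  have h2 : PrimrecPred fun z : (ℕ × List Bool) × (ℕ × (List Bool × List Bool)) =>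
      z.2.2.2.take (str z.2.1).length = (str z.2.1).map Prod.fst :=
    Primrec.eq.comp (Primrec.list_take.comp (Primrec.list_length.comp ps)
      (Primrec.snd.comp (Primrec.snd.comp Primrec.snd)))
      (Primrec.list_map ps (Primrec.fst.comp Primrec.snd).to₂)
  have h3 : PrimrecPred fun z : (ℕ × List Bool) × (ℕ × (List Bool × List Bool)) =>
      z.1.2 = (str z.2.1).map Prod.snd :=
    Primrec.eq.comp (Primrec.snd.comp Primrec.fst)
      (Primrec.list_map ps (Primrec.snd.comp Primrec.snd).to₂)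
  exact (h1.and (h2.and h3)).decide

theorem isMLTest_testTwo (hD : Primrec D) {A B : ℕ → Bool} {k0 : ℕ}
    (h : ∀ d, k0 + 1 ≤ d → sect c D A (2 * d) B ≤ (2 : ℝ≥0∞)⁻¹ ^ d) :
    IsMLTest (join A B) (testTwoSet c D A B k0) where
  re := by
    have hf : ComputableIn {oracle (join A B)} fun n : ℕ =>
        (n.unpair.1, (res A n.unpair.2, res B n.unpair.2)) :=
      ComputableIn.natPair (computableIn_of_computable (Computable.fst.comp Computable.unpair))
        (ComputableIn.comp_nat (computableIn_res_join A B)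
          (Computable.snd.comp Computable.unpair))
    exact reIn_of_computable (primrec_testTwo c hD k0).to_comp hf
  measure_le := measure_testTwo_le h

/-- If `B` is `A`-random and `Z` is `(A ⊕ B)`-random and the decoding function `D` is sound along
`(B, Z)`, then for some `d` the run with parameter `d` never feeds an initial segment of
`(B, Z)`. -/
theorem exists_not_fed {U : List Bool →. ℕ} (hU : IsPrefixFreeMachine U)
    (hc : ∀ σ x, x ∈ U σ ↔ ∃ n, us c n σ = some x) (hD : Primrec D) {A B Z : ℕ → Bool}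
    (hB : MLRandom A B) (hZ : MLRandom (join A B) Z)
    (hsound : ∀ N, ∃ j, D (res (fun n => (B n, Z n)) N) = res A j) :
    ∃ d, ∀ n, str n = res (fun n => (B n, Z n)) (str n).length → asg c D d n = none := by
  obtain ⟨k0, hk0⟩ := sect_le_of_random (D := D) hU hc hD hB
  have h := hZ _ (isMLTest_testTwo hD hk0)
  rw [Set.mem_iInter] at h
  push Not at h
  obtain ⟨k, hk⟩ := h
  refine ⟨2 * (k + k0 + 1), fun n hn => ?_⟩
  by_contra hcon
  obtain ⟨⟨σ, τ⟩, hq⟩ := Option.ne_none_iff_exists'.1 hcon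
  obtain ⟨-, m, -, hτ, hm, -⟩ := asg_spec c D _ hq
  obtain ⟨j, hj⟩ := hsound (str n).length
  rw [← hn] at hj
  rw [hj, res_length] at hm
  rw [hj, res_take A hm] at hτ
  have hfst : (str n).map Prod.fst = res B (str n).length := by
    conv_lhs => rw [hn]
    simp [res, Function.comp_def]
  have hsnd : (str n).map Prod.snd = res Z (str n).length := by
    conv_lhs => rw [hn]
    simp [res, Function.comp_def]
  apply hk
  refine Set.mem_biUnion (x := (str n).map Prod.snd) (mem_testTwo_iff.2 ⟨n, ?_, ?_, rfl⟩) ?_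
  · exact ⟨(σ, τ), hq, by simp only [hτ, res_length]⟩
  · rw [hfst]; exact res_mem_cyl _ _
  · rw [hsnd]; exact res_mem_cyl _ _

end Pool.Agent.AlgRandom
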