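import Mathlib
import Pool.Agent.AlgRandom.Defs
import Pool.Agent.AlgRandom.KraftChaitin

/-!
# A universal prefix-free machine exists
-/

namespace Pool.Agent.AlgRandom

open Encodable
open Nat.Partrec (Code)

/-- Two strings are comparable. -/
def Comp (ρ σ : List Bool) : Prop := ρ.take σ.length = σ.take ρ.length

instance (ρ σ : List Bool) : Decidable (Comp ρ σ) := by unfold Comp; infer_instance

theorem comp_of_prefix {ρ σ : List Bool} (h : ρ <+: σ) : Comp ρ σ := by
  unfold Comp
  rw [List.prefix_iff_eq_take] at h
  rw [← h, List.take_of_length_le]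
  rw [h, List.length_take]
  exact min_le_right _ _

theorem comp_comm {ρ σ : List Bool} : Comp ρ σ ↔ Comp σ ρ := by
  unfold Comp
  exact eq_comm

theorem prefix_or_of_comp {ρ σ : List Bool} (h : Comp ρ σ) : ρ <+: σ ∨ σ <+: ρ := by
  unfold Comp at h
  rcases le_total ρ.length σ.length with hl | hl
  · left
    rw [List.take_of_length_le hl] at h
    rw [List.prefix_iff_eq_take]
    exact h
  · right
    rw [List.take_of_length_le (l := σ) hl] at h
    rw [List.prefix_iff_eq_take]
    exact h.symm

/-- The string considered at step `t`. -/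
def evString (t : ℕ) : List Bool := (decode (α := List Bool) t.unpair.2).getD []

/-- The string of step `t` is accepted, given the list of strings accepted before. -/
def Accept (e t : ℕ) (L : List (List Bool)) : Prop :=
  (Code.evaln t.unpair.1 (Denumerable.ofNat Code e) (encode (evString t))).isSome = true ∧
    ∀ ρ ∈ L, ¬ Comp ρ (evString t)

instance (e t : ℕ) (L : List (List Bool)) : Decidable (Accept e t L) := by
  unfold Accept; infer_instance

/-- The list of accepted strings. -/
def acc (e : ℕ) : ℕ → List (List Bool)
  | 0 => []
  | t + 1 => if Accept e t (acc e t) then acc e t ++ [evString t] else acc e t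

theorem acc_mono {e t t' : ℕ} (h : t ≤ t') : ∀ σ ∈ acc e t, σ ∈ acc e t' := by
  induction t', h using Nat.le_induction with
  | base => exact fun σ hσ => hσ
  | succ t' _ ih =>
    intro σ hσ
    rw [acc]
    split_ifs
    · exact List.mem_append_left _ (ih σ hσ)
    · exact ih σ hσ

theorem acc_dom {e t : ℕ} : ∀ σ ∈ acc e t,
    (Code.eval (Denumerable.ofNat Code e) (encode σ)).Dom := by
  induction t with
  | zero => intro σ hσ; simp [acc] at hσ
  | succ t ih =>
    intro σ hσ
    rw [acc] at hσ
    split_ifs at hσ with h
    · rcases List.mem_append.1 hσ with h' | h'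
      · exact ih σ h'
      · rw [List.mem_singleton] at h'
        subst h'
        obtain ⟨y, hy⟩ := Option.isSome_iff_exists.1 h.1
        exact Part.dom_iff_mem.2 ⟨y, Code.evaln_sound hy⟩
    · exact ih σ hσ

theorem acc_incomparable {e t : ℕ} : ∀ σ ∈ acc e t, ∀ ρ ∈ acc e t, Comp σ ρ → σ = ρ := by
  induction t with
  | zero => intro σ hσ; simp [acc] at hσ
  | succ t ih =>
    intro σ hσ ρ hρ hc
    rw [acc] at hσ hρ
    split_ifs at hσ hρ with h
    · rcases List.mem_append.1 hσ with h1 | h1 <;> rcases List.mem_append.1 hρ with h2 | h2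
      · exact ih σ h1 ρ h2 hc
      · rw [List.mem_singleton] at h2
        subst h2
        exact absurd hc (h.2 σ h1)
      · rw [List.mem_singleton] at h1
        subst h1
        exact absurd (comp_comm.1 hc) (h.2 ρ h2)
      · rw [List.mem_singleton] at h1 h2
        rw [h1, h2]
    · exact ih σ hσ ρ hρ hc

theorem acc_complete {e : ℕ} {M : List Bool →. ℕ} (hM : IsPrefixFreeMachine M)
    (he : ∀ σ, M σ = Code.eval (Denumerable.ofNat Code e) (encode σ)) {σ : List Bool}
    (hσ : (M σ).Dom) : ∃ t, σ ∈ acc e t := by
  obtain ⟨y, hy⟩ := Part.dom_iff_mem.1 hσ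
  rw [he, Code.evaln_complete] at hy
  obtain ⟨s, hs⟩ := hy
  set t := Nat.pair s (encode σ) with ht
  have hev : evString t = σ := by simp [evString, ht]
  have ht1 : t.unpair.1 = s := by simp [ht]
  by_cases hin : σ ∈ acc e t
  · exact ⟨t, hin⟩
  · refine ⟨t + 1, ?_⟩
    have hA : Accept e t (acc e t) := by
      refine ⟨?_, ?_⟩
      · rw [hev, ht1, hs]
        rfl
      · intro ρ hρ hc
        rw [hev] at hc
        have hρd : (M ρ).Dom := by rw [he]; exact acc_dom ρ hρ
        rcases prefix_or_of_comp hc with h | h
        · rw [hM.prefixFree ρ σ hρd hσ h] at hρ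
          exact hin hρ
        · rw [← hM.prefixFree σ ρ hσ hρd h] at hρ
          exact hin hρ
    rw [acc, if_pos hA, hev]
    simp

/-! ### Computability -/

theorem primrec_evString : Primrec evString :=
  Primrec.option_getD.comp (Primrec.decode.comp (Primrec.snd.comp Primrec.unpair))
    (Primrec.const [])

theorem primrecPred_accept : PrimrecPred fun z : ℕ × (ℕ × List (List Bool)) =>
    Accept z.1 z.2.1 z.2.2 := by
  have h1 : PrimrecPred fun z : ℕ × (ℕ × List (List Bool)) =>
      (Code.evaln z.2.1.unpair.1 (Denumerable.ofNat Code z.1)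
        (encode (evString z.2.1))).isSome = true := by
    have g : Primrec fun z : ℕ × (ℕ × List (List Bool)) =>
        Code.evaln z.2.1.unpair.1 (Denumerable.ofNat Code z.1) (encode (evString z.2.1)) :=
      Code.primrec_evaln.comp (Primrec.pair (Primrec.pair
        (Primrec.fst.comp (Primrec.unpair.comp (Primrec.fst.comp Primrec.snd)))
        ((Primrec.ofNat Code).comp Primrec.fst))
        (Primrec.encode.comp (primrec_evString.comp (Primrec.fst.comp Primrec.snd))))
    exact Primrec.eq.comp (Primrec.option_isSome.comp g) (Primrec.const true)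
  have hR : PrimrecRel fun (ρ σ : List Bool) => ¬ Comp ρ σ := by
    have h : PrimrecPred fun z : List Bool × List Bool => Comp z.1 z.2 :=
      Primrec.eq.comp (Primrec.list_take.comp (Primrec.list_length.comp Primrec.snd) Primrec.fst)
        (Primrec.list_take.comp (Primrec.list_length.comp Primrec.fst) Primrec.snd)
    exact h.not
  have h2 : PrimrecPred fun z : ℕ × (ℕ × List (List Bool)) =>
      ∀ ρ ∈ z.2.2, ¬ Comp ρ (evString z.2.1) :=
    hR.forall_mem_list.comp (Primrec.snd.comp Primrec.snd)
      (primrec_evString.comp (Primrec.fst.comp Primrec.snd))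
  exact h1.and h2

theorem primrec_acc : Primrec₂ acc := by
  have hstep : Primrec₂ fun (e : ℕ) (p : ℕ × List (List Bool)) =>
      (if Accept e p.1 p.2 then p.2 ++ [evString p.1] else p.2 : List (List Bool)) :=
    Primrec.ite primrecPred_accept
      (Primrec.list_concat.comp (Primrec.snd.comp Primrec.snd)
        (primrec_evString.comp (Primrec.fst.comp Primrec.snd)))
      (Primrec.snd.comp Primrec.snd)
  refine (Primrec.nat_rec (Primrec.const ([] : List (List Bool))) hstep).of_eq ?_
  intro e t
  induction t with
  | zero => rfl
  | succ t ih =>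
    simp only at ih ⊢
    rw [ih, acc]

theorem primrec_mem : PrimrecRel fun (σ : List Bool) (L : List (List Bool)) => σ ∈ L := by
  have h : PrimrecRel fun (ρ σ : List Bool) => ρ = σ := Primrec.eq
  have h2 := h.exists_mem_list.swap
  refine PrimrecRel.of_eq h2 ?_
  intro σ L
  simp [Function.swap]

/-- The machine obtained from the `e`-th partial computable function by discarding strings that
are comparable with strings found earlier. -/
def trim (e : ℕ) (σ : List Bool) : Part ℕ :=
  (Nat.rfind fun t => Part.some (decide (σ ∈ acc e t))).bind fun _ =>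
    Code.eval (Denumerable.ofNat Code e) (encode σ)

theorem trim_dom {e : ℕ} {σ : List Bool} : (trim e σ).Dom ↔ ∃ t, σ ∈ acc e t := by
  unfold trim
  rw [Part.bind_dom]
  constructor
  · rintro ⟨h, -⟩
    obtain ⟨t, ht, -⟩ := Nat.rfind_dom.1 h
    simp only [Part.mem_some_iff] at ht
    exact ⟨t, of_decide_eq_true ht.symm⟩
  · rintro ⟨t, ht⟩
    have h : (Nat.rfind fun t => Part.some (decide (σ ∈ acc e t))).Dom := by
      refine Nat.rfind_dom.2 ⟨t, ?_, fun _ => trivial⟩
      rw [decide_eq_true ht]
      exact Part.mem_some _
    exact ⟨h, acc_dom σ ht⟩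

theorem mem_trim {e : ℕ} {σ : List Bool} {x : ℕ} (h : ∃ t, σ ∈ acc e t)
    (hx : x ∈ Code.eval (Denumerable.ofNat Code e) (encode σ)) : x ∈ trim e σ := by
  have hd := trim_dom.2 h
  unfold trim at hd ⊢
  rw [Part.mem_bind_iff]
  rw [Part.bind_dom] at hd
  obtain ⟨h1, -⟩ := hd
  exact ⟨_, Part.get_mem h1, hx⟩

theorem partrec_trim : Partrec fun z : ℕ × List Bool => trim z.1 z.2 := by
  have h1 : Partrec fun z : ℕ × List Bool => Nat.rfind fun t =>
      Part.some (decide (z.2 ∈ acc z.1 t)) := by
    have h : Primrec fun q : (ℕ × List Bool) × ℕ => decide (q.1.2 ∈ acc q.1.1 q.2) :=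
      (primrec_mem.comp (Primrec.snd.comp Primrec.fst)
        (primrec_acc.comp (Primrec.fst.comp Primrec.fst) Primrec.snd)).decide
    exact Partrec.rfind h.to_comp.partrec.to₂
  have h2 : Partrec fun q : (ℕ × List Bool) × ℕ =>
      Code.eval (Denumerable.ofNat Code q.1.1) (encode q.1.2) :=
    Code.eval_part.comp ((Computable.ofNat Code).comp (Computable.fst.comp Computable.fst))
      (Computable.encode.comp (Computable.snd.comp Computable.fst))
  exact Partrec.bind h1 h2

/-- The number of leading zeros. -/
def lead (τ : List Bool) : ℕ := (τ.takeWhile fun b => !b).length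

/-- The universal machine: `U(0^e 1 σ)` is the value of the `e`-th trimmed machine on `σ`. -/
def univ (τ : List Bool) : Part ℕ :=
  cond (decide (τ[lead τ]? = some true)) (trim (lead τ) (τ.drop (lead τ + 1))) Part.none

theorem lead_spec (e : ℕ) (σ : List Bool) : lead (List.replicate e false ++ true :: σ) = e := by
  unfold lead
  induction e with
  | zero => simp
  | succ e ih =>
    rw [List.replicate_succ, List.cons_append, List.takeWhile_cons_of_pos (by simp)]
    simp only [List.length_cons, ih]

theorem univ_spec (e : ℕ) (σ : List Bool) :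
    univ (List.replicate e false ++ true :: σ) = trim e σ := by
  unfold univ
  rw [lead_spec]
  have h1 : (List.replicate e false ++ true :: σ)[e]? = some true := by
    rw [List.getElem?_append_right (by simp)]
    simp
  have h2 : (List.replicate e false ++ true :: σ).drop (e + 1) = σ := by
    rw [List.drop_append, List.length_replicate]
    simp
  rw [h1, h2]
  simp

theorem eq_of_univ_dom {τ : List Bool} (h : (univ τ).Dom) :
    ∃ e σ, τ = List.replicate e false ++ true :: σ ∧ (trim e σ).Dom := by
  unfold univ at h
  by_cases hc : τ[lead τ]? = some true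
  · rw [decide_eq_true hc] at h
    refine ⟨lead τ, τ.drop (lead τ + 1), ?_, h⟩
    have h1 : τ.take (lead τ) = List.replicate (lead τ) false := by
      have h2 : τ.takeWhile (fun b => !b) = τ.take (lead τ) := by
        have h3 : τ.takeWhile (fun b => !b) <+: τ := List.takeWhile_prefix _
        exact List.prefix_iff_eq_take.1 h3
      rw [← h2]
      apply List.eq_replicate_iff.2
      refine ⟨rfl, fun b hb => ?_⟩
      have := List.mem_takeWhile_imp hb
      simpa using this
    have hlt : lead τ < τ.length := by
      by_contra hcon
      rw [List.getElem?_eq_none (by omega)] at hc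
      exact absurd hc (by simp)
    have h4 : τ[lead τ] = true := by
      rw [List.getElem?_eq_getElem hlt] at hc
      exact Option.some.inj hc
    conv_lhs => rw [← List.take_append_drop (lead τ) τ]
    rw [h1, List.drop_eq_getElem_cons hlt, h4]
  · rw [decide_eq_false hc] at h
    exact absurd h (by simp)

theorem partrec_univ : Partrec univ := by
  have hl : Primrec lead := Primrec.list_length.comp (Primrec.list_takeWhile Primrec.not)
  have h1 : Primrec fun τ : List Bool => decide (τ[lead τ]? = some true) :=
    (Primrec.eq.comp (Primrec.list_getElem?.comp Primrec.id hl) (Primrec.const (some true))).decide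
  have h2 : Primrec fun τ : List Bool => (lead τ, τ.drop (lead τ + 1)) :=
    Primrec.pair hl (Primrec.list_drop.comp (Primrec.succ.comp hl) Primrec.id)
  exact Partrec.cond h1.to_comp (partrec_trim.comp h2.to_comp) Partrec.none

/-- A universal prefix-free machine exists. -/
theorem exists_isUniversal : ∃ U, IsUniversal U := by
  refine ⟨univ, ⟨⟨partrec_univ, ?_⟩, ?_⟩⟩
  · intro τ τ' h h' hp
    obtain ⟨e, σ, rfl, hd⟩ := eq_of_univ_dom h
    obtain ⟨e', σ', rfl, hd'⟩ := eq_of_univ_dom h'
    -- the numbers of leading zeros agree
    have hee : e = e' := by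
      have g1 : (List.replicate e false ++ true :: σ)[e]? = some true := by
        rw [List.getElem?_append_right (by simp)]
        simp
      have g2 : (List.replicate e' false ++ true :: σ')[e']? = some true := by
        rw [List.getElem?_append_right (by simp)]
        simp
      obtain ⟨ρ, hρ⟩ := hp
      rcases lt_trichotomy e e' with hlt | heq | hgt
      · exfalso
        rw [← hρ] at g2
        have g3 : (List.replicate e' false ++ true :: σ')[e]? = some false := by
          rw [List.getElem?_append_left (by simpa using hlt)]
          simp [hlt]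
        rw [← hρ, List.getElem?_append_left (by simp), g1] at g3
        simp at g3
      · exact heq
      · exfalso
        have g3 : (List.replicate e false ++ true :: σ)[e']? = some false := by
          rw [List.getElem?_append_left (by simpa using hgt)]
          simp [hgt]
        rw [← hρ, List.getElem?_append_left (by simp; omega), g3] at g2
        simp at g2
    subst hee
    have hp' : σ <+: σ' := by
      rw [List.prefix_append_right_inj] at hp
      exact (List.cons_prefix_cons.1 hp).2
    obtain ⟨t, ht⟩ := trim_dom.1 hd
    obtain ⟨t', ht'⟩ := trim_dom.1 hd'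
    have h1 := acc_mono (le_max_left t t') σ ht
    have h2 := acc_mono (le_max_right t t') σ' ht'
    rw [acc_incomparable σ h1 σ' h2 (comp_of_prefix hp')]
  · intro M hM
    obtain ⟨c, hc⟩ := Code.exists_code.1 hM.partrec
    have he : ∀ σ, M σ = Code.eval (Denumerable.ofNat Code (encode c)) (encode σ) := by
      intro σ
      rw [Denumerable.ofNat_encode, hc]
      simp [Part.map_id']
    refine ⟨encode c + 1, fun σ x hx => ?_⟩
    refine ⟨List.replicate (encode c) false ++ true :: σ, ?_, by simp; omega⟩
    have hdom : (M σ).Dom := Part.dom_iff_mem.2 ⟨x, hx⟩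
    have : x ∈ trim (encode c) σ := mem_trim (acc_complete hM he hdom) (by rw [← he]; exact hx)
    rw [univ_spec]
    exact this

end Pool.Agent.AlgRandom
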